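import Mathlib

/-!
# Line graphs: statements
-/

set_option autoImplicit false
open scoped BigOperators Matrix

namespace H175LG

/-- a matching as an involution -/
def IsM {V : Type} (F : SimpleGraph V) (f : V → V) : Prop :=
  (∀ v, f (f v) = v) ∧ ∀ v, f v ≠ v → F.Adj v (f v)

/-- covered vertices -/
def cov {V : Type} [Fintype V] [DecidableEq V] (f : V → V) : Finset V :=
  Finset.univ.filter fun v => f v ≠ v

/-- maximum matching -/
def IsMax {V : Type} [Fintype V] [DecidableEq V] (F : SimpleGraph V) (f : V → V) : Prop :=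
  IsM F f ∧ ∀ g, IsM F g → (cov g).card ≤ (cov f).card

open Classical in
/-- degree -/
noncomputable def dg {V : Type} [Fintype V] (F : SimpleGraph V) (v : V) : ℕ :=
  (Finset.univ.filter fun w => F.Adj v w).card

open Classical in
/-- edges -/
noncomputable def ed {V : Type} [Fintype V] (F : SimpleGraph V) : Finset (Sym2 V) :=
  Finset.univ.filter fun e => e ∈ F.edgeSet

open Classical in
/-- signless Laplacian minus `2 I` -/
noncomputable def BQ {V : Type} [Fintype V] (F : SimpleGraph V) : Matrix V V ℝ :=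
  Matrix.of fun u v => if u = v then (dg F u : ℝ) - 2 else if F.Adj u v then 1 else 0

/-- `P ≥ 0`, `P ≥ BQ F` -/
def Dom {V : Type} [Fintype V] (F : SimpleGraph V) (P : Matrix V V ℝ) : Prop :=
  P.PosSemidef ∧ (P - BQ F).PosSemidef

/-- `F` lives on `S` and is factor-critical there -/
def FC {V : Type} [Fintype V] [DecidableEq V] (F : SimpleGraph V) (S : Finset V) : Prop :=
  (∀ u v, F.Adj u v → u ∈ S) ∧ ∀ v ∈ S, ∃ f, IsM F f ∧ cov f = S.erase v

/-- (LIN) from edges to vertices -/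
def S_LIN : Prop := ∀ (V E : Type) [Fintype V] [Fintype E] [DecidableEq V] [DecidableEq E]
  (N : Matrix V E ℝ) (P : Matrix E E ℝ), P.PosSemidef →
  (P - (Nᵀ * N - (2 : ℝ) • (1 : Matrix E E ℝ))).PosSemidef →
  ∃ P' : Matrix V V ℝ, P'.PosSemidef ∧
    (P' - (N * Nᵀ - (2 : ℝ) • (1 : Matrix V V ℝ))).PosSemidef ∧ P'.trace ≤ P.trace

/-- (MS) matched sets -/
def S_MS : Prop := ∀ (V : Type) [Fintype V] [DecidableEq V] (F : SimpleGraph V)
  (P : Matrix V V ℝ), Dom F P → ∀ f, IsM F f → ∀ T : Finset V, T ⊆ cov f → (∀ v ∈ T, f v ∈ T) →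
  ∑ v ∈ T, ((dg F v : ℝ) - 1) / 2 ≤ ∑ v ∈ T, P v v

/-- the inequality for a block `b` -/
def Good {V : Type} [Fintype V] (F : SimpleGraph V) (P : Matrix V V ℝ) (b : Finset V) : Prop :=
  ∑ v ∈ b, ((dg F v : ℝ) - 1) / 2 + 1 / 2 ≤ ∑ v ∈ b, P v v

/-- (BL) a good block closed under a near-perfect matching is enough -/
def S_BL : Prop := ∀ (V : Type) [Fintype V] [DecidableEq V] (F : SimpleGraph V)
  (P : Matrix V V ℝ), Dom F P → ∀ (S b : Finset V) (v : V) (f : V → V), IsM F f →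
  v ∈ b → b ⊆ S → cov f = S.erase v → (∀ w ∈ b, f w ∈ b) → Good F P b → Good F P S

/-- (SG) a vertex of degree at least 4 is a good block -/
def S_SG : Prop := ∀ (V : Type) [Fintype V] [DecidableEq V] (F : SimpleGraph V)
  (P : Matrix V V ℝ), Dom F P → ∀ v, 4 ≤ dg F v → Good F P {v}

/-- (DEG) degrees in factor-critical graphs -/
def S_DEG : Prop := ∀ (V : Type) [Fintype V] [DecidableEq V] (F : SimpleGraph V) (S : Finset V),
  FC F S → 3 ≤ S.card → ∀ v ∈ S, 2 ≤ dg F v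

/-- (K7) spider block -/
def S_K7 : Prop := ∀ (V : Type) [Fintype V] [DecidableEq V] (F : SimpleGraph V)
  (P : Matrix V V ℝ), Dom F P → ∀ x a b c a' b' c' : V, [x, a, b, c, a', b', c'].Nodup →
  (∀ v ∈ [x, a, b, c, a', b', c'], dg F v = 2 ∨ dg F v = 3) → dg F x = 3 →
  F.Adj x a → F.Adj x b → F.Adj x c → F.Adj a a' → F.Adj b b' → F.Adj c c' →
  Good F P {x, a, b, c, a', b', c'}

/-- (K5A) -/
def S_K5A : Prop := ∀ (V : Type) [Fintype V] [DecidableEq V] (F : SimpleGraph V)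
  (P : Matrix V V ℝ), Dom F P → ∀ x a b c c' : V, [x, a, b, c, c'].Nodup →
  (∀ v ∈ [x, a, b, c, c'], dg F v = 2 ∨ dg F v = 3) → dg F x = 3 →
  F.Adj x a → F.Adj x b → F.Adj x c → F.Adj a b → F.Adj c c' → dg F a = 2 →
  Good F P {x, a, b, c, c'}

/-- (K5B) -/
def S_K5B : Prop := ∀ (V : Type) [Fintype V] [DecidableEq V] (F : SimpleGraph V)
  (P : Matrix V V ℝ), Dom F P → ∀ x a b c c' : V, [x, a, b, c, c'].Nodup →
  (∀ v ∈ [x, a, b, c, c'], dg F v = 2 ∨ dg F v = 3) → dg F x = 3 →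
  F.Adj x a → F.Adj x b → F.Adj x c → F.Adj a b → F.Adj c c' → dg F a = 3 → dg F b = 3 →
  dg F c' = 3 → Good F P {x, a, b, c, c'}

/-- (K5C) -/
def S_K5C : Prop := ∀ (V : Type) [Fintype V] [DecidableEq V] (F : SimpleGraph V)
  (P : Matrix V V ℝ), Dom F P → ∀ x a b c c' : V, [x, a, b, c, c'].Nodup →
  (∀ v ∈ [x, a, b, c, c'], dg F v = 2 ∨ dg F v = 3) → dg F x = 3 →
  F.Adj x a → F.Adj x b → F.Adj x c → F.Adj a b → F.Adj c c' → dg F a = 3 → dg F b = 3 →
  dg F c' = 2 → (F.Adj a c ∨ F.Adj a c') → Good F P {x, a, b, c, c'}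

/-- (K5P) -/
def S_K5P : Prop := ∀ (V : Type) [Fintype V] [DecidableEq V] (F : SimpleGraph V)
  (P : Matrix V V ℝ), Dom F P → ∀ a x c p q : V, [a, x, c, p, q].Nodup →
  F.Adj a x → F.Adj x c → F.Adj c p → F.Adj p q → ¬ F.Adj x q →
  dg F a = 3 → dg F x = 3 → dg F c = 2 → dg F p = 2 → (dg F q = 2 ∨ dg F q = 3) →
  Good F P {a, x, c, p, q}

/-- (K3) -/
def S_K3 : Prop := ∀ (V : Type) [Fintype V] [DecidableEq V] (F : SimpleGraph V)
  (P : Matrix V V ℝ), Dom F P → ∀ a b c : V, [a, b, c].Nodup →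
  F.Adj a b → F.Adj b c → F.Adj a c → dg F a = 2 → dg F b = 2 → dg F c = 2 →
  Good F P {a, b, c}

/-- (K5R) the 5-cycle -/
def S_K5R : Prop := ∀ (V : Type) [Fintype V] [DecidableEq V] (F : SimpleGraph V)
  (P : Matrix V V ℝ), Dom F P → ∀ a b c d e : V, [a, b, c, d, e].Nodup →
  F.Adj a b → F.Adj b c → F.Adj c d → F.Adj d e → F.Adj e a →
  (∀ v ∈ [a, b, c, d, e], dg F v = 2) → Good F P {a, b, c, d, e}

/-- (K7P) the path with 7 vertices of degree 2 -/
def S_K7P : Prop := ∀ (V : Type) [Fintype V] [DecidableEq V] (F : SimpleGraph V)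
  (P : Matrix V V ℝ), Dom F P → ∀ a b c d e g h : V, [a, b, c, d, e, g, h].Nodup →
  F.Adj a b → F.Adj b c → F.Adj c d → F.Adj d e → F.Adj e g → F.Adj g h →
  (∀ v ∈ [a, b, c, d, e, g, h], dg F v = 2) → Good F P {a, b, c, d, e, g, h}

/-- (F2) the 2-regular case -/
def S_F2 : Prop := ∀ (V : Type) [Fintype V] [DecidableEq V] (F : SimpleGraph V)
  (P : Matrix V V ℝ), Dom F P → ∀ S : Finset V, FC F S → 3 ≤ S.card →
  (∀ v ∈ S, dg F v = 2) → Good F P S

/-- (F3) the subcubic case -/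
def S_F3 : Prop := ∀ (V : Type) [Fintype V] [DecidableEq V] (F : SimpleGraph V)
  (P : Matrix V V ℝ), Dom F P → ∀ S : Finset V, FC F S → 3 ≤ S.card →
  (∀ v ∈ S, dg F v = 2 ∨ dg F v = 3) → ∀ x ∈ S, dg F x = 3 → Good F P S

/-- (FCB) factor-critical graphs -/
def S_FCB : Prop := ∀ (V : Type) [Fintype V] [DecidableEq V] (F : SimpleGraph V)
  (P : Matrix V V ℝ), Dom F P → ∀ S : Finset V, FC F S → 3 ≤ S.card → Good F P S

/-- (TR) transitivity in Gallai's lemma -/
def S_TR : Prop := ∀ (V : Type) [Fintype V] [DecidableEq V] (F : SimpleGraph V) (u t v : V),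
  (∃ f, IsMax F f ∧ f t = t) → (∀ f, IsMax F f → f u = u → f t = t → u = t) →
  (∀ f, IsMax F f → f t = t → f v = v → t = v) → ∀ f, IsMax F f → f u = u → f v = v → u = v

/-- (GAL) Gallai's lemma -/
def S_GAL : Prop := ∀ (V : Type) [Fintype V] [DecidableEq V] (F : SimpleGraph V),
  (∀ v, ∃ f, IsMax F f ∧ f v = v) → ∀ u v, F.Reachable u v →
  ∀ f, IsMax F f → f u = u → f v = v → u = v

/-- (CMP) components are factor-critical -/
def S_CMP : Prop := ∀ (V : Type) [Fintype V] [DecidableEq V] (F : SimpleGraph V),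
  (∀ v, ∃ f, IsMax F f ∧ f v = v) → (∀ v, F.Reachable v v) → ∀ S : Finset V, ∀ v₀ ∈ S,
  (∀ v, v ∈ S ↔ F.Reachable v₀ v) → ∀ v ∈ S, ∃ f, IsM F f ∧ cov f = S.erase v

/-- (PAR) parity -/
def S_PAR : Prop := ∀ (V : Type) [Fintype V] [DecidableEq V] (F : SimpleGraph V) (f : V → V),
  IsM F f → Even (cov f).card

/-- the conditions on edge weights -/
def Wt {V : Type} [Fintype V] [DecidableEq V] (H : SimpleGraph V) (x : Sym2 V → ℝ) : Prop :=
  (∀ (v : V) (K : Finset (Sym2 V)), K ⊆ ed H → (∀ e ∈ K, v ∈ e) → ∑ e ∈ K, x e ≤ 1) ∧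
  ∀ (F : SimpleGraph V) (S : Finset V), F ≤ H → FC F S → 3 ≤ S.card →
    ∑ e ∈ ed F, x e ≤ ((S.card : ℝ) - 1) / 2

/-- (IND) the induction -/
def S_IND : Prop := ∀ (V : Type) [Fintype V] [DecidableEq V] (H : SimpleGraph V)
  (x : Sym2 V → ℝ), Wt H x → ∀ F ≤ H, ∀ f, IsMax F f → ∑ e ∈ ed F, x e ≤ ((cov f).card : ℝ) / 2

open Classical in
/-- (BR) edge weights from a matrix on the edges -/
def S_BR : Prop := ∀ (V : Type) [Fintype V] [DecidableEq V] (H : SimpleGraph V)
  (P : Matrix H.edgeSet H.edgeSet ℝ), P.PosSemidef →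
  (P - H.lineGraph.adjMatrix ℝ).PosSemidef →
  Wt H (fun e => if h : e ∈ H.edgeSet then 1 - P ⟨e, h⟩ ⟨e, h⟩ else 0)

/-- (IDP) a matching is an independent set of the line graph -/
def S_IDP : Prop := ∀ (V : Type) [Fintype V] [DecidableEq V] (H : SimpleGraph V) (f : V → V),
  IsM H f → ∃ I : Finset H.edgeSet, (∀ e ∈ I, ∀ e' ∈ I, ¬ H.lineGraph.Adj e e') ∧
    2 * I.card = (cov f).card

/-- the three neighbours -/
lemma nb3 {V : Type} [Fintype V] [DecidableEq V] {F : SimpleGraph V} {x a b c y : V}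
    (h : dg F x = 3) (ha : F.Adj x a) (hb : F.Adj x b) (hc : F.Adj x c) (hab : a ≠ b)
    (hac : a ≠ c) (hbc : b ≠ c) (hy : F.Adj x y) : y = a ∨ y = b ∨ y = c := by
  classical
  have h1 : ({a, b, c} : Finset V) ⊆ Finset.univ.filter fun w => F.Adj x w := by
    intro w hw
    simp only [Finset.mem_insert, Finset.mem_singleton] at hw
    rw [Finset.mem_filter]
    rcases hw with rfl | rfl | rfl <;> exact ⟨Finset.mem_univ _, by assumption⟩
  have h2 : (Finset.univ.filter fun w => F.Adj x w).card ≤ ({a, b, c} : Finset V).card := by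
    rw [Finset.card_eq_three.mpr ⟨a, b, c, hab, hac, hbc, rfl⟩]
    unfold dg at h
    convert h.le
  have h3 := Finset.eq_of_subset_of_card_le h1 h2
  have h4 : y ∈ Finset.univ.filter fun w => F.Adj x w := by simpa using hy
  rw [← h3] at h4
  simpa using h4

/-- the two neighbours -/
lemma nb2 {V : Type} [Fintype V] [DecidableEq V] {F : SimpleGraph V} {x a b y : V}
    (h : dg F x = 2) (ha : F.Adj x a) (hb : F.Adj x b) (hab : a ≠ b)
    (hy : F.Adj x y) : y = a ∨ y = b := by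
  classical
  have h1 : ({a, b} : Finset V) ⊆ Finset.univ.filter fun w => F.Adj x w := by
    intro w hw
    simp only [Finset.mem_insert, Finset.mem_singleton] at hw
    rw [Finset.mem_filter]
    rcases hw with rfl | rfl <;> exact ⟨Finset.mem_univ _, by assumption⟩
  have h2 : (Finset.univ.filter fun w => F.Adj x w).card ≤ ({a, b} : Finset V).card := by
    rw [Finset.card_eq_two.mpr ⟨a, b, hab, rfl⟩]
    unfold dg at h
    convert h.le
  have h3 := Finset.eq_of_subset_of_card_le h1 h2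
  have h4 : y ∈ Finset.univ.filter fun w => F.Adj x w := by simpa using hy
  rw [← h3] at h4
  simpa using h4

/-- quadratic forms on finitely many vertices: `P ≥ 0` -/
lemma quadP {V : Type} [Fintype V] [DecidableEq V] {F : SimpleGraph V} {P : Matrix V V ℝ}
    (h : Dom F P) {n : ℕ} (g : Fin n → V) (t : Fin n → ℝ) :
    0 ≤ ∑ i, ∑ j, t i * t j * P (g i) (g j) := by
  have h1 := (h.1.submatrix g).dotProduct_mulVec_nonneg t
  simp only [dotProduct, Matrix.mulVec, Matrix.submatrix_apply, star_trivial, Pi.star_apply] at h1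
  refine h1.trans (le_of_eq ?_)
  refine Finset.sum_congr rfl fun i _ => ?_
  rw [Finset.mul_sum]
  exact Finset.sum_congr rfl fun j _ => by ring

/-- quadratic forms on finitely many vertices: `P ≥ BQ F` -/
lemma quadB {V : Type} [Fintype V] [DecidableEq V] {F : SimpleGraph V} {P : Matrix V V ℝ}
    (h : Dom F P) {n : ℕ} (g : Fin n → V) (t : Fin n → ℝ) :
    0 ≤ ∑ i, ∑ j, t i * t j * (P (g i) (g j) - BQ F (g i) (g j)) := by
  have h1 := (h.2.submatrix g).dotProduct_mulVec_nonneg t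
  simp only [dotProduct, Matrix.mulVec, Matrix.submatrix_apply, star_trivial, Pi.star_apply,
    Matrix.sub_apply] at h1
  refine h1.trans (le_of_eq ?_)
  refine Finset.sum_congr rfl fun i _ => ?_
  rw [Finset.mul_sum]
  exact Finset.sum_congr rfl fun j _ => by ring

/-- `P` is symmetric -/
lemma symP {V : Type} [Fintype V] [DecidableEq V] {F : SimpleGraph V} {P : Matrix V V ℝ}
    (h : Dom F P) (u v : V) : P u v = P v u := by
  have := h.1.1.apply v u
  simpa using this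

lemma bq_diag {V : Type} [Fintype V] [DecidableEq V] (F : SimpleGraph V) (v : V) :
    BQ F v v = (dg F v : ℝ) - 2 := by
  simp [BQ]

lemma bq_adj {V : Type} [Fintype V] [DecidableEq V] {F : SimpleGraph V} {u v : V}
    (h : F.Adj u v) : BQ F u v = 1 := by
  simp [BQ, h, h.ne]

lemma bq_not {V : Type} [Fintype V] [DecidableEq V] {F : SimpleGraph V} {u v : V}
    (h : u ≠ v) (h' : ¬ F.Adj u v) : BQ F u v = 0 := by
  simp [BQ, h, h']

end H175LG
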