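import Pool.Agent.H175R.LG.Defs
import Pool.Agent.H175R.Energy.Inertia

set_option autoImplicit false
open scoped BigOperators Matrix

namespace H175LG

lemma exists_isMax {V : Type} [Fintype V] [DecidableEq V] (F : SimpleGraph V) :
    ∃ f, IsMax F f := by
  classical
  obtain ⟨f, hf, hmax⟩ := Finset.exists_max_image
    (Finset.univ.filter (fun f : V → V => IsM F f)) (fun f => (cov f).card)
    ⟨id, by simp [IsM]⟩
  rw [Finset.mem_filter] at hf
  exact ⟨f, hf.2, fun g hg => hmax g (Finset.mem_filter.2 ⟨Finset.mem_univ _, hg⟩)⟩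

/-- the Aouchiche-Hansen inequality for line graphs -/
theorem line_main (hBR : S_BR) (hIND : S_IND) (hIDP : S_IDP)
    (W : Type) [Fintype W] [DecidableEq W] (G : SimpleGraph W) [DecidableRel G.Adj]
    (V : Type) [Fintype V] (H : SimpleGraph V) (φ : G ≃g H.lineGraph) :
    ∃ s : Finset W, G.IsIndepSet (s : Set W) ∧
      (Fintype.card W : ℝ) - (s.card : ℝ) ≤
        (((G.adjMatrix ℝ).charpoly.roots).filter (fun x : ℝ => 0 < x)).sum := by
  classical
  have hA : (G.adjMatrix ℝ).IsHermitian := by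
    ext i j; simpa using (G.isSymm_adjMatrix (α := ℝ)).apply i j
  obtain ⟨P, Q, hP, hQ, hPQ, htr⟩ := Pool.Agent.H175R.Energy.split hA
  have hP' : (P.submatrix φ.symm φ.symm).PosSemidef := hP.submatrix _
  have hQ' : (P.submatrix φ.symm φ.symm - H.lineGraph.adjMatrix ℝ).PosSemidef := by
    have h1 : P.submatrix φ.symm φ.symm - H.lineGraph.adjMatrix ℝ =
        Q.submatrix φ.symm φ.symm := by
      ext e e'
      have h2 := congrFun (congrFun hPQ (φ.symm e)) (φ.symm e')
      rw [Matrix.sub_apply, SimpleGraph.adjMatrix_apply] at h2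
      have h3 : G.Adj (φ.symm e) (φ.symm e') ↔ H.lineGraph.Adj e e' := φ.symm.map_adj_iff
      simp only [Matrix.sub_apply, Matrix.submatrix_apply, SimpleGraph.adjMatrix_apply]
      by_cases h4 : H.lineGraph.Adj e e'
      · rw [if_pos (h3.2 h4)] at h2
        rw [if_pos h4]
        linarith
      · rw [if_neg (fun h => h4 (h3.1 h))] at h2
        rw [if_neg h4]
        linarith
    rw [h1]
    exact hQ.submatrix _
  have hW := hBR V H (P.submatrix φ.symm φ.symm) hP' (by convert hQ')
  obtain ⟨f, hf⟩ := exists_isMax H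
  have h1 := hIND V H _ hW H le_rfl f hf
  obtain ⟨I, hI, hIc⟩ := hIDP V H f hf.1
  have h2 : ∑ e ∈ ed H, (if h : e ∈ H.edgeSet then
      1 - (P.submatrix φ.symm φ.symm) ⟨e, h⟩ ⟨e, h⟩ else 0) =
      (Fintype.card W : ℝ) - P.trace := by
    rw [Finset.sum_subtype (ed H) (p := fun e => e ∈ H.edgeSet) (fun e => by simp [ed])]
    have h3 : ∀ e : H.edgeSet, (if h : (e : Sym2 V) ∈ H.edgeSet then
      1 - (P.submatrix φ.symm φ.symm) ⟨e, h⟩ ⟨e, h⟩ else 0) =
        1 - P (φ.symm e) (φ.symm e) := by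
      intro e
      rw [dif_pos e.2]
      rfl
    rw [Finset.sum_congr rfl fun e _ => h3 e]
    refine (Equiv.sum_comp φ.symm.toEquiv (fun w => 1 - P w w)).trans ?_
    simp [Matrix.trace]
  refine ⟨I.map φ.symm.toEquiv.toEmbedding, ?_, ?_⟩
  · intro a ha b hb hab hadj
    simp only [Finset.coe_map, Set.mem_image] at ha hb
    obtain ⟨e, he, rfl⟩ := ha
    obtain ⟨e', he', rfl⟩ := hb
    exact hI e he e' he' (φ.symm.map_adj_iff.1 hadj)
  · rw [Finset.card_map]
    have h3 : ((cov f).card : ℝ) = 2 * (I.card : ℝ) := by exact_mod_cast hIc.symm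
    have h4 : (Fintype.card W : ℝ) - P.trace ≤ (I.card : ℝ) := by
      rw [← h2]
      refine le_trans (le_of_eq ?_) (h1.trans (by linarith))
      refine Finset.sum_congr rfl fun e _ => ?_
      split_ifs <;> rfl
    have h5 : P.trace = (((G.adjMatrix ℝ).charpoly.roots).filter (fun x : ℝ => 0 < x)).sum := htr
    rw [← h5]
    linarith

end H175LG
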