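import Pool.Agent.H175R.LG.Main

/-!
# Generalised line graphs
-/

set_option autoImplicit false
open scoped BigOperators Matrix

namespace H175LG

/-- Hoffman's generalised line graph `L(H; a)`: the line graph of `H` together with, for each
vertex `v` of `H`, a cocktail party graph on `2 a(v)` vertices, each of which is joined to all
edges of `H` at `v`. -/
def genLine {V : Type} (H : SimpleGraph V) (a : V → ℕ) :
    SimpleGraph (H.edgeSet ⊕ (Σ v : V, Fin (a v) × Bool)) where
  Adj u w := match u, w with
    | .inl e, .inl e' => e ≠ e' ∧ ∃ v, v ∈ (e : Sym2 V) ∧ v ∈ (e' : Sym2 V)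
    | .inl e, .inr p => p.1 ∈ (e : Sym2 V)
    | .inr p, .inl e => p.1 ∈ (e : Sym2 V)
    | .inr p, .inr q => p.1 = q.1 ∧ (p.2.1 : ℕ) ≠ (q.2.1 : ℕ)
  symm := ⟨by
    intro u w h
    rcases u with e | p <;> rcases w with e' | q
    · obtain ⟨h1, v, h2, h3⟩ := h
      exact ⟨h1.symm, v, h3, h2⟩
    · exact h
    · exact h
    · exact ⟨h.1.symm, h.2.symm⟩⟩
  loopless := ⟨by
    intro u h
    rcases u with e | p
    · exact h.1 rfl
    · exact h.2 rfl⟩

/-- clique inequality -/
lemma clique_le {U : Type} [Fintype U] [DecidableEq U] (G : SimpleGraph U) [DecidableRel G.Adj]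
    {P : Matrix U U ℝ} (hP : P.PosSemidef) (hQ : (P - G.adjMatrix ℝ).PosSemidef) (K : Finset U)
    (hK : ∀ i ∈ K, ∀ j ∈ K, i ≠ j → G.Adj i j) : ∑ i ∈ K, (1 - P i i) ≤ 1 := by
  have h := Pool.Agent.H175R.Energy.clique_ineq (B := G.adjMatrix ℝ) hP hQ (by abel)
    (fun i => by simp) (ι := {i // i ∈ K}) (fun i => i.1)
    (fun x y hxy => by
      rw [SimpleGraph.adjMatrix_apply, if_pos (hK x x.2 y y.2 (Subtype.coe_injective.ne hxy))])
  rw [← Finset.sum_coe_sort]
  refine (Finset.sum_le_sum fun i _ => ?_).trans h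
  exact le_max_left _ _

/-- the edges of `H` between vertices without petals -/
def core {V : Type} (H : SimpleGraph V) (a : V → ℕ) : SimpleGraph V where
  Adj u w := H.Adj u w ∧ a u = 0 ∧ a w = 0
  symm := ⟨fun _ _ h => ⟨h.1.symm, h.2.2, h.2.1⟩⟩
  loopless := ⟨fun _ h => h.1.ne rfl⟩

lemma core_le {V : Type} (H : SimpleGraph V) (a : V → ℕ) : core H a ≤ H := fun _ _ h => h.1

lemma core_edge {V : Type} (H : SimpleGraph V) (a : V → ℕ) (e : Sym2 V) :
    e ∈ (core H a).edgeSet ↔ e ∈ H.edgeSet ∧ ∀ v ∈ e, a v = 0 := by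
  induction e using Sym2.ind with
  | _ u w =>
    rw [SimpleGraph.mem_edgeSet, SimpleGraph.mem_edgeSet]
    constructor
    · rintro ⟨h1, h2, h3⟩
      refine ⟨h1, fun v hv => ?_⟩
      rcases Sym2.mem_iff.1 hv with rfl | rfl
      · exact h2
      · exact h3
    · rintro ⟨h1, h2⟩
      exact ⟨h1, h2 u (Sym2.mem_mk_left _ _), h2 w (Sym2.mem_mk_right _ _)⟩

/-- the main inequality for generalised line graphs -/
theorem gen_main {V : Type} [Fintype V] [DecidableEq V] (H : SimpleGraph V) (a : V → ℕ)
    [DecidableRel (genLine H a).Adj] [Fintype H.edgeSet]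
    (P : Matrix (H.edgeSet ⊕ (Σ v : V, Fin (a v) × Bool))
      (H.edgeSet ⊕ (Σ v : V, Fin (a v) × Bool)) ℝ) (hP : P.PosSemidef)
    (hQ : (P - (genLine H a).adjMatrix ℝ).PosSemidef) :
    ∃ s : Finset (H.edgeSet ⊕ (Σ v : V, Fin (a v) × Bool)),
      (genLine H a).IsIndepSet (s : Set (H.edgeSet ⊕ (Σ v : V, Fin (a v) × Bool))) ∧
      ∑ u, (1 - P u u) ≤ (s.card : ℝ) := by
  classical
  -- weights on the edges
  set x : Sym2 V → ℝ := fun e => if h : e ∈ H.edgeSet then 1 - P (.inl ⟨e, h⟩) (.inl ⟨e, h⟩)
    else 0 with hx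
  have hW : Wt H x := by
    have h1 := br V H (P.submatrix Sum.inl Sum.inl) (hP.submatrix _) (by
      have h2 : P.submatrix Sum.inl Sum.inl - H.lineGraph.adjMatrix ℝ =
          (P - (genLine H a).adjMatrix ℝ).submatrix Sum.inl Sum.inl := by
        ext e e'
        simp only [Matrix.sub_apply, Matrix.submatrix_apply, SimpleGraph.adjMatrix_apply]
        congr 1
        have h3 : (genLine H a).Adj (.inl e) (.inl e') ↔ H.lineGraph.Adj e e' := by
          rw [SimpleGraph.lineGraph_adj_iff_exists]
          rfl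
        by_cases h4 : H.lineGraph.Adj e e'
        · rw [if_pos h4, if_pos (h3.2 h4)]
        · rw [if_neg h4, if_neg (fun h => h4 (h3.1 h))]
      have h3 := hQ.submatrix (Sum.inl : H.edgeSet → _)
      rw [← h2] at h3
      convert h3)
    convert h1 using 2
    rename_i e
    simp only [hx, Matrix.submatrix_apply]
  obtain ⟨f, hf⟩ := exists_isMax (core H a)
  have hcore := ind V H x hW (core H a) (core_le H a) f hf
  obtain ⟨I, hI, hIc⟩ := t_IDP V (core H a) f hf.1
  -- assignment of the edges at petals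
  set τ : Sym2 V → Option V := fun e => if h : ∃ v ∈ e, a v ≠ 0 then some h.choose else none
    with hτ
  have hτs : ∀ e v, τ e = some v → v ∈ e ∧ a v ≠ 0 := by
    intro e v h
    simp only [hτ] at h
    split_ifs at h with h1
    · have := h1.choose_spec
      rw [Option.some.injEq] at h
      rw [← h]
      exact this
  have hτn : ∀ e, τ e = none ↔ ∀ v ∈ e, a v = 0 := by
    intro e
    simp only [hτ]
    split_ifs with h1
    · constructor
      · intro h; exact absurd h (by simp)
      · intro h
        obtain ⟨v, hv, hv'⟩ := h1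
        exact absurd (h v hv) hv'
    · push Not at h1
      simp only [true_iff]
      exact h1
  have hsplit : ∑ e ∈ ed H, x e = ∑ e ∈ ed (core H a), x e +
      ∑ v, ∑ e ∈ (ed H).filter (fun e => τ e = some v), x e := by
    rw [← Finset.sum_fiberwise (ed H) τ x, Fintype.sum_option]
    congr 1
    refine Finset.sum_congr ?_ fun _ _ => rfl
    ext e
    simp only [Finset.mem_filter, ed, Finset.mem_univ, true_and]
    rw [core_edge, hτn]
  have hE : ∑ e : H.edgeSet, (1 - P (.inl e) (.inl e)) = ∑ e ∈ ed H, x e := by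
    rw [Finset.sum_subtype (ed H) (p := fun e => e ∈ H.edgeSet) (fun e => by simp [ed])]
    refine Finset.sum_congr rfl fun e _ => ?_
    simp only [hx]
    rw [dif_pos e.2]
  -- petals
  set c : V → ℕ := fun v => if a v = 0 then 0 else 1 with hc
  have hpet : ∀ v, ∑ e ∈ (ed H).filter (fun e => τ e = some v), x e +
      ∑ q : Fin (a v) × Bool, (1 - P (.inr ⟨v, q⟩) (.inr ⟨v, q⟩)) ≤ 2 * (c v : ℝ) := by
    intro v
    by_cases hv : a v = 0
    · have h1 : (ed H).filter (fun e => τ e = some v) = ∅ := by
        rw [Finset.filter_eq_empty_iff]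
        intro e _ h
        exact (hτs e v h).2 hv
      have h2 : IsEmpty (Fin (a v)) := by rw [hv]; infer_instance
      rw [h1, Finset.sum_empty, Fintype.sum_empty]
      simp [hc, hv]
    · have h1 : (c v : ℝ) = 1 := by simp [hc, hv]
      rw [h1, Fintype.sum_prod_type_right]
      rw [Fintype.sum_bool]
      set K0 : Finset H.edgeSet := Finset.univ.filter (fun e => τ e = some v) with hK0
      have h2 : ∑ e ∈ (ed H).filter (fun e => τ e = some v), x e =
          ∑ e ∈ K0, (1 - P (.inl e) (.inl e)) := by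
        rw [hK0, Finset.sum_filter, Finset.sum_filter]
        rw [Finset.sum_subtype (ed H) (p := fun e => e ∈ H.edgeSet) (fun e => by simp [ed])]
        refine Finset.sum_congr rfl fun e _ => ?_
        simp only [hx]
        rw [dif_pos e.2]
      have hA := clique_le (genLine H a) hP hQ
        (K0.map ⟨Sum.inl, Sum.inl_injective⟩ ∪
          (Finset.univ : Finset (Fin (a v))).image (fun k => Sum.inr ⟨v, (k, true)⟩)) (by
          intro i hi j hj hij
          rw [Finset.mem_union, Finset.mem_map, Finset.mem_image] at hi hj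
          rcases hi with ⟨e, he, rfl⟩ | ⟨k, -, rfl⟩ <;> rcases hj with ⟨e', he', rfl⟩ | ⟨k', -, rfl⟩
          · rw [hK0, Finset.mem_filter] at he he'
            refine ⟨fun h => hij (by rw [h]), v, (hτs _ _ he.2).1, (hτs _ _ he'.2).1⟩
          · rw [hK0, Finset.mem_filter] at he
            exact (hτs _ _ he.2).1
          · rw [hK0, Finset.mem_filter] at he'
            exact (hτs _ _ he'.2).1
          · refine ⟨rfl, fun h => hij ?_⟩
            have : k = k' := Fin.ext h
            rw [this])
      have hB := clique_le (genLine H a) hP hQ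
        ((Finset.univ : Finset (Fin (a v))).image (fun k => Sum.inr ⟨v, (k, false)⟩)) (by
          intro i hi j hj hij
          rw [Finset.mem_image] at hi hj
          obtain ⟨k, -, rfl⟩ := hi
          obtain ⟨k', -, rfl⟩ := hj
          refine ⟨rfl, fun h => hij ?_⟩
          have : k = k' := Fin.ext h
          rw [this])
      have hinj : ∀ β : Bool, Function.Injective (fun k : Fin (a v) =>
          (Sum.inr ⟨v, (k, β)⟩ : H.edgeSet ⊕ (Σ v : V, Fin (a v) × Bool))) := by
        intro β k k' h
        simpa using h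
      rw [Finset.sum_image fun _ _ _ _ h => hinj false h] at hB
      rw [Finset.sum_union, Finset.sum_map, Finset.sum_image fun _ _ _ _ h => hinj true h] at hA
      · simp only [Function.Embedding.coeFn_mk] at hA
        rw [h2]
        linarith
      · rw [Finset.disjoint_left]
        intro u hu hu'
        rw [Finset.mem_map] at hu
        rw [Finset.mem_image] at hu'
        obtain ⟨e, -, rfl⟩ := hu
        obtain ⟨k, -, h⟩ := hu'
        exact absurd h (by simp)
  -- the independent set
  have hmono : ∀ e : (core H a).edgeSet, (e : Sym2 V) ∈ H.edgeSet := fun e =>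
    ((core_edge H a e).1 e.2).1
  set ι : (core H a).edgeSet ↪ H.edgeSet := ⟨fun e => ⟨e.1, hmono e⟩, fun e e' h => by
    have h' := congrArg (fun z : H.edgeSet => (z : Sym2 V)) h
    exact Subtype.ext h'⟩ with hι
  set B : Finset (Σ v : V, Fin (a v) × Bool) :=
    (Finset.univ : Finset V).sigma fun v =>
      (Finset.filter (fun k : Fin (a v) => (k : ℕ) = 0) Finset.univ) ×ˢ
        (Finset.univ : Finset Bool) with hB
  have hBc : B.card = ∑ v, c v * 2 := by
    rw [hB, Finset.card_sigma]
    refine Finset.sum_congr rfl fun v _ => ?_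
    rw [Finset.card_product, Finset.card_univ, Fintype.card_bool]
    congr 1
    simp only [hc]
    split_ifs with hv
    · rw [Finset.card_eq_zero, Finset.filter_eq_empty_iff]
      intro k
      have := k.2
      omega
    · rw [Finset.card_eq_one]
      refine ⟨⟨0, Nat.pos_of_ne_zero hv⟩, ?_⟩
      ext k
      simp only [Finset.mem_filter, Finset.mem_univ, true_and, Finset.mem_singleton]
      constructor
      · intro h; exact Fin.ext h
      · rintro rfl; rfl
  refine ⟨(I.map ι).disjSum B, ?_, ?_⟩
  · intro u hu w hw huw hadj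
    rw [Finset.mem_coe, Finset.mem_disjSum] at hu hw
    rcases hu with ⟨e, he, rfl⟩ | ⟨p, hp, rfl⟩ <;> rcases hw with ⟨e', he', rfl⟩ | ⟨q, hq, rfl⟩
    · rw [Finset.mem_map] at he he'
      obtain ⟨g, hg, rfl⟩ := he
      obtain ⟨g', hg', rfl⟩ := he'
      refine hI g hg g' hg' ?_
      rw [SimpleGraph.lineGraph_adj_iff_exists]
      obtain ⟨h1, h2⟩ := hadj
      exact ⟨fun h => h1 (by rw [h]), h2⟩
    · rw [Finset.mem_map] at he
      obtain ⟨g, hg, rfl⟩ := he
      have h1 := ((core_edge H a g).1 g.2).2 q.1 hadj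
      have h2 := q.2.1.2
      omega
    · rw [Finset.mem_map] at he'
      obtain ⟨g, hg, rfl⟩ := he'
      have h1 := ((core_edge H a g).1 g.2).2 p.1 hadj
      have h2 := p.2.1.2
      omega
    · rw [hB, Finset.mem_sigma, Finset.mem_product, Finset.mem_filter] at hp hq
      exact hadj.2 (by rw [hp.2.1.2, hq.2.1.2])
  · rw [Finset.card_disjSum, Finset.card_map, hBc, Fintype.sum_sum_type, hE, hsplit]
    rw [Fintype.sum_sigma]
    have h1 := Finset.sum_le_sum fun v (_ : v ∈ (Finset.univ : Finset V)) => hpet v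
    rw [Finset.sum_add_distrib] at h1
    have h2 : (2 : ℝ) * (I.card : ℝ) = ((cov f).card : ℝ) := by exact_mod_cast hIc
    push_cast
    have h3 : ∑ v, (c v : ℝ) * 2 = ∑ v, 2 * (c v : ℝ) :=
      Finset.sum_congr rfl fun v _ => mul_comm _ _
    rw [h3]
    linarith

end H175LG
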