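import Pool.Agent.H175R.LG.Gen

/-!
# Generalised line graphs: the final inequality
-/

set_option autoImplicit false

namespace H175LG

/-- the Aouchiche-Hansen inequality for generalised line graphs -/
theorem genLine_ineq
    (W : Type) [Fintype W] [DecidableEq W] (G : SimpleGraph W) [DecidableRel G.Adj]
    (V : Type) [Fintype V] (H : SimpleGraph V) (a : V → ℕ) (φ : G ≃g genLine H a) :
    ∃ s : Finset W, G.IsIndepSet (s : Set W) ∧
      (Fintype.card W : ℝ) - (s.card : ℝ) ≤
        (((G.adjMatrix ℝ).charpoly.roots).filter (fun x : ℝ => 0 < x)).sum := by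
  classical
  have hA : (G.adjMatrix ℝ).IsHermitian := by
    ext i j; simpa using (G.isSymm_adjMatrix (α := ℝ)).apply i j
  obtain ⟨P, Q, hP, hQ, hPQ, htr⟩ := Pool.Agent.H175R.Energy.split hA
  have hP' : (P.submatrix φ.symm φ.symm).PosSemidef := hP.submatrix _
  have hQ' : (P.submatrix φ.symm φ.symm - (genLine H a).adjMatrix ℝ).PosSemidef := by
    have h1 : P.submatrix φ.symm φ.symm - (genLine H a).adjMatrix ℝ =
        Q.submatrix φ.symm φ.symm := by
      ext e e'
      have h2 := congrFun (congrFun hPQ (φ.symm e)) (φ.symm e')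
      rw [Matrix.sub_apply, SimpleGraph.adjMatrix_apply] at h2
      have h3 : G.Adj (φ.symm e) (φ.symm e') ↔ (genLine H a).Adj e e' := φ.symm.map_adj_iff
      simp only [Matrix.sub_apply, Matrix.submatrix_apply, SimpleGraph.adjMatrix_apply]
      by_cases h4 : (genLine H a).Adj e e'
      · rw [if_pos (h3.2 h4)] at h2
        rw [if_pos h4]
        linarith
      · rw [if_neg (fun h => h4 (h3.1 h))] at h2
        rw [if_neg h4]
        linarith
    rw [h1]
    exact hQ.submatrix _
  obtain ⟨s, hs, h⟩ := gen_main H a _ hP' hQ'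
  refine ⟨s.map φ.symm.toEquiv.toEmbedding, ?_, ?_⟩
  · intro x hx y hy hxy hadj
    simp only [Finset.coe_map, Set.mem_image] at hx hy
    obtain ⟨e, he, rfl⟩ := hx
    obtain ⟨e', he', rfl⟩ := hy
    exact hs he he' (fun h => hxy (by rw [h])) (φ.symm.map_adj_iff.1 hadj)
  · rw [Finset.card_map]
    have h2 : ∑ u, (1 - (P.submatrix φ.symm φ.symm) u u) = (Fintype.card W : ℝ) - P.trace := by
      refine (Equiv.sum_comp φ.symm.toEquiv (fun w => 1 - P w w)).trans ?_
      simp [Matrix.trace]
    rw [h2] at h
    have h5 : P.trace = (((G.adjMatrix ℝ).charpoly.roots).filter (fun x : ℝ => 0 < x)).sum := htr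
    rw [← h5]
    linarith

/-- Without petals the generalised line graph is the line graph. -/
def genLineZero {V : Type} (H : SimpleGraph V) : H.lineGraph ≃g genLine H (fun _ => 0) where
  toFun e := .inl e
  invFun u := match u with
    | .inl e => e
    | .inr p => (IsEmpty.false p.2.1).elim
  left_inv _ := rfl
  right_inv u := by
    rcases u with e | p
    · rfl
    · exact (IsEmpty.false p.2.1).elim
  map_rel_iff' {e e'} := by
    rw [SimpleGraph.lineGraph_adj_iff_exists]
    rfl

end H175LG
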