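import Pool.Agent.H175R.LG.Defs

/-! Task BL: a good block closed under a near-perfect matching is enough. -/

set_option autoImplicit false

namespace H175LG

theorem t_BL (h : S_MS) : S_BL := by
  intro V _ _ F P hP S b v f hf hvb hbS hcov hb hg
  have hT : ∀ w ∈ S \ b, w ∈ cov f := by
    intro w hw
    rw [Finset.mem_sdiff] at hw
    rw [hcov, Finset.mem_erase]
    exact ⟨fun hwv => hw.2 (hwv ▸ hvb), hw.1⟩
  have h1 := h V F P hP f hf (S \ b) hT (by
    intro w hw
    have h2 : f w ≠ w := (Finset.mem_filter.1 (hT w hw)).2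
    have h3 : f w ∈ cov f := by
      refine Finset.mem_filter.2 ⟨Finset.mem_univ _, ?_⟩
      rw [hf.1 w]
      exact h2.symm
    rw [hcov, Finset.mem_erase] at h3
    rw [Finset.mem_sdiff] at hw ⊢
    refine ⟨h3.2, fun h4 => hw.2 ?_⟩
    have h5 := hb _ h4
    rwa [hf.1 w] at h5)
  unfold Good at hg ⊢
  rw [← Finset.sum_sdiff hbS, ← Finset.sum_sdiff hbS (f := fun v => P v v)]
  linarith

end H175LG
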