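import Pool.Agent.H175R.LG.Defs

/-! Task BR (helper338): edge weights from a matrix on the edges. -/

set_option autoImplicit false
open scoped BigOperators Matrix

namespace H175LG

lemma BR_quad {m n : Type} [Fintype n] {M : Matrix m m ℝ} (h : M.PosSemidef) (g : n → m)
    (t : n → ℝ) : 0 ≤ ∑ i, ∑ j, t i * t j * M (g i) (g j) := by
  have h1 := (h.submatrix g).dotProduct_mulVec_nonneg t
  simp only [dotProduct, Matrix.mulVec, Matrix.submatrix_apply, star_trivial, Pi.star_apply] at h1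
  refine h1.trans (le_of_eq ?_)
  refine Finset.sum_congr rfl fun i _ => ?_
  rw [Finset.mul_sum]
  exact Finset.sum_congr rfl fun j _ => by ring

lemma BR_two {m : Type} {M : Matrix m m ℝ} (h : M.PosSemidef) (i j : m) :
    M i j + M j i ≤ M i i + M j j := by
  have h1 := BR_quad h ![i, j] ![1, -1]
  simp only [Fin.sum_univ_two, Matrix.cons_val_zero, Matrix.cons_val_one] at h1
  linarith

/-- an all-ones form over a finite family -/
lemma BR_sum_le {m n : Type} [Fintype n] {M : Matrix m m ℝ} (h : M.PosSemidef) (g : n → m) :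
    ∑ i, ∑ j, M (g i) (g j) ≤ (Fintype.card n : ℝ) * ∑ i, M (g i) (g i) := by
  have h1 : 2 * ∑ i, ∑ j, M (g i) (g j) = ∑ i, ∑ j, (M (g i) (g j) + M (g j) (g i)) := by
    have h2 : ∑ i, ∑ j, M (g j) (g i) = ∑ i, ∑ j, M (g i) (g j) := Finset.sum_comm
    have h3 : ∑ i, ∑ j, (M (g i) (g j) + M (g j) (g i)) =
        ∑ i, ∑ j, M (g i) (g j) + ∑ i, ∑ j, M (g j) (g i) := by
      rw [← Finset.sum_add_distrib]
      exact Finset.sum_congr rfl fun i _ => Finset.sum_add_distrib
    rw [h3, h2]; ring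
  have h4 : ∑ i, ∑ j, (M (g i) (g j) + M (g j) (g i)) ≤
      ∑ i, ∑ j, (M (g i) (g i) + M (g j) (g j)) :=
    Finset.sum_le_sum fun i _ => Finset.sum_le_sum fun j _ => BR_two h _ _
  have h5 : ∑ i, ∑ j, (M (g i) (g i) + M (g j) (g j)) =
      2 * ((Fintype.card n : ℝ) * ∑ i, M (g i) (g i)) := by
    have h6 : ∀ i : n, ∑ j, (M (g i) (g i) + M (g j) (g j)) =
        (Fintype.card n : ℝ) * M (g i) (g i) + ∑ j, M (g j) (g j) := by
      intro i
      rw [Finset.sum_add_distrib, Finset.sum_const, Finset.card_univ, nsmul_eq_mul]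
    rw [Finset.sum_congr rfl (fun i _ => h6 i), Finset.sum_add_distrib, Finset.sum_const,
      Finset.card_univ, nsmul_eq_mul, ← Finset.mul_sum]
    ring
  linarith

lemma BR_common {V : Type} {e e' : Sym2 V} (hne : e ≠ e') {u v : V} (h1 : u ∈ e)
    (h2 : u ∈ e') (h3 : v ∈ e) (h4 : v ∈ e') : u = v := by
  by_contra h
  exact hne (((Sym2.mem_and_mem_iff h).1 ⟨h1, h3⟩).trans ((Sym2.mem_and_mem_iff h).1 ⟨h2, h4⟩).symm)

open Classical in
lemma BR_star {V : Type} [Fintype V] [DecidableEq V] (H : SimpleGraph V)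
    (P : Matrix H.edgeSet H.edgeSet ℝ) (hP : P.PosSemidef)
    (hPA : (P - H.lineGraph.adjMatrix ℝ).PosSemidef) (v : V) (K : Finset (Sym2 V))
    (hK : K ⊆ ed H) (hv : ∀ e ∈ K, v ∈ e) :
    ∑ e ∈ K, (if h : e ∈ H.edgeSet then 1 - P ⟨e, h⟩ ⟨e, h⟩ else 0) ≤ 1 := by
  have hKe : ∀ e ∈ K, e ∈ H.edgeSet := by
    intro e he
    have := hK he
    unfold ed at this
    rw [Finset.mem_filter] at this
    exact this.2
  let g : {e // e ∈ K} → H.edgeSet := fun e => ⟨e.1, hKe e.1 e.2⟩
  have h1 : ∑ e ∈ K, (if h : e ∈ H.edgeSet then 1 - P ⟨e, h⟩ ⟨e, h⟩ else 0) =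
      ∑ e : {e // e ∈ K}, (1 - P (g e) (g e)) := by
    rw [← Finset.sum_coe_sort K]
    refine Finset.sum_congr rfl fun e _ => ?_
    rw [dif_pos (hKe e.1 e.2)]
  have hcard : Fintype.card {e // e ∈ K} = K.card := Fintype.card_coe K
  rw [h1, Finset.sum_sub_distrib, Finset.sum_const, Finset.card_univ, hcard, nsmul_eq_mul, mul_one]
  rcases Nat.eq_zero_or_pos K.card with hk | hk
  · have : IsEmpty {e // e ∈ K} := by
      rw [Finset.card_eq_zero] at hk
      have h3 : ∀ x ∈ K, False := by rw [hk]; simp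
      exact ⟨fun e => h3 e.1 e.2⟩
    rw [hk]
    simp
  · have h2 := BR_sum_le hP g
    have h3 := BR_quad hPA g (fun _ => 1)
    simp only [one_mul, Matrix.sub_apply] at h3
    have h4 : ∑ i, ∑ j, H.lineGraph.adjMatrix ℝ (g i) (g j) = (K.card : ℝ) * K.card - K.card := by
      have h5 : ∀ i : {e // e ∈ K}, ∑ j, H.lineGraph.adjMatrix ℝ (g i) (g j) =
          (K.card : ℝ) - 1 := by
        intro i
        have h6 : ∀ j, H.lineGraph.adjMatrix ℝ (g i) (g j) = 1 - (if i = j then 1 else 0) := by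
          intro j
          rw [SimpleGraph.adjMatrix_apply]
          by_cases hij : i = j
          · subst hij
            simp
          · have hadj : H.lineGraph.Adj (g i) (g j) := by
              rw [SimpleGraph.lineGraph_adj_iff_exists]
              refine ⟨?_, v, hv i.1 i.2, hv j.1 j.2⟩
              intro h
              exact hij (Subtype.ext (congrArg (fun e : H.edgeSet => e.1) h))
            rw [if_pos hadj, if_neg hij, sub_zero]
        rw [Finset.sum_congr rfl (fun j _ => h6 j), Finset.sum_sub_distrib, Finset.sum_const,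
          Finset.card_univ, hcard, nsmul_eq_mul, mul_one, Finset.sum_ite_eq,
          if_pos (Finset.mem_univ _)]
      rw [Finset.sum_congr rfl (fun i _ => h5 i), Finset.sum_const, Finset.card_univ, hcard,
        nsmul_eq_mul]
      ring
    have h7 : ∑ i, ∑ j, (P (g i) (g j) - H.lineGraph.adjMatrix ℝ (g i) (g j)) =
        ∑ i, ∑ j, P (g i) (g j) - ∑ i, ∑ j, H.lineGraph.adjMatrix ℝ (g i) (g j) := by
      rw [← Finset.sum_sub_distrib]
      exact Finset.sum_congr rfl fun i _ => Finset.sum_sub_distrib _ _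
    rw [h7, h4] at h3
    rw [hcard] at h2
    have hkR : (0 : ℝ) < K.card := by exact_mod_cast hk
    have h8 : (K.card : ℝ) * (K.card - 1) ≤ K.card * ∑ i, P (g i) (g i) := by
      have : (K.card : ℝ) * (K.card - 1) = (K.card : ℝ) * K.card - K.card := by ring
      rw [this]
      linarith
    have h9 := le_of_mul_le_mul_left h8 hkR
    linarith

open Classical in
/-- incidence matrix -/
noncomputable def BR_N {V : Type} (F : SimpleGraph V) : Matrix V F.edgeSet ℝ :=
  Matrix.of fun v e => if v ∈ e.1 then 1 else 0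

open Classical in
lemma BR_col {V : Type} [Fintype V] [DecidableEq V] (F : SimpleGraph V) (e : F.edgeSet) :
    ∑ v, BR_N F v e * BR_N F v e = 2 := by
  obtain ⟨e, he⟩ := e
  induction e using Sym2.ind with
  | _ a b =>
    have hab : a ≠ b := by
      rw [SimpleGraph.mem_edgeSet] at he
      exact he.ne
    have h1 : ∀ v, BR_N F v ⟨s(a, b), he⟩ * BR_N F v ⟨s(a, b), he⟩ =
        if v ∈ ({a, b} : Finset V) then 1 else 0 := by
      intro v
      simp only [BR_N, Matrix.of_apply, Sym2.mem_iff, Finset.mem_insert, Finset.mem_singleton]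
      split_ifs <;> simp
    rw [Finset.sum_congr rfl (fun v _ => h1 v), Finset.sum_ite_mem, Finset.univ_inter,
      Finset.sum_const, Finset.card_pair hab]
    norm_num

open Classical in
lemma BR_col2 {V : Type} [Fintype V] [DecidableEq V] (F : SimpleGraph V) (e e' : F.edgeSet)
    (hne : e ≠ e') : ∑ v, BR_N F v e * BR_N F v e' =
      if ∃ v, v ∈ e.1 ∧ v ∈ e'.1 then 1 else 0 := by
  have hne' : e.1 ≠ e'.1 := fun h => hne (Subtype.ext h)
  have h1 : ∀ v, BR_N F v e * BR_N F v e' = if v ∈ e.1 ∧ v ∈ e'.1 then 1 else 0 := by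
    intro v
    simp only [BR_N, Matrix.of_apply]
    by_cases h1 : v ∈ e.1 <;> by_cases h2 : v ∈ e'.1 <;> simp [h1, h2]
  rw [Finset.sum_congr rfl (fun v _ => h1 v)]
  split_ifs with h
  · obtain ⟨w, hw1, hw2⟩ := h
    rw [Finset.sum_eq_single w]
    · rw [if_pos ⟨hw1, hw2⟩]
    · intro v _ hv
      rw [if_neg]
      rintro ⟨h3, h4⟩
      exact hv (BR_common hne' h3 h4 hw1 hw2)
    · intro h; exact absurd (Finset.mem_univ _) h
  · refine Finset.sum_eq_zero fun v _ => ?_
    rw [if_neg]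
    intro h2
    exact h ⟨v, h2⟩

open Classical in
lemma BR_row {V : Type} [Fintype V] [DecidableEq V] (F : SimpleGraph V) (v : V) :
    ∑ e : F.edgeSet, BR_N F v e * BR_N F v e = (dg F v : ℝ) := by
  have h1 : ∀ e : F.edgeSet, BR_N F v e * BR_N F v e = if v ∈ e.1 then 1 else 0 := by
    intro e
    simp only [BR_N, Matrix.of_apply]
    split_ifs <;> simp
  rw [Finset.sum_congr rfl (fun e _ => h1 e), Finset.sum_boole]
  congr 1
  unfold dg
  symm
  refine Finset.card_bij (fun w hw => ⟨s(v, w), by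
    rw [SimpleGraph.mem_edgeSet]; exact (Finset.mem_filter.1 hw).2⟩) ?_ ?_ ?_
  · intro w hw
    rw [Finset.mem_filter]
    exact ⟨Finset.mem_univ _, Sym2.mem_mk_left _ _⟩
  · intro w hw w' hw' h
    have h2 : s(v, w) = s(v, w') := congrArg Subtype.val h
    exact Sym2.congr_right.1 h2
  · rintro ⟨e, he⟩ hv
    rw [Finset.mem_filter] at hv
    obtain ⟨w, hw⟩ := Sym2.mem_iff_exists.1 hv.2
    simp only at hw
    subst hw
    exact ⟨w, Finset.mem_filter.2 ⟨Finset.mem_univ _, by rwa [SimpleGraph.mem_edgeSet] at he⟩, rfl⟩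

open Classical in
lemma BR_row2 {V : Type} [Fintype V] [DecidableEq V] (F : SimpleGraph V) (u v : V) (huv : u ≠ v) :
    ∑ e : F.edgeSet, BR_N F u e * BR_N F v e = if F.Adj u v then 1 else 0 := by
  have h1 : ∀ e : F.edgeSet, BR_N F u e * BR_N F v e = if e.1 = s(u, v) then 1 else 0 := by
    intro e
    simp only [BR_N, Matrix.of_apply]
    by_cases h : e.1 = s(u, v)
    · obtain ⟨h1, h2⟩ := (Sym2.mem_and_mem_iff huv).2 h
      rw [if_pos h1, if_pos h2, if_pos h, mul_one]
    · have h3 : ¬ (u ∈ e.1 ∧ v ∈ e.1) := fun h4 => h ((Sym2.mem_and_mem_iff huv).1 h4)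
      rw [if_neg h]
      by_cases h1 : u ∈ e.1
      · have h2 : ¬ v ∈ e.1 := fun h2 => h3 ⟨h1, h2⟩
        rw [if_neg h2, mul_zero]
      · rw [if_neg h1, zero_mul]
  rw [Finset.sum_congr rfl (fun e _ => h1 e)]
  split_ifs with h
  · rw [Finset.sum_eq_single (⟨s(u, v), by rwa [SimpleGraph.mem_edgeSet]⟩ : F.edgeSet)]
    · rw [if_pos rfl]
    · intro e _ he
      rw [if_neg]
      intro h2
      exact he (Subtype.ext h2)
    · intro h; exact absurd (Finset.mem_univ _) h
  · refine Finset.sum_eq_zero fun e _ => ?_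
    rw [if_neg]
    intro h2
    apply h
    have := e.2
    rwa [h2, SimpleGraph.mem_edgeSet] at this

open Classical in
theorem t_BR (h1 : S_LIN) (h2 : S_FCB) : S_BR := by
  intro V _ _ H P hP hPA
  refine ⟨fun v K hK hv => BR_star H P hP hPA v K hK hv, ?_⟩
  intro F S hFH hFC hS
  have hsub : ∀ e, e ∈ F.edgeSet → e ∈ H.edgeSet := fun e he =>
    (SimpleGraph.edgeSet_subset_edgeSet.2 hFH) he
  let ι : F.edgeSet → H.edgeSet := fun e => ⟨e.1, hsub e.1 e.2⟩
  have hx : ∑ e ∈ ed F, (if h : e ∈ H.edgeSet then 1 - P ⟨e, h⟩ ⟨e, h⟩ else 0) =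
      ∑ e : F.edgeSet, (1 - P (ι e) (ι e)) := by
    rw [Finset.sum_subtype (p := fun e => e ∈ F.edgeSet) (ed F) (by intro e; simp [ed])]
    refine Finset.sum_congr rfl fun e _ => ?_
    rw [dif_pos (hsub e.1 e.2)]
  rw [hx]
  -- the matrices
  have hNN : (BR_N F)ᵀ * BR_N F - (2 : ℝ) • (1 : Matrix F.edgeSet F.edgeSet ℝ) =
      (H.lineGraph.adjMatrix ℝ).submatrix ι ι := by
    ext e e'
    rw [Matrix.sub_apply, Matrix.mul_apply, Matrix.smul_apply, Matrix.submatrix_apply,
      SimpleGraph.adjMatrix_apply]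
    simp only [Matrix.transpose_apply]
    by_cases hee : e = e'
    · subst hee
      rw [BR_col, Matrix.one_apply_eq]
      simp
    · rw [BR_col2 F e e' hee, Matrix.one_apply_ne hee, smul_zero, sub_zero]
      have hιne : ι e ≠ ι e' := by
        intro h
        exact hee (Subtype.ext (congrArg (fun e : H.edgeSet => e.1) h))
      by_cases hex : ∃ v, v ∈ e.1 ∧ v ∈ e'.1
      · rw [if_pos hex, if_pos]
        rw [SimpleGraph.lineGraph_adj_iff_exists]
        exact ⟨hιne, hex⟩
      · rw [if_neg hex, if_neg]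
        rw [SimpleGraph.lineGraph_adj_iff_exists]
        rintro ⟨-, h⟩
        exact hex h
  have hMM : BR_N F * (BR_N F)ᵀ - (2 : ℝ) • (1 : Matrix V V ℝ) = BQ F := by
    ext u v
    rw [Matrix.sub_apply, Matrix.mul_apply, Matrix.smul_apply]
    simp only [Matrix.transpose_apply]
    by_cases huv : u = v
    · subst huv
      rw [BR_row, Matrix.one_apply_eq, bq_diag]
      simp
    · rw [BR_row2 F u v huv, Matrix.one_apply_ne huv, smul_zero, sub_zero]
      split_ifs with h
      · rw [bq_adj h]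
      · rw [bq_not huv h]
  obtain ⟨P', hP', hP'2, htr⟩ := h1 V F.edgeSet (BR_N F) (P.submatrix ι ι) (hP.submatrix ι) (by
    rw [hNN]
    have h3 : P.submatrix ι ι - (H.lineGraph.adjMatrix ℝ).submatrix ι ι =
        (P - H.lineGraph.adjMatrix ℝ).submatrix ι ι := rfl
    rw [h3]
    exact hPA.submatrix ι)
  rw [hMM] at hP'2
  have hgood := h2 V F P' ⟨hP', hP'2⟩ S hFC hS
  unfold Good at hgood
  -- the degree sum
  have hdeg : ∑ v, (dg F v : ℝ) = 2 * Fintype.card F.edgeSet := by
    rw [Finset.sum_congr rfl (fun v _ => (BR_row F v).symm), Finset.sum_comm,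
      Finset.sum_congr rfl (fun e _ => BR_col F e), Finset.sum_const, Finset.card_univ,
      nsmul_eq_mul]
    ring
  have hdegS : ∑ v ∈ S, (dg F v : ℝ) = 2 * Fintype.card F.edgeSet := by
    rw [← hdeg]
    refine Finset.sum_subset (Finset.subset_univ S) fun v _ hv => ?_
    have : dg F v = 0 := by
      unfold dg
      rw [Finset.card_eq_zero, Finset.filter_eq_empty_iff]
      intro w _ hw
      exact hv (hFC.1 v w hw)
    rw [this]
    simp
  have hsum : ∑ v ∈ S, ((dg F v : ℝ) - 1) / 2 = Fintype.card F.edgeSet - (S.card : ℝ) / 2 := by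
    rw [← Finset.sum_div, Finset.sum_sub_distrib, hdegS, Finset.sum_const, nsmul_eq_mul]
    ring
  have hP'd : ∀ v, 0 ≤ P' v v := by
    intro v
    have := BR_quad hP' ![v] ![1]
    simpa using this
  have htr' : ∑ v ∈ S, P' v v ≤ P'.trace := by
    unfold Matrix.trace
    simp only [Matrix.diag_apply]
    exact Finset.sum_le_sum_of_subset_of_nonneg (Finset.subset_univ S) fun v _ _ => hP'd v
  have htrP : (P.submatrix ι ι).trace = ∑ e : F.edgeSet, P (ι e) (ι e) := rfl
  rw [Finset.sum_sub_distrib, Finset.sum_const, Finset.card_univ, nsmul_eq_mul, mul_one]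
  rw [htrP] at htr
  linarith

end H175LG
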