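import Pool.Agent.H175R.LG.Defs

set_option autoImplicit false

namespace H175LG

theorem t_CMP (h : S_GAL) : S_CMP := by
  classical
  intro V _ _ F hF _ S v₀ _ hS v hv
  obtain ⟨f, hfm, hfv⟩ := hF v
  have hS1 : ∀ w ∈ S, f w ∈ S := by
    intro w hw
    by_cases hfw : f w = w
    · rw [hfw]; exact hw
    · have h1 := hfm.1.2 w hfw
      exact (hS _).2 (((hS w).1 hw).trans h1.reachable)
  refine ⟨fun w => if w ∈ S then f w else w, ⟨fun w => ?_, fun w hw => ?_⟩, ?_⟩
  · by_cases hw : w ∈ S
    · simp only [hw, if_true, hS1 w hw]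
      exact hfm.1.1 w
    · simp only [hw, if_false]
  · by_cases hwS : w ∈ S
    · simp only [hwS, if_true] at hw ⊢
      exact hfm.1.2 w hw
    · simp only [hwS, if_false] at hw
      exact absurd rfl hw
  · ext w
    simp only [cov, Finset.mem_filter, Finset.mem_univ, true_and, Finset.mem_erase]
    by_cases hwS : w ∈ S
    · simp only [hwS, if_true, and_true]
      constructor
      · rintro h1 rfl
        exact h1 hfv
      · intro h1 h2
        have hr : F.Reachable v w := ((hS v).1 hv).symm.trans ((hS w).1 hwS)
        exact h1 (h V F hF v w hr f hfm hfv h2).symm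
    · simp [hwS]

end H175LG
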