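import Pool.Agent.H175R.LG.Defs

set_option autoImplicit false

namespace H175LG

theorem DEG_mem {V : Type} [Fintype V] [DecidableEq V] {f : V → V} {v : V} :
    v ∈ cov f ↔ f v ≠ v := by
  unfold cov
  rw [Finset.mem_filter]
  exact ⟨fun h => h.2, fun h => ⟨Finset.mem_univ _, h⟩⟩

theorem t_DEG : S_DEG := by
  classical
  intro V _ _ F S hS h3 v hv
  obtain ⟨w, hw, hwv⟩ := Finset.exists_mem_ne (by omega : 1 < S.card) v
  obtain ⟨f, hf, hcf⟩ := hS.2 w hw
  have h1 : f v ≠ v := by
    rw [← DEG_mem, hcf]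
    exact Finset.mem_erase.2 ⟨hwv.symm, hv⟩
  have h2 : f v ∈ S := by
    have : f v ∈ cov f := by
      rw [DEG_mem, hf.1 v]
      exact h1.symm
    rw [hcf] at this
    exact Finset.mem_of_mem_erase this
  obtain ⟨g, hg, hcg⟩ := hS.2 (f v) h2
  have h4 : g v ≠ v := by
    rw [← DEG_mem, hcg]
    exact Finset.mem_erase.2 ⟨h1.symm, hv⟩
  have h5 : g v ≠ f v := by
    intro he
    have : f v ∈ cov g := by
      rw [DEG_mem, ← he, hg.1 v]
      exact h4.symm
    rw [hcg] at this
    exact Finset.notMem_erase _ _ this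
  have h6 : ({f v, g v} : Finset V) ⊆ Finset.univ.filter fun u => F.Adj v u := by
    intro u hu
    rw [Finset.mem_insert, Finset.mem_singleton] at hu
    rw [Finset.mem_filter]
    refine ⟨Finset.mem_univ _, ?_⟩
    rcases hu with rfl | rfl
    · exact hf.2 v h1
    · exact hg.2 v h4
  have h7 := Finset.card_le_card h6
  rw [Finset.card_pair h5.symm] at h7
  unfold dg
  convert h7

end H175LG
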