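import Pool.Agent.H175R.LG.Defs

set_option autoImplicit false

namespace H175LG

lemma F3_fix {V : Type} [Fintype V] [DecidableEq V] {S : Finset V}
    {f : V → V} {x : V} (hcov : cov f = S.erase x) : f x = x := by
  by_contra h
  have h1 : x ∈ cov f := by simp [cov, h]
  rw [hcov] at h1
  simp at h1

lemma F3_adj {V : Type} [Fintype V] [DecidableEq V] {F : SimpleGraph V} {S : Finset V}
    {f : V → V} {x : V} (hf : IsM F f) (hcov : cov f = S.erase x) {v : V} (hv : v ∈ S)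
    (hvx : v ≠ x) : F.Adj v (f v) := by
  have h1 : v ∈ cov f := by
    rw [hcov]
    exact Finset.mem_erase.2 ⟨hvx, hv⟩
  have h2 : f v ≠ v := by simpa [cov] using h1
  exact hf.2 v h2

/-- `f` pairs none of the neighbours with each other -/
lemma F3_b7 {V : Type} [Fintype V] [DecidableEq V] {F : SimpleGraph V} {P : Matrix V V ℝ}
    (hP : Dom F P) (h0 : S_BL) (h1 : S_K7) {S : Finset V} (hS : ∀ u v, F.Adj u v → u ∈ S)
    (hd : ∀ v ∈ S, dg F v = 2 ∨ dg F v = 3) {f : V → V} {x a b c : V} (hf : IsM F f)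
    (hcov : cov f = S.erase x) (hx : dg F x = 3) (hxa : F.Adj x a) (hxb : F.Adj x b)
    (hxc : F.Adj x c) (hab : a ≠ b) (hac : a ≠ c) (hbc : b ≠ c) (h_ab : f a ≠ b)
    (h_ac : f a ≠ c) (h_bc : f b ≠ c) : Good F P S := by
  have hfx := F3_fix hcov
  have inv := hf.1
  have inj : ∀ u v, f u = f v → u = v := fun u v h => by rw [← inv u, h, inv v]
  have Sx : x ∈ S := hS _ _ hxa
  have Sa : a ∈ S := hS _ _ hxa.symm
  have Sb : b ∈ S := hS _ _ hxb.symm
  have Sc : c ∈ S := hS _ _ hxc.symm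
  have Aa := F3_adj hf hcov Sa hxa.ne'
  have Ab := F3_adj hf hcov Sb hxb.ne'
  have Ac := F3_adj hf hcov Sc hxc.ne'
  have n1 : x ≠ f a := fun h => hxa.ne (by rw [← inv a, ← h, hfx])
  have n2 : x ≠ f b := fun h => hxb.ne (by rw [← inv b, ← h, hfx])
  have n3 : x ≠ f c := fun h => hxc.ne (by rw [← inv c, ← h, hfx])
  have n4 : a ≠ f b := fun h => h_ab (by rw [h, inv])
  have n5 : a ≠ f c := fun h => h_ac (by rw [h, inv])
  have n6 : b ≠ f c := fun h => h_bc (by rw [h, inv])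
  have n7 : f a ≠ f b := fun h => hab (inj _ _ h)
  have n8 : f a ≠ f c := fun h => hac (inj _ _ h)
  have n9 : f b ≠ f c := fun h => hbc (inj _ _ h)
  have nd : [x, a, b, c, f a, f b, f c].Nodup := by
    simp only [List.nodup_cons, List.mem_cons, List.not_mem_nil, or_false, not_or,
      not_false_eq_true, List.nodup_nil, and_true]
    exact ⟨⟨hxa.ne, hxb.ne, hxc.ne, n1, n2, n3⟩, ⟨hab, hac, Aa.ne, n4, n5⟩,
      ⟨hbc, h_ab.symm, Ab.ne, n6⟩, ⟨h_ac.symm, h_bc.symm, Ac.ne⟩, ⟨n7, n8⟩, n9⟩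
  have sub : ({x, a, b, c, f a, f b, f c} : Finset V) ⊆ S := by
    intro v hv
    simp only [Finset.mem_insert, Finset.mem_singleton] at hv
    rcases hv with rfl | rfl | rfl | rfl | rfl | rfl | rfl
    · exact Sx
    · exact Sa
    · exact Sb
    · exact Sc
    · exact hS _ _ Aa.symm
    · exact hS _ _ Ab.symm
    · exact hS _ _ Ac.symm
  have clo : ∀ w ∈ ({x, a, b, c, f a, f b, f c} : Finset V),
      f w ∈ ({x, a, b, c, f a, f b, f c} : Finset V) := by
    intro w hw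
    simp only [Finset.mem_insert, Finset.mem_singleton] at hw
    rcases hw with h | h | h | h | h | h | h <;> rw [h]
    · rw [hfx]; simp
    · simp
    · simp
    · simp
    · rw [inv]; simp
    · rw [inv]; simp
    · rw [inv]; simp
  refine h0 V F P hP S _ x f hf ?_ sub hcov clo
    (h1 V F P hP x a b c (f a) (f b) (f c) nd ?_ hx hxa hxb hxc Aa Ab Ac)
  · simp
  · intro v hv
    refine hd v (sub ?_)
    simpa using hv

/-- blocks with five vertices -/
lemma F3_b5 {V : Type} [Fintype V] [DecidableEq V] {F : SimpleGraph V} {P : Matrix V V ℝ}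
    (hP : Dom F P) (h0 : S_BL) {S : Finset V} (hS : ∀ u v, F.Adj u v → u ∈ S)
    (hd : ∀ v ∈ S, dg F v = 2 ∨ dg F v = 3) {f : V → V} {x a b c : V} (hf : IsM F f)
    (hcov : cov f = S.erase x) (hxa : F.Adj x a) (hxb : F.Adj x b)
    (hxc : F.Adj x c) (hab : a ≠ b) (hac : a ≠ c) (hbc : b ≠ c) (h_ab : f a = b) :
    [x, a, b, c, f c].Nodup ∧ [x, b, a, c, f c].Nodup ∧ F.Adj a b ∧ F.Adj c (f c) ∧
      (∀ v ∈ [x, a, b, c, f c], dg F v = 2 ∨ dg F v = 3) ∧
      (∀ v ∈ [x, b, a, c, f c], dg F v = 2 ∨ dg F v = 3) ∧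
      (Good F P {x, a, b, c, f c} → Good F P S) ∧
      (Good F P {x, b, a, c, f c} → Good F P S) := by
  have hfx := F3_fix hcov
  have inv := hf.1
  have inj : ∀ u v, f u = f v → u = v := fun u v h => by rw [← inv u, h, inv v]
  have Sx : x ∈ S := hS _ _ hxa
  have Sa : a ∈ S := hS _ _ hxa.symm
  have Sb : b ∈ S := hS _ _ hxb.symm
  have Sc : c ∈ S := hS _ _ hxc.symm
  have Aa := F3_adj hf hcov Sa hxa.ne'
  have Ac := F3_adj hf hcov Sc hxc.ne'
  have hba : f b = a := by rw [← h_ab, inv]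
  have n3 : x ≠ f c := fun h => hxc.ne (by rw [← inv c, ← h, hfx])
  have n5 : a ≠ f c := fun h => hbc (by rw [← h_ab, h, inv])
  have n6 : b ≠ f c := fun h => hac (by rw [← hba, h, inv])
  rw [h_ab] at Aa
  have nd : [x, a, b, c, f c].Nodup := by
    simp only [List.nodup_cons, List.mem_cons, List.not_mem_nil, or_false, not_or,
      not_false_eq_true, List.nodup_nil, and_true]
    exact ⟨⟨hxa.ne, hxb.ne, hxc.ne, n3⟩, ⟨hab, hac, n5⟩, ⟨hbc, n6⟩, Ac.ne⟩
  have nd' : [x, b, a, c, f c].Nodup := by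
    simp only [List.nodup_cons, List.mem_cons, List.not_mem_nil, or_false, not_or,
      not_false_eq_true, List.nodup_nil, and_true]
    exact ⟨⟨hxb.ne, hxa.ne, hxc.ne, n3⟩, ⟨hab.symm, hbc, n6⟩, ⟨hac, n5⟩, Ac.ne⟩
  have sub : ({x, a, b, c, f c} : Finset V) ⊆ S := by
    intro v hv
    simp only [Finset.mem_insert, Finset.mem_singleton] at hv
    rcases hv with rfl | rfl | rfl | rfl | rfl
    · exact Sx
    · exact Sa
    · exact Sb
    · exact Sc
    · exact hS _ _ Ac.symm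
  have clo : ∀ w ∈ ({x, a, b, c, f c} : Finset V), f w ∈ ({x, a, b, c, f c} : Finset V) := by
    intro w hw
    simp only [Finset.mem_insert, Finset.mem_singleton] at hw
    rcases hw with h | h | h | h | h <;> rw [h]
    · rw [hfx]; simp
    · rw [h_ab]; simp
    · rw [hba]; simp
    · simp
    · rw [inv]; simp
  have e : ({x, b, a, c, f c} : Finset V) = {x, a, b, c, f c} := by
    ext v
    simp only [Finset.mem_insert, Finset.mem_singleton]
    tauto
  have g1 : Good F P {x, a, b, c, f c} → Good F P S := fun hg =>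
    h0 V F P hP S _ x f hf (by simp) sub hcov clo hg
  refine ⟨nd, nd', Aa, Ac, ?_, ?_, g1, ?_⟩
  · intro v hv
    exact hd v (sub (by simpa using hv))
  · intro v hv
    refine hd v (sub ?_)
    rw [← e]
    simpa using hv
  · rw [e]
    exact g1

/-- the block of `K5A` -/
lemma F3_a5 {V : Type} [Fintype V] [DecidableEq V] {F : SimpleGraph V} {P : Matrix V V ℝ}
    (hP : Dom F P) (h0 : S_BL) (h2 : S_K5A) {S : Finset V} (hS : ∀ u v, F.Adj u v → u ∈ S)
    (hd : ∀ v ∈ S, dg F v = 2 ∨ dg F v = 3) {f : V → V} {x a b c : V} (hf : IsM F f)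
    (hcov : cov f = S.erase x) (hx : dg F x = 3) (hxa : F.Adj x a) (hxb : F.Adj x b)
    (hxc : F.Adj x c) (hab : a ≠ b) (hac : a ≠ c) (hbc : b ≠ c) (h_ab : f a = b)
    (ha2 : dg F a = 2) : Good F P S := by
  obtain ⟨nd, -, Aab, Ac, hdl, -, g, -⟩ :=
    F3_b5 (P := P) hP h0 hS hd hf hcov hxa hxb hxc hab hac hbc h_ab
  exact g (h2 V F P hP x a b c (f c) nd hdl hx hxa hxb hxc Aab Ac ha2)

/-- third neighbour -/
lemma F3_third {V : Type} [Fintype V] [DecidableEq V] {F : SimpleGraph V} {c x y : V}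
    (h : dg F c = 3) : ∃ r, F.Adj c r ∧ r ≠ x ∧ r ≠ y := by
  classical
  by_contra hcon
  push Not at hcon
  have h1 : (Finset.univ.filter fun w => F.Adj c w) ⊆ ({x, y} : Finset V) := by
    intro w hw
    have hw' : F.Adj c w := by simpa using hw
    simp only [Finset.mem_insert, Finset.mem_singleton]
    by_cases hwx : w = x
    · exact Or.inl hwx
    · exact Or.inr (hcon w hw' hwx)
  have h2 := Finset.card_le_card h1
  have h3 : (Finset.univ.filter fun w => F.Adj c w).card = 3 := by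
    unfold dg at h
    convert h
  have h4 : ({x, y} : Finset V).card ≤ 2 := Finset.card_le_two
  omega

/-- the last case -/
lemma F3_star {V : Type} [Fintype V] [DecidableEq V] {F : SimpleGraph V} {P : Matrix V V ℝ}
    (hP : Dom F P) (h0 : S_BL) (h1 : S_K7) (h2 : S_K5A) (h5 : S_K5P) {S : Finset V}
    (hS : ∀ u v, F.Adj u v → u ∈ S) (hd : ∀ v ∈ S, dg F v = 2 ∨ dg F v = 3) {h : V → V}
    {x a b c c' : V} (hf : IsM F h) (hcov : cov h = S.erase c) (hx : dg F x = 3)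
    (hxa : F.Adj x a) (hxb : F.Adj x b) (hxc : F.Adj x c) (hab : a ≠ b) (hac : a ≠ c)
    (hbc : b ≠ c) (hcc : F.Adj c c') (hac' : a ≠ c') (hbc' : b ≠ c') (hxc' : x ≠ c')
    (ha3 : dg F a = 3) (hc'2 : dg F c' = 2)
    (q1 : ¬ F.Adj a c) (q2 : ¬ F.Adj a c') (q3 : ¬ F.Adj b c) (q4 : ¬ F.Adj b c')
    (hha : h x = a) : Good F P S := by
  have hfc := F3_fix hcov
  have inv := hf.1
  have inj : ∀ u v, h u = h v → u = v := fun u v h => by rw [← inv u, h, inv v]
  have Sx : x ∈ S := hS _ _ hxa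
  have Sa : a ∈ S := hS _ _ hxa.symm
  have Sb : b ∈ S := hS _ _ hxb.symm
  have Sc : c ∈ S := hS _ _ hxc.symm
  have Sc' : c' ∈ S := hS _ _ hcc.symm
  have hax : h a = x := by rw [← hha, inv]
  have Ac' := F3_adj hf hcov Sc' hcc.ne'
  have nxc' : ¬ F.Adj x c' := by
    intro hy
    rcases nb3 hx hxa hxb hxc hab hac hbc hy with e | e | e
    · exact hac' e.symm
    · exact hbc' e.symm
    · exact hcc.ne e.symm
  rcases hd c Sc with hc2 | hc3
  · -- degree two
    have e1 : h c' ≠ c := fun e => hcc.ne (by rw [← inv c', e, hfc])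
    have e2 : h c' ≠ a := fun e => q2 (by rw [← e]; exact Ac'.symm)
    have e3 : h c' ≠ b := fun e => q4 (by rw [← e]; exact Ac'.symm)
    have e4 : h c' ≠ x := fun e => nxc' (by rw [← e]; exact Ac'.symm)
    have nxq : ¬ F.Adj x (h c') := by
      intro hy
      rcases nb3 hx hxa hxb hxc hab hac hbc hy with e | e | e
      · exact e2 e
      · exact e3 e
      · exact e1 e
    have nd : [a, x, c, c', h c'].Nodup := by
      simp only [List.nodup_cons, List.mem_cons, List.not_mem_nil, or_false, not_or,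
        not_false_eq_true, List.nodup_nil, and_true]
      exact ⟨⟨hxa.ne', hac, hac', e2.symm⟩, ⟨hxc.ne, hxc', e4.symm⟩, ⟨hcc.ne, e1.symm⟩, Ac'.ne⟩
    have hg := h5 V F P hP a x c c' (h c') nd hxa.symm hxc hcc Ac' nxq ha3 hx hc2 hc'2
      (hd _ (hS _ _ Ac'.symm))
    refine h0 V F P hP S _ c h hf (by simp) ?_ hcov ?_ hg
    · intro v hv
      simp only [Finset.mem_insert, Finset.mem_singleton] at hv
      rcases hv with rfl | rfl | rfl | rfl | rfl
      · exact Sa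
      · exact Sx
      · exact Sc
      · exact Sc'
      · exact hS _ _ Ac'.symm
    · intro w hw
      simp only [Finset.mem_insert, Finset.mem_singleton] at hw
      rcases hw with e | e | e | e | e <;> rw [e]
      · rw [hax]; simp
      · rw [hha]; simp
      · rw [hfc]; simp
      · simp
      · rw [inv]; simp
  · -- degree three
    obtain ⟨r, hcr, hrx, hrc'⟩ := F3_third (F := F) (x := x) (y := c') hc3
    have hra : r ≠ a := fun e => q1 (by rw [← e]; exact hcr.symm)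
    by_cases hs : h c' = r
    · exact F3_a5 hP h0 h2 hS hd hf hcov hc3 hcc hcr hxc.symm hrc'.symm hxc'.symm hrx hs hc'2
    · refine F3_b7 hP h0 h1 hS hd hf hcov hc3 hxc.symm hcc hcr hxc' hrx.symm hrc'.symm ?_ ?_ hs
      · rw [hha]; exact hac'
      · rw [hha]; exact hra.symm

/-- two neighbours are matched -/
lemma F3_pair {V : Type} [Fintype V] [DecidableEq V] {F : SimpleGraph V} {P : Matrix V V ℝ}
    (hP : Dom F P) (h0 : S_BL) (h1 : S_K7) (h2 : S_K5A) (h3 : S_K5B) (h4 : S_K5C) (h5 : S_K5P)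
    {S : Finset V} (hFC : FC F S)
    (hd : ∀ v ∈ S, dg F v = 2 ∨ dg F v = 3) {f : V → V} {x a b c : V} (hf : IsM F f)
    (hcov : cov f = S.erase x) (hx : dg F x = 3) (hxa : F.Adj x a) (hxb : F.Adj x b)
    (hxc : F.Adj x c) (hab : a ≠ b) (hac : a ≠ c) (hbc : b ≠ c) (h_ab : f a = b) :
    Good F P S := by
  have hS := hFC.1
  have Sx : x ∈ S := hS _ _ hxa
  have Sa : a ∈ S := hS _ _ hxa.symm
  have Sb : b ∈ S := hS _ _ hxb.symm
  have Sc : c ∈ S := hS _ _ hxc.symm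
  have h_ba : f b = a := by rw [← h_ab, hf.1]
  obtain ⟨nd, nd', Aab, Ac, hdl, hdl', g, g'⟩ :=
    F3_b5 (P := P) hP h0 hS hd hf hcov hxa hxb hxc hab hac hbc h_ab
  rcases hd a Sa with ha2 | ha3
  · exact F3_a5 hP h0 h2 hS hd hf hcov hx hxa hxb hxc hab hac hbc h_ab ha2
  rcases hd b Sb with hb2 | hb3
  · exact F3_a5 hP h0 h2 hS hd hf hcov hx hxb hxa hxc hab.symm hbc hac h_ba hb2
  rcases hd (f c) (hS _ _ Ac.symm) with hc2 | hc3
  swap
  · exact g (h3 V F P hP x a b c (f c) nd hdl hx hxa hxb hxc Aab Ac ha3 hb3 hc3)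
  by_cases q1 : F.Adj a c
  · exact g (h4 V F P hP x a b c (f c) nd hdl hx hxa hxb hxc Aab Ac ha3 hb3 hc2 (Or.inl q1))
  by_cases q2 : F.Adj a (f c)
  · exact g (h4 V F P hP x a b c (f c) nd hdl hx hxa hxb hxc Aab Ac ha3 hb3 hc2 (Or.inr q2))
  by_cases q3 : F.Adj b c
  · exact g' (h4 V F P hP x b a c (f c) nd' hdl' hx hxb hxa hxc Aab.symm Ac hb3 ha3 hc2
      (Or.inl q3))
  by_cases q4 : F.Adj b (f c)
  · exact g' (h4 V F P hP x b a c (f c) nd' hdl' hx hxb hxa hxc Aab.symm Ac hb3 ha3 hc2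
      (Or.inr q4))
  obtain ⟨h, hh, hcovh⟩ := hFC.2 c Sc
  simp only [List.nodup_cons, List.mem_cons, List.not_mem_nil, or_false, not_or,
    not_false_eq_true, List.nodup_nil, and_true] at nd
  obtain ⟨⟨-, -, -, n1⟩, ⟨-, -, n2⟩, ⟨-, n3⟩, -⟩ := nd
  have Ax := F3_adj hh hcovh Sx hxc.ne
  have hhc := F3_fix hcovh
  rcases nb3 hx hxa hxb hxc hab hac hbc Ax with e | e | e
  · exact F3_star hP h0 h1 h2 h5 hS hd hh hcovh hx hxa hxb hxc hab hac hbc Ac n2 n3 n1 ha3 hc2
      q1 q2 q3 q4 e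
  · exact F3_star hP h0 h1 h2 h5 hS hd hh hcovh hx hxb hxa hxc hab.symm hbc hac Ac n3 n2 n1 hb3
      hc2 q3 q4 q1 q2 e
  · exfalso
    apply hxc.ne
    rw [← hh.1 x, e, hhc]

theorem t_F3 (h0 : S_BL) (h1 : S_K7) (h2 : S_K5A) (h3 : S_K5B) (h4 : S_K5C) (h5 : S_K5P)
    (_h6 : S_DEG) : S_F3 := by
  intro V _ _ F P hP S hFC _ hd x Sx hx
  have hS := hFC.1
  obtain ⟨f, hf, hcov⟩ := hFC.2 x Sx
  obtain ⟨a, hxa, -, -⟩ := F3_third (F := F) (x := x) (y := x) hx
  obtain ⟨b, hxb, hba, -⟩ := F3_third (F := F) (x := a) (y := a) hx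
  obtain ⟨c, hxc, hca, hcb⟩ := F3_third (F := F) (x := a) (y := b) hx
  by_cases e1 : f a = b
  · exact F3_pair hP h0 h1 h2 h3 h4 h5 hFC hd hf hcov hx hxa hxb hxc hba.symm hca.symm hcb.symm e1
  by_cases e2 : f a = c
  · exact F3_pair hP h0 h1 h2 h3 h4 h5 hFC hd hf hcov hx hxa hxc hxb hca.symm hba.symm hcb e2
  by_cases e3 : f b = c
  · exact F3_pair hP h0 h1 h2 h3 h4 h5 hFC hd hf hcov hx hxb hxc hxa hcb.symm hba hca e3
  exact F3_b7 hP h0 h1 hS hd hf hcov hx hxa hxb hxc hba.symm hca.symm hcb.symm e1 e2 e3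

end H175LG
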