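import Pool.Agent.H175R.LG.Defs

set_option autoImplicit false
open scoped BigOperators Matrix

namespace H175LG

theorem t_SG : S_SG := by
  intro V _ _ F P h v hv
  have h1 := quadB h (n := 1) (fun _ => v) (fun _ => 1)
  simp only [Finset.univ_unique, Finset.sum_singleton, bq_diag] at h1
  unfold Good
  rw [Finset.sum_singleton, Finset.sum_singleton]
  have : (4:ℝ) ≤ dg F v := by exact_mod_cast hv
  linarith

theorem t_FCB (h0 : S_BL) (h1 : S_F2) (h2 : S_F3) (h3 : S_DEG) : S_FCB := by
  intro V _ _ F P h S hS hc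
  by_cases h4 : ∃ v ∈ S, 4 ≤ dg F v
  · obtain ⟨v, hv, h5⟩ := h4
    obtain ⟨f, hf, hcov⟩ := hS.2 v hv
    refine h0 V F P h S {v} v f hf (by simp) (by simpa using hv) hcov ?_ (t_SG V F P h v h5)
    intro w hw
    rw [Finset.mem_singleton] at hw ⊢
    subst hw
    by_contra h6
    have : w ∈ cov f := by simp [cov, h6]
    rw [hcov] at this
    simp at this
  · push Not at h4
    have h5 : ∀ v ∈ S, dg F v = 2 ∨ dg F v = 3 := by
      intro v hv
      have := h3 V F S hS hc v hv
      have := h4 v hv
      omega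
    by_cases h6 : ∃ x ∈ S, dg F x = 3
    · obtain ⟨x, hx, h7⟩ := h6
      exact h2 V F P h S hS hc h5 x hx h7
    · push Not at h6
      exact h1 V F P h S hS hc fun v hv => (h5 v hv).resolve_right (h6 v hv)

end H175LG
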