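import Pool.Agent.H175R.LG.Defs

set_option autoImplicit false

namespace H175LG

/-- join `x` and `y` (both missed by `f`) -/
def GAL_sw {V : Type} [DecidableEq V] (f : V → V) (x y : V) : V → V := fun w =>
  if w = x then y else if w = y then x else f w

/-- a maximum matching does not miss both ends of an edge -/
theorem GAL_adj {V : Type} [Fintype V] [DecidableEq V] {F : SimpleGraph V} {f : V → V}
    (hf : IsMax F f) {x y : V} (hxy : F.Adj x y) (hx : f x = x) (hy : f y = y) : False := by
  have hne : x ≠ y := hxy.ne
  obtain ⟨⟨g1, g2⟩, hmax⟩ := hf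
  have ex : GAL_sw f x y x = y := by simp [GAL_sw]
  have ey : GAL_sw f x y y = x := by simp [GAL_sw, hne.symm]
  have ew : ∀ w, w ≠ x → w ≠ y → GAL_sw f x y w = f w := by
    intro w a1 a2
    unfold GAL_sw
    rw [if_neg a1, if_neg a2]
  have hM : IsM F (GAL_sw f x y) := by
    constructor
    · intro w
      by_cases a1 : w = x
      · rw [a1, ex, ey]
      · by_cases a2 : w = y
        · rw [a2, ey, ex]
        · have b1 : f w ≠ x := by
            intro h
            apply a1
            rw [← g1 w, h, hx]
          have b2 : f w ≠ y := by
            intro h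
            apply a2
            rw [← g1 w, h, hy]
          rw [ew w a1 a2, ew _ b1 b2, g1]
    · intro w hw
      by_cases a1 : w = x
      · rw [a1, ex]
        exact hxy
      · by_cases a2 : w = y
        · rw [a2, ey]
          exact hxy.symm
        · rw [ew w a1 a2] at hw ⊢
          exact g2 w hw
  have h1 := hmax _ hM
  have hmc : ∀ (g : V → V) (w : V), w ∈ cov g ↔ g w ≠ w := by
    intro g w
    simp [cov]
  have hsub : insert x (cov f) ⊆ cov (GAL_sw f x y) := by
    intro w hw
    rw [Finset.mem_insert, hmc] at hw
    rw [hmc]
    by_cases a1 : w = x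
    · rw [a1, ex]
      exact hne.symm
    · have hw' : f w ≠ w := hw.resolve_left a1
      by_cases a2 : w = y
      · rw [a2] at hw'
        exact absurd hy hw'
      · rw [ew w a1 a2]
        exact hw'
  have h2 := Finset.card_le_card hsub
  rw [Finset.card_insert_of_notMem (by rw [hmc]; simp [hx])] at h2
  omega

theorem t_GAL (h : S_TR) : S_GAL := by
  intro V _ _ F hall u v huv
  rw [SimpleGraph.reachable_iff_reflTransGen] at huv
  induction huv with
  | refl => intro f _ _ _; rfl
  | @tail b c _ hbc ih =>
    exact h V F u b c (hall b) ih (fun f hf hb hc => (GAL_adj hf hbc hb hc).elim)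

end H175LG
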