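import Pool.Agent.H175R.LG.Defs

set_option autoImplicit false

namespace H175LG

theorem IDP_mem {V : Type} [Fintype V] [DecidableEq V] {f : V → V} {v : V} :
    v ∈ cov f ↔ f v ≠ v := by
  unfold cov
  rw [Finset.mem_filter]
  exact ⟨fun h => h.2, fun h => ⟨Finset.mem_univ _, h⟩⟩

theorem IDP_eq {V : Type} {f : V → V} (hf : ∀ v, f (f v) = v) {u v w : V}
    (hu : w ∈ s(u, f u)) (hv : w ∈ s(v, f v)) : s(u, f u) = s(v, f v) := by
  rw [Sym2.mem_iff] at hu hv
  have key : ∀ u, (w = u ∨ w = f u) → s(u, f u) = s(w, f w) := by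
    intro u h
    rcases h with rfl | rfl
    · rfl
    · rw [hf, Sym2.eq_swap]
  rw [key u hu, key v hv]

theorem t_IDP : S_IDP := by
  classical
  intro V _ _ H f hf
  let g : {v // v ∈ cov f} → H.edgeSet := fun v => ⟨s(v.1, f v.1), hf.2 v.1 (IDP_mem.1 v.2)⟩
  refine ⟨Finset.univ.image g, ?_, ?_⟩
  · intro e he e' he' hadj
    obtain ⟨u, -, rfl⟩ := Finset.mem_image.1 he
    obtain ⟨v, -, rfl⟩ := Finset.mem_image.1 he'
    rw [SimpleGraph.lineGraph_adj_iff_exists] at hadj
    obtain ⟨hne, w, hw1, hw2⟩ := hadj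
    exact hne (Subtype.ext (IDP_eq hf.1 hw1 hw2))
  · have h1 := Finset.card_eq_sum_card_image g (Finset.univ : Finset {v // v ∈ cov f})
    have h2 : ∀ e ∈ Finset.univ.image g, (Finset.univ.filter fun a => g a = e).card = 2 := by
      intro e he
      obtain ⟨u, -, rfl⟩ := Finset.mem_image.1 he
      have hu := IDP_mem.1 u.2
      have hu' : f u.1 ∈ cov f := by
        rw [IDP_mem, hf.1]
        exact hu.symm
      have e1 : (Finset.univ.filter fun a => g a = g u) =
          ({u, ⟨f u.1, hu'⟩} : Finset {v // v ∈ cov f}) := by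
        ext a
        rw [Finset.mem_filter, Finset.mem_insert, Finset.mem_singleton]
        constructor
        · rintro ⟨-, h⟩
          have h3 : s(a.1, f a.1) = s(u.1, f u.1) := congrArg Subtype.val h
          rw [Sym2.eq_iff] at h3
          rcases h3 with ⟨h3, -⟩ | ⟨h3, -⟩
          · exact Or.inl (Subtype.ext h3)
          · exact Or.inr (Subtype.ext h3)
        · rintro (rfl | rfl)
          · exact ⟨Finset.mem_univ _, rfl⟩
          · refine ⟨Finset.mem_univ _, Subtype.ext ?_⟩
            show s(f u.1, f (f u.1)) = s(u.1, f u.1)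
            rw [hf.1, Sym2.eq_swap]
      rw [e1, Finset.card_pair]
      intro h
      exact hu (congrArg Subtype.val h).symm
    rw [Finset.sum_congr rfl h2, Finset.sum_const, smul_eq_mul, Finset.card_univ,
      Fintype.card_coe] at h1
    omega

end H175LG
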