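import Pool.Agent.H175R.LG.Defs

/-! Task IND (helper255): the induction. -/

set_option autoImplicit false

namespace H175LG

lemma IND_mem {V : Type} [Fintype V] [DecidableEq V] (F : SimpleGraph V) (e : Sym2 V) :
    e ∈ ed F ↔ e ∈ F.edgeSet := by
  classical
  simp [ed]

lemma IND_mono {V : Type} [Fintype V] [DecidableEq V] {F F' : SimpleGraph V} (h : F' ≤ F) :
    ed F' ⊆ ed F := by
  intro e he
  rw [IND_mem] at he ⊢
  exact SimpleGraph.edgeSet_mono h he

lemma IND_isM {V : Type} {F F' : SimpleGraph V} (h : F' ≤ F) {g : V → V}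
    (hg : IsM F' g) : IsM F g := ⟨hg.1, fun v hv => h (hg.2 v hv)⟩

lemma IND_ex {V : Type} [Fintype V] [DecidableEq V] (F : SimpleGraph V) : ∃ f, IsMax F f := by
  classical
  obtain ⟨f, hf, hmax⟩ := Finset.exists_max_image
    (Finset.univ.filter (fun f : V → V => IsM F f)) (fun f => (cov f).card)
    ⟨id, by
      rw [Finset.mem_filter]
      exact ⟨Finset.mem_univ _, fun v => rfl, fun v hv => absurd rfl hv⟩⟩
  rw [Finset.mem_filter] at hf
  refine ⟨f, hf.2, fun g hg => ?_⟩
  exact hmax g (by rw [Finset.mem_filter]; exact ⟨Finset.mem_univ _, hg⟩)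

/-- the graph without the edges at `v` -/
def INDdel {V : Type} (F : SimpleGraph V) (v : V) : SimpleGraph V where
  Adj a b := F.Adj a b ∧ a ≠ v ∧ b ≠ v
  symm := ⟨fun a b h => ⟨h.1.symm, h.2.2, h.2.1⟩⟩
  loopless := ⟨fun a h => F.irrefl h.1⟩

/-- the restriction to a set given by `p` -/
def INDres {V : Type} (F : SimpleGraph V) (p : V → Prop) : SimpleGraph V where
  Adj a b := F.Adj a b ∧ p a ∧ p b
  symm := ⟨fun a b h => ⟨h.1.symm, h.2.2, h.2.1⟩⟩
  loopless := ⟨fun a h => F.irrefl h.1⟩

theorem IND_caseA (h2 : S_PAR) {V : Type} [Fintype V] [DecidableEq V] {H : SimpleGraph V}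
    {x : Sym2 V → ℝ} (hx : Wt H x) {F : SimpleGraph V} (hF : F ≤ H)
    (ih : ∀ F' ≤ H, (ed F').card < (ed F).card → ∀ f, IsMax F' f →
      ∑ e ∈ ed F', x e ≤ ((cov f).card : ℝ) / 2) (v : V)
    (hv : ∀ f, IsMax F f → f v ≠ v) (f : V → V) (hf : IsMax F f) :
    ∑ e ∈ ed F, x e ≤ ((cov f).card : ℝ) / 2 := by
  classical
  have hle : INDdel F v ≤ F := fun a b h => h.1
  have hsub := IND_mono hle
  have hK : ∀ e ∈ ed F \ ed (INDdel F v), v ∈ e := by
    intro e
    induction e using Sym2.ind with
    | _ a b =>
      intro he
      rw [Finset.mem_sdiff, IND_mem, IND_mem, SimpleGraph.mem_edgeSet, SimpleGraph.mem_edgeSet] at he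
      obtain ⟨ha, hb⟩ := he
      rw [Sym2.mem_iff]
      by_contra hcon
      push Not at hcon
      exact hb ⟨ha, fun h => hcon.1 h.symm, fun h => hcon.2 h.symm⟩
  have hlt : (ed (INDdel F v)).card < (ed F).card := by
    apply Finset.card_lt_card
    rw [Finset.ssubset_iff_of_subset hsub]
    refine ⟨s(v, f v), ?_, ?_⟩
    · rw [IND_mem, SimpleGraph.mem_edgeSet]
      exact hf.1.2 v (hv f hf)
    · rw [IND_mem, SimpleGraph.mem_edgeSet]
      intro h
      exact h.2.1 rfl
  obtain ⟨f', hf'⟩ := IND_ex (INDdel F v)
  have h3 := ih (INDdel F v) (hle.trans hF) hlt f' hf'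
  have h4 : f' v = v := by
    by_contra hcon
    exact (hf'.1.2 v hcon).2.1 rfl
  have h5 : (cov f').card < (cov f).card := by
    by_contra hcon
    push Not at hcon
    refine hv f' ⟨IND_isM hle hf'.1, fun g hg => (hf.2 g hg).trans hcon⟩ h4
  have h6 := h2 V F f hf.1
  have h7 := h2 V F f' (IND_isM hle hf'.1)
  have h8 : (cov f').card + 2 ≤ (cov f).card := by
    obtain ⟨a, ha⟩ := h6
    obtain ⟨b, hb⟩ := h7
    omega
  have h9 : ∑ e ∈ ed F \ ed (INDdel F v), x e ≤ 1 := by
    refine hx.1 v _ ?_ hK
    intro e he
    exact IND_mono hF (Finset.mem_sdiff.1 he).1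
  have h10 := Finset.sum_sdiff hsub (f := x)
  have h11 : ((cov f').card : ℝ) + 2 ≤ (cov f).card := by exact_mod_cast h8
  linarith

theorem IND_glue {V : Type} [Fintype V] [DecidableEq V] {F : SimpleGraph V} (S : Finset V)
    (f1 f2 : V → V) (h1 : IsM (INDres F (fun w => w ∈ S)) f1)
    (h2 : IsM (INDres F (fun w => w ∉ S)) f2) :
    IsM F (fun w => if w ∈ S then f1 w else f2 w) ∧
      (cov (fun w => if w ∈ S then f1 w else f2 w)).card = (cov f1).card + (cov f2).card := by
  classical
  have e1 : ∀ w, w ∈ S → f1 w ∈ S := by
    intro w hw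
    by_cases h : f1 w = w
    · rw [h]; exact hw
    · exact (h1.2 w h).2.2
  have e2 : ∀ w, w ∉ S → f2 w ∉ S := by
    intro w hw
    by_cases h : f2 w = w
    · rw [h]; exact hw
    · exact (h2.2 w h).2.2
  have e3 : ∀ w, w ∉ S → f1 w = w := by
    intro w hw
    by_contra h
    exact hw (h1.2 w h).2.1
  have e4 : ∀ w, w ∈ S → f2 w = w := by
    intro w hw
    by_contra h
    exact (h2.2 w h).2.1 hw
  refine ⟨⟨?_, ?_⟩, ?_⟩
  · intro w
    by_cases hw : w ∈ S
    · simp only [if_pos hw, if_pos (e1 w hw)]
      exact h1.1 w
    · simp only [if_neg hw, if_neg (e2 w hw)]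
      exact h2.1 w
  · intro w hw'
    by_cases hw : w ∈ S
    · simp only [if_pos hw] at hw' ⊢
      exact (h1.2 w hw').1
    · simp only [if_neg hw] at hw' ⊢
      exact (h2.2 w hw').1
  · have h3 : cov (fun w => if w ∈ S then f1 w else f2 w) = cov f1 ∪ cov f2 := by
      ext w
      simp only [cov, Finset.mem_filter, Finset.mem_univ, true_and, Finset.mem_union]
      by_cases hw : w ∈ S
      · simp only [if_pos hw, e4 w hw, ne_eq, not_true_eq_false, or_false]
      · simp only [if_neg hw, e3 w hw, ne_eq, not_true_eq_false, false_or]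
    rw [h3, Finset.card_union_of_disjoint]
    rw [Finset.disjoint_left]
    intro w hw1 hw2
    simp only [cov, Finset.mem_filter, Finset.mem_univ, true_and] at hw1 hw2
    by_cases hw : w ∈ S
    · exact hw2 (e4 w hw)
    · exact hw1 (e3 w hw)

theorem t_IND (h1 : S_CMP) (h2 : S_PAR) : S_IND := by
  classical
  intro V _ _ H x hx
  have key : ∀ n : ℕ, ∀ F ≤ H, (ed F).card = n → ∀ f, IsMax F f →
      ∑ e ∈ ed F, x e ≤ ((cov f).card : ℝ) / 2 := by
    intro n
    induction n using Nat.strong_induction_on with
    | _ n ih =>
      intro F hF hn f hf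
      have ih' : ∀ F' ≤ H, (ed F').card < (ed F).card → ∀ f, IsMax F' f →
          ∑ e ∈ ed F', x e ≤ ((cov f).card : ℝ) / 2 := by
        intro F' hF' hlt g hg
        exact ih (ed F').card (by omega) F' hF' rfl g hg
      by_cases hA : ∃ v, ∀ f, IsMax F f → f v ≠ v
      · obtain ⟨v, hv⟩ := hA
        exact IND_caseA h2 hx hF ih' v hv f hf
      · push Not at hA
        by_cases hE : ∃ a b, F.Adj a b
        · obtain ⟨v0, w0, hvw⟩ := hE
          set S : Finset V := Finset.univ.filter (fun v => F.Reachable v0 v) with hS
          have hmS : ∀ v, v ∈ S ↔ F.Reachable v0 v := by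
            intro v
            rw [hS, Finset.mem_filter]
            exact ⟨fun h => h.2, fun h => ⟨Finset.mem_univ _, h⟩⟩
          have hv0 : v0 ∈ S := (hmS v0).2 (SimpleGraph.Reachable.refl v0)
          have hw0 : w0 ∈ S := (hmS w0).2 hvw.reachable
          have hcl : ∀ a b, F.Adj a b → (a ∈ S ↔ b ∈ S) := by
            intro a b hab
            rw [hmS, hmS]
            exact ⟨fun h => h.trans hab.reachable, fun h => h.trans hab.symm.reachable⟩
          by_cases hB : ∀ u v, F.Adj u v → u ∈ S
          · have hFC2 := h1 V F hA (fun v => SimpleGraph.Reachable.refl v) S v0 hv0 hmS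
            obtain ⟨g, hg, hgc⟩ := hFC2 v0 hv0
            have h3 := h2 V F g hg
            have h4 : 1 ≤ (cov g).card := by
              rw [hgc]
              exact Finset.card_pos.2 ⟨w0, Finset.mem_erase.2 ⟨hvw.ne.symm, hw0⟩⟩
            have h5 : (cov g).card + 1 = S.card := by
              rw [hgc]
              exact Finset.card_erase_add_one hv0
            have h6 : 3 ≤ S.card := by
              obtain ⟨a, ha⟩ := h3
              omega
            have h7 := hx.2 F S hF ⟨hB, hFC2⟩ h6
            have h8 : (cov g).card ≤ (cov f).card := hf.2 g hg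
            have h9 : ((cov g).card : ℝ) ≤ (cov f).card := by exact_mod_cast h8
            have h10 : ((cov g).card : ℝ) + 1 = S.card := by exact_mod_cast h5
            linarith
          · push Not at hB
            obtain ⟨u, w, huw, huS⟩ := hB
            set F1 := INDres F (fun w => w ∈ S) with hF1
            set F2 := INDres F (fun w => w ∉ S) with hF2
            have l1 : F1 ≤ F := fun a b h => h.1
            have l2 : F2 ≤ F := fun a b h => h.1
            have c1 : (ed F1).card < (ed F).card := by
              apply Finset.card_lt_card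
              rw [Finset.ssubset_iff_of_subset (IND_mono l1)]
              refine ⟨s(u, w), ?_, ?_⟩
              · rw [IND_mem, SimpleGraph.mem_edgeSet]; exact huw
              · rw [IND_mem, SimpleGraph.mem_edgeSet]
                intro h
                exact huS h.2.1
            have c2 : (ed F2).card < (ed F).card := by
              apply Finset.card_lt_card
              rw [Finset.ssubset_iff_of_subset (IND_mono l2)]
              refine ⟨s(v0, w0), ?_, ?_⟩
              · rw [IND_mem, SimpleGraph.mem_edgeSet]; exact hvw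
              · rw [IND_mem, SimpleGraph.mem_edgeSet]
                intro h
                exact h.2.1 hv0
            obtain ⟨f1, hf1⟩ := IND_ex F1
            obtain ⟨f2, hf2⟩ := IND_ex F2
            have s1 := ih' F1 (l1.trans hF) c1 f1 hf1
            have s2 := ih' F2 (l2.trans hF) c2 f2 hf2
            obtain ⟨g1, g2⟩ := IND_glue S f1 f2 hf1.1 hf2.1
            have g3 := hf.2 _ g1
            rw [g2] at g3
            have g4 : ((cov f1).card : ℝ) + (cov f2).card ≤ (cov f).card := by exact_mod_cast g3
            have hun : ed F = ed F1 ∪ ed F2 := by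
              ext e
              induction e using Sym2.ind with
              | _ a b =>
                rw [Finset.mem_union, IND_mem, IND_mem, IND_mem, SimpleGraph.mem_edgeSet,
                  SimpleGraph.mem_edgeSet, SimpleGraph.mem_edgeSet]
                constructor
                · intro h
                  by_cases ha : a ∈ S
                  · exact Or.inl ⟨h, ha, (hcl a b h).1 ha⟩
                  · exact Or.inr ⟨h, ha, fun hb => ha ((hcl a b h).2 hb)⟩
                · rintro (h | h)
                  · exact h.1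
                  · exact h.1
            have hdis : Disjoint (ed F1) (ed F2) := by
              rw [Finset.disjoint_left]
              intro e
              induction e using Sym2.ind with
              | _ a b =>
                intro ha hb
                rw [IND_mem, SimpleGraph.mem_edgeSet] at ha hb
                exact hb.2.1 ha.2.1
            rw [hun, Finset.sum_union hdis]
            linarith
        · push Not at hE
          have h3 : ed F = ∅ := by
            rw [Finset.eq_empty_iff_forall_notMem]
            intro e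
            induction e using Sym2.ind with
            | _ a b =>
              rw [IND_mem, SimpleGraph.mem_edgeSet]
              exact hE a b
          rw [h3, Finset.sum_empty]
          positivity
  intro F hF f hf
  exact key _ F hF rfl f hf

end H175LG
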