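import Pool.Agent.H175R.LG.Defs

set_option autoImplicit false
open scoped BigOperators Matrix

namespace H175LG

theorem t_K3 : S_K3 := by
  intro V _ _ F P h a b c hnd hab hbc hac ha hb hc
  have h1 := quadB h ![a, b, c] ![1, 1, 1]
  have h2 := quadP h ![a, b, c] ![1, -1, 0]
  have h3 := quadP h ![a, b, c] ![1, 1, -2]
  simp only [Fin.sum_univ_three, Matrix.cons_val_zero, Matrix.cons_val_one,
    Matrix.cons_val_two, Matrix.tail_cons, Matrix.head_cons, Matrix.cons_val] at h1 h2 h3
  rw [bq_diag, bq_diag, bq_diag, bq_adj hab, bq_adj hbc, bq_adj hac, bq_adj hab.symm,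
    bq_adj hbc.symm, bq_adj hac.symm, ha, hb, hc] at h1
  rw [symP h b a, symP h c a, symP h c b] at h1 h2 h3
  have hne1 : a ≠ b := hab.ne
  have hne2 : b ≠ c := hbc.ne
  have hne3 : a ≠ c := hac.ne
  unfold Good
  rw [Finset.sum_insert (by simp [hne1, hne3]), Finset.sum_insert (by simp [hne2]),
    Finset.sum_singleton, Finset.sum_insert (by simp [hne1, hne3]),
    Finset.sum_insert (by simp [hne2]), Finset.sum_singleton, ha, hb, hc]
  push_cast at h1 ⊢
  linarith

end H175LG
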