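import Pool.Agent.H175R.LG.Defs

set_option autoImplicit false
open scoped BigOperators Matrix

set_option linter.unusedVariables false

namespace H175LG

lemma K5A_lb0 (p00 p11 p22 p33 p44 p01 p02 p03 p04 p12 p13 p14 p23 p24 p34 lc ld : ℝ)
    (h0 : 0 ≤ lc) (h1 : lc ≤ 1) (h2 : 0 ≤ ld) (h3 : ld ≤ 1)
    (hP : ∀ t0 t1 t2 t3 t4 : ℝ, 0 ≤ t0 ^ 2 * p00 + t1 ^ 2 * p11 + t2 ^ 2 * p22 + t3 ^ 2 * p33 + t4 ^ 2 * p44 +
      2 * (t0 * t1 * p01 + t0 * t2 * p02 + t0 * t3 * p03 + t0 * t4 * p04 + t1 * t2 * p12 +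
      t1 * t3 * p13 + t1 * t4 * p14 + t2 * t3 * p23 + t2 * t4 * p24 + t3 * t4 * p34))
    (hB : ∀ t0 t1 t2 t3 t4 : ℝ, t0 ^ 2 + 0 * t2 ^ 2 + lc * t3 ^ 2 + ld * t4 ^ 2 +
      2 * (t0 * t1 + t0 * t2 + t0 * t3 + t1 * t2 + t3 * t4 + 0 * (t2 * t3) + 0 * (t2 * t4)) ≤ t0 ^ 2 * p00 + t1 ^ 2 * p11 + t2 ^ 2 * p22 + t3 ^ 2 * p33 + t4 ^ 2 * p44 +
      2 * (t0 * t1 * p01 + t0 * t2 * p02 + t0 * t3 * p03 + t0 * t4 * p04 + t1 * t2 * p12 +
      t1 * t3 * p13 + t1 * t4 * p14 + t2 * t3 * p23 + t2 * t4 * p24 + t3 * t4 * p34)) :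
    7 / 2 + (0 + lc + ld) / 2 ≤ p00 + p11 + p22 + p33 + p44 := by
  have b0 := mul_le_mul_of_nonneg_left (hB 1 (11/18) (11/18) (7/18) (1/18)) (show (0:ℝ) ≤ 1/2 by norm_num)
  have b1 := mul_le_mul_of_nonneg_left (hB 0 1 (41/59) (-95/59) (-83/59)) (show (0:ℝ) ≤ 59/648 by norm_num)
  have b2 := mul_le_mul_of_nonneg_left (hB 0 0 1 (-19/20) (-83/100)) (show (0:ℝ) ≤ 25/531 by norm_num)
  have b3 := mul_le_mul_of_nonneg_left (hB 0 0 0 1 (137/105)) (show (0:ℝ) ≤ 7/48 by norm_num)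
  have b4 := mul_le_mul_of_nonneg_left (hB 0 0 0 0 1) (show (0:ℝ) ≤ 71/1890 by norm_num)
  have q0 := mul_nonneg (show (0:ℝ) ≤ 1/2 by norm_num) (hP 1 (-11/18) (-11/18) (-7/18) (-1/18))
  have q1 := mul_nonneg (show (0:ℝ) ≤ 347/648 by norm_num) (hP 0 1 (-283/347) (-59/347) (61/347))
  have q2 := mul_nonneg (show (0:ℝ) ≤ 560/3123 by norm_num) (hP 0 0 1 (-59/64) (61/64))
  have q3 := mul_nonneg (show (0:ℝ) ≤ 197/768 by norm_num) (hP 0 0 0 1 (-649/591))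
  have q4 := mul_nonneg (show (0:ℝ) ≤ 103/10638 by norm_num) (hP 0 0 0 0 1)
  linarith

lemma K5A_bc (p00 p11 p22 p33 p44 p01 p02 p03 p04 p12 p13 p14 p23 p24 p34 lc ld : ℝ)
    (h0 : 0 ≤ lc) (h1 : lc ≤ 1) (h2 : 0 ≤ ld) (h3 : ld ≤ 1)
    (hP : ∀ t0 t1 t2 t3 t4 : ℝ, 0 ≤ t0 ^ 2 * p00 + t1 ^ 2 * p11 + t2 ^ 2 * p22 + t3 ^ 2 * p33 + t4 ^ 2 * p44 +
      2 * (t0 * t1 * p01 + t0 * t2 * p02 + t0 * t3 * p03 + t0 * t4 * p04 + t1 * t2 * p12 +
      t1 * t3 * p13 + t1 * t4 * p14 + t2 * t3 * p23 + t2 * t4 * p24 + t3 * t4 * p34))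
    (hB : ∀ t0 t1 t2 t3 t4 : ℝ, t0 ^ 2 + 1 * t2 ^ 2 + 1 * t3 ^ 2 + ld * t4 ^ 2 +
      2 * (t0 * t1 + t0 * t2 + t0 * t3 + t1 * t2 + t3 * t4 + 1 * (t2 * t3) + 0 * (t2 * t4)) ≤ t0 ^ 2 * p00 + t1 ^ 2 * p11 + t2 ^ 2 * p22 + t3 ^ 2 * p33 + t4 ^ 2 * p44 +
      2 * (t0 * t1 * p01 + t0 * t2 * p02 + t0 * t3 * p03 + t0 * t4 * p04 + t1 * t2 * p12 +
      t1 * t3 * p13 + t1 * t4 * p14 + t2 * t3 * p23 + t2 * t4 * p24 + t3 * t4 * p34)) :
    7 / 2 + (1 + 1 + ld) / 2 ≤ p00 + p11 + p22 + p33 + p44 := by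
  have b0 := mul_le_mul_of_nonneg_left (hB 1 (13/43) (-6/43) (7/43) (-3/43)) (show (0:ℝ) ≤ 43/50 by norm_num)
  have b1 := mul_le_mul_of_nonneg_left (hB 0 1 (637/347) (-177/347) (-348/347)) (show (0:ℝ) ≤ 347/2150 by norm_num)
  have b2 := mul_le_mul_of_nonneg_left (hB 0 0 1 (55/53) (81/106)) (show (0:ℝ) ≤ 2597/8675 by norm_num)
  have b3 := mul_le_mul_of_nonneg_left (hB 0 0 0 1 (344/405)) (show (0:ℝ) ≤ 81/530 by norm_num)
  have b4 := mul_le_mul_of_nonneg_left (hB 0 0 0 0 1) (show (0:ℝ) ≤ 1961/40500 by norm_num)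
  have q0 := mul_nonneg (show (0:ℝ) ≤ 7/50 by norm_num) (hP 1 (-13/7) (6/7) (-1) (3/7))
  have q1 := mul_nonneg (show (0:ℝ) ≤ 97/350 by norm_num) (hP 0 1 (-13/97) (-77/97) (102/97))
  have q2 := mul_nonneg (show (0:ℝ) ≤ 78/2425 by norm_num) (hP 0 0 1 (-20/13) (77/52))
  have q3 := mul_nonneg (show (0:ℝ) ≤ 9/130 by norm_num) (hP 0 0 0 1 (-49/45))
  have q4 := mul_nonneg (show (0:ℝ) ≤ 137/9000 by norm_num) (hP 0 0 0 0 1)
  linarith

lemma K5A_bd (p00 p11 p22 p33 p44 p01 p02 p03 p04 p12 p13 p14 p23 p24 p34 lc ld : ℝ)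
    (h0 : 0 ≤ lc) (h1 : lc ≤ 1) (h2 : 0 ≤ ld) (h3 : ld ≤ 1)
    (hP : ∀ t0 t1 t2 t3 t4 : ℝ, 0 ≤ t0 ^ 2 * p00 + t1 ^ 2 * p11 + t2 ^ 2 * p22 + t3 ^ 2 * p33 + t4 ^ 2 * p44 +
      2 * (t0 * t1 * p01 + t0 * t2 * p02 + t0 * t3 * p03 + t0 * t4 * p04 + t1 * t2 * p12 +
      t1 * t3 * p13 + t1 * t4 * p14 + t2 * t3 * p23 + t2 * t4 * p24 + t3 * t4 * p34))
    (hB : ∀ t0 t1 t2 t3 t4 : ℝ, t0 ^ 2 + 1 * t2 ^ 2 + lc * t3 ^ 2 + ld * t4 ^ 2 +
      2 * (t0 * t1 + t0 * t2 + t0 * t3 + t1 * t2 + t3 * t4 + 0 * (t2 * t3) + 1 * (t2 * t4)) ≤ t0 ^ 2 * p00 + t1 ^ 2 * p11 + t2 ^ 2 * p22 + t3 ^ 2 * p33 + t4 ^ 2 * p44 +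
      2 * (t0 * t1 * p01 + t0 * t2 * p02 + t0 * t3 * p03 + t0 * t4 * p04 + t1 * t2 * p12 +
      t1 * t3 * p13 + t1 * t4 * p14 + t2 * t3 * p23 + t2 * t4 * p24 + t3 * t4 * p34)) :
    7 / 2 + (1 + lc + ld) / 2 ≤ p00 + p11 + p22 + p33 + p44 := by
  have b0 := mul_le_mul_of_nonneg_left (hB 1 (1/3) 0 (1/3) (-1/6)) (show (0:ℝ) ≤ 3/4 by norm_num)
  have b1 := mul_le_mul_of_nonneg_left (hB 0 1 (6/7) (-5/7) (-2/7)) (show (0:ℝ) ≤ 7/24 by norm_num)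
  have b2 := mul_le_mul_of_nonneg_left (hB 0 0 1 (1/10) (3/5)) (show (0:ℝ) ≤ 15/28 by norm_num)
  have b3 := mul_le_mul_of_nonneg_left (hB 0 0 0 1 (16/31)) (show (0:ℝ) ≤ 31/80 by norm_num)
  have b4 := mul_le_mul_of_nonneg_left (hB 0 0 0 0 1) (show (0:ℝ) ≤ 141/496 by norm_num)
  have q0 := mul_nonneg (show (0:ℝ) ≤ 1/4 by norm_num) (hP 1 (-1) 0 (-1) (1/2))
  have q1 := mul_nonneg (show (0:ℝ) ≤ 3/8 by norm_num) (hP 0 1 (-2/3) (-1/3) (2/3))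
  have q2 := mul_nonneg (show (0:ℝ) ≤ 1/12 by norm_num) (hP 0 0 1 (1/2) (-1))
  have q3 := mul_nonneg (show (0:ℝ) ≤ 1/16 by norm_num) (hP 0 0 0 1 0)
  have q4 := mul_nonneg (show (0:ℝ) ≤ 1/16 by norm_num) (hP 0 0 0 0 1)
  linarith

lemma K5A_no (p00 p11 p22 p33 p44 p01 p02 p03 p04 p12 p13 p14 p23 p24 p34 lc ld : ℝ)
    (h0 : 0 ≤ lc) (h1 : lc ≤ 1) (h2 : 0 ≤ ld) (h3 : ld ≤ 1)
    (hP : ∀ t0 t1 t2 t3 t4 : ℝ, 0 ≤ t0 ^ 2 * p00 + t1 ^ 2 * p11 + t2 ^ 2 * p22 + t3 ^ 2 * p33 + t4 ^ 2 * p44 +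
      2 * (t0 * t1 * p01 + t0 * t2 * p02 + t0 * t3 * p03 + t0 * t4 * p04 + t1 * t2 * p12 +
      t1 * t3 * p13 + t1 * t4 * p14 + t2 * t3 * p23 + t2 * t4 * p24 + t3 * t4 * p34))
    (hB : ∀ t0 t1 t2 t3 t4 : ℝ, t0 ^ 2 + 1 * t2 ^ 2 + lc * t3 ^ 2 + ld * t4 ^ 2 +
      2 * (t0 * t1 + t0 * t2 + t0 * t3 + t1 * t2 + t3 * t4 + 0 * (t2 * t3) + 0 * (t2 * t4)) ≤ t0 ^ 2 * p00 + t1 ^ 2 * p11 + t2 ^ 2 * p22 + t3 ^ 2 * p33 + t4 ^ 2 * p44 +
      2 * (t0 * t1 * p01 + t0 * t2 * p02 + t0 * t3 * p03 + t0 * t4 * p04 + t1 * t2 * p12 +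
      t1 * t3 * p13 + t1 * t4 * p14 + t2 * t3 * p23 + t2 * t4 * p24 + t3 * t4 * p34)) :
    7 / 2 + (1 + lc + ld) / 2 ≤ p00 + p11 + p22 + p33 + p44 := by
  have b0 := mul_le_mul_of_nonneg_left (hB 1 (4/13) (-5/156) (9/26) (-19/78)) (show (0:ℝ) ≤ 39/50 by norm_num)
  have b1 := mul_le_mul_of_nonneg_left (hB 0 1 (865/393) (-307/393) (-23/131)) (show (0:ℝ) ≤ 393/2600 by norm_num)
  have b2 := mul_le_mul_of_nonneg_left (hB 0 0 1 (45130/25761) (65182/25761)) (show (0:ℝ) ≤ 8587/104800 by norm_num)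
  have b3 := mul_le_mul_of_nonneg_left (hB 0 0 0 1 (1187632/1280281)) (show (0:ℝ) ≤ 1280281/15456600 by norm_num)
  have b4 := mul_le_mul_of_nonneg_left (hB 0 0 0 0 1) (show (0:ℝ) ≤ 1050379/128028100 by norm_num)
  have q0 := mul_nonneg (show (0:ℝ) ≤ 11/50 by norm_num) (hP 1 (-12/11) (5/44) (-27/22) (19/22))
  have q1 := mul_nonneg (show (0:ℝ) ≤ 1129/2200 by norm_num) (hP 0 1 (-655/1129) (-571/1129) (643/1129))
  have q2 := mul_nonneg (show (0:ℝ) ≤ 8517/903200 by norm_num) (hP 0 0 1 (4610/8517) (-38/51))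
  have q3 := mul_nonneg (show (0:ℝ) ≤ 24881/1703400 by norm_num) (hP 0 0 0 1 (-17368/24881))
  have q4 := mul_nonneg (show (0:ℝ) ≤ 5221/2488100 by norm_num) (hP 0 0 0 0 1)
  linarith

lemma K5A_bqs {V : Type} [Fintype V] [DecidableEq V] (F : SimpleGraph V) (u v : V) :
    BQ F u v = BQ F v u := by
  by_cases h : u = v
  · rw [h]
  · by_cases h' : F.Adj u v
    · rw [bq_adj h', bq_adj h'.symm]
    · rw [bq_not h h', bq_not (Ne.symm h) (fun h2 => h' h2.symm)]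

lemma K5A_P {V : Type} [Fintype V] [DecidableEq V] {F : SimpleGraph V} {P : Matrix V V ℝ}
    (h : Dom F P) (x a b c d : V) (t0 t1 t2 t3 t4 : ℝ) :
    0 ≤ t0 ^ 2 * P x x + t1 ^ 2 * P a a + t2 ^ 2 * P b b + t3 ^ 2 * P c c + t4 ^ 2 * P d d +
      2 * (t0 * t1 * P x a + t0 * t2 * P x b + t0 * t3 * P x c + t0 * t4 * P x d + t1 * t2 * P a b +
      t1 * t3 * P a c + t1 * t4 * P a d + t2 * t3 * P b c + t2 * t4 * P b d + t3 * t4 * P c d) := by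
  have h1 := quadP h ![x, a, b, c, d] ![t0, t1, t2, t3, t4]
  simp only [Fin.sum_univ_five, Matrix.cons_val] at h1
  rw [symP h a x, symP h b x, symP h c x, symP h d x, symP h b a, symP h c a, symP h d a,
    symP h c b, symP h d b, symP h d c] at h1
  refine h1.trans (le_of_eq ?_)
  ring

lemma K5A_B {V : Type} [Fintype V] [DecidableEq V] {F : SimpleGraph V} {P : Matrix V V ℝ}
    (h : Dom F P) (x a b c d : V) (t0 t1 t2 t3 t4 : ℝ) :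
    t0 ^ 2 * BQ F x x + t1 ^ 2 * BQ F a a + t2 ^ 2 * BQ F b b + t3 ^ 2 * BQ F c c +
      t4 ^ 2 * BQ F d d +
      2 * (t0 * t1 * BQ F x a + t0 * t2 * BQ F x b + t0 * t3 * BQ F x c + t0 * t4 * BQ F x d +
      t1 * t2 * BQ F a b + t1 * t3 * BQ F a c + t1 * t4 * BQ F a d + t2 * t3 * BQ F b c +
      t2 * t4 * BQ F b d + t3 * t4 * BQ F c d) ≤
    t0 ^ 2 * P x x + t1 ^ 2 * P a a + t2 ^ 2 * P b b + t3 ^ 2 * P c c + t4 ^ 2 * P d d +
      2 * (t0 * t1 * P x a + t0 * t2 * P x b + t0 * t3 * P x c + t0 * t4 * P x d + t1 * t2 * P a b +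
      t1 * t3 * P a c + t1 * t4 * P a d + t2 * t3 * P b c + t2 * t4 * P b d + t3 * t4 * P c d) := by
  have h1 := quadB h ![x, a, b, c, d] ![t0, t1, t2, t3, t4]
  simp only [Fin.sum_univ_five, Matrix.cons_val] at h1
  rw [symP h a x, symP h b x, symP h c x, symP h d x, symP h b a, symP h c a, symP h d a,
    symP h c b, symP h d b, symP h d c, K5A_bqs F a x, K5A_bqs F b x, K5A_bqs F c x,
    K5A_bqs F d x, K5A_bqs F b a, K5A_bqs F c a, K5A_bqs F d a,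
    K5A_bqs F c b, K5A_bqs F d b, K5A_bqs F d c] at h1
  linarith

theorem t_K5A : S_K5A := by
  intro V _ _ F P hD x a b c d hnd hdg hx hxa hxb hxc hab hcd ha
  simp only [List.nodup_cons, List.mem_cons, not_or, List.not_mem_nil, not_false_eq_true,
    List.nodup_nil, and_true] at hnd
  obtain ⟨⟨nxa, nxb, nxc, nxd⟩, ⟨nab, nac, nad⟩, ⟨nbc, nbd⟩, ncd⟩ := hnd
  have hdb := hdg b (by simp)
  have hdc := hdg c (by simp)
  have hdd := hdg d (by simp)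
  have hP := K5A_P hD x a b c d
  have hB := K5A_B hD x a b c d
  have e1 : BQ F x x = 1 := by rw [bq_diag, hx]; norm_num
  have e2 : BQ F a a = 0 := by rw [bq_diag, ha]; norm_num
  have e3 : BQ F x a = 1 := bq_adj hxa
  have e4 : BQ F x b = 1 := bq_adj hxb
  have e5 : BQ F x c = 1 := bq_adj hxc
  have e6 : BQ F a b = 1 := bq_adj hab
  have e7 : BQ F c d = 1 := bq_adj hcd
  have e8 : BQ F x d = 0 := bq_not nxd fun h => by
    rcases nb3 hx hxa hxb hxc nab nac nbc h with h | h | h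
    · exact nad h.symm
    · exact nbd h.symm
    · exact ncd h.symm
  have e9 : BQ F a c = 0 := bq_not nac fun h => by
    rcases nb2 ha hxa.symm hab nxb h with h | h
    · exact nxc h.symm
    · exact nbc h.symm
  have e10 : BQ F a d = 0 := bq_not nad fun h => by
    rcases nb2 ha hxa.symm hab nxb h with h | h
    · exact nxd h.symm
    · exact nbd h.symm
  have lcb : 0 ≤ (dg F c : ℝ) - 2 ∧ (dg F c : ℝ) - 2 ≤ 1 := by
    rcases hdc with h | h <;> rw [h] <;> norm_num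
  have ldb : 0 ≤ (dg F d : ℝ) - 2 ∧ (dg F d : ℝ) - 2 ≤ 1 := by
    rcases hdd with h | h <;> rw [h] <;> norm_num
  have hsum : ∀ φ : V → ℝ, ∑ v ∈ ({x, a, b, c, d} : Finset V), φ v = φ x + φ a + φ b + φ c + φ d := by
    intro φ
    rw [Finset.sum_insert (by simp [nxa, nxb, nxc, nxd]), Finset.sum_insert (by simp [nab, nac, nad]),
      Finset.sum_insert (by simp [nbc, nbd]), Finset.sum_insert (by simp [ncd]),
      Finset.sum_singleton]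
    ring
  unfold Good
  rw [hsum, hsum, hx, ha]
  simp only [e1, e2, e3, e4, e5, e6, e7, e8, e9, e10] at hB
  rw [bq_diag F b, bq_diag F c, bq_diag F d] at hB
  rcases hdb with hb | hb
  · have e11 : BQ F b c = 0 := bq_not nbc fun h => by
      rcases nb2 hb hxb.symm hab.symm nxa h with h | h
      · exact nxc h.symm
      · exact nac h.symm
    have e12 : BQ F b d = 0 := bq_not nbd fun h => by
      rcases nb2 hb hxb.symm hab.symm nxa h with h | h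
      · exact nxd h.symm
      · exact nad h.symm
    have key := K5A_lb0 _ _ _ _ _ _ _ _ _ _ _ _ _ _ _ ((dg F c : ℝ) - 2) ((dg F d : ℝ) - 2)
      lcb.1 lcb.2 ldb.1 ldb.2 hP (fun t0 t1 t2 t3 t4 => by
        have h := hB t0 t1 t2 t3 t4
        rw [e11, e12, hb] at h
        push_cast at h
        linarith)
    rw [hb]
    push_cast
    linarith
  · by_cases hbc : F.Adj b c
    · have e11 : BQ F b c = 1 := bq_adj hbc
      have e12 : BQ F b d = 0 := bq_not nbd fun h => by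
        rcases nb3 hb hxb.symm hab.symm hbc nxa nxc nac h with h | h | h
        · exact nxd h.symm
        · exact nad h.symm
        · exact ncd h.symm
      have hc : dg F c = 3 := by
        rcases hdc with h | h
        · exfalso
          rcases nb2 h hxc.symm hcd nxd hbc.symm with h | h
          · exact nxb h.symm
          · exact nbd h
        · exact h
      have key := K5A_bc _ _ _ _ _ _ _ _ _ _ _ _ _ _ _ 0 ((dg F d : ℝ) - 2)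
        le_rfl zero_le_one ldb.1 ldb.2 hP (fun t0 t1 t2 t3 t4 => by
          have h := hB t0 t1 t2 t3 t4
          rw [e11, e12, hb, hc] at h
          push_cast at h
          linarith)
      rw [hb, hc]
      push_cast
      linarith
    · have e11 : BQ F b c = 0 := bq_not nbc hbc
      by_cases hbd : F.Adj b d
      · have e12 : BQ F b d = 1 := bq_adj hbd
        have key := K5A_bd _ _ _ _ _ _ _ _ _ _ _ _ _ _ _ ((dg F c : ℝ) - 2) ((dg F d : ℝ) - 2)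
          lcb.1 lcb.2 ldb.1 ldb.2 hP (fun t0 t1 t2 t3 t4 => by
            have h := hB t0 t1 t2 t3 t4
            rw [e11, e12, hb] at h
            push_cast at h
            linarith)
        rw [hb]
        push_cast
        linarith
      · have e12 : BQ F b d = 0 := bq_not nbd hbd
        have key := K5A_no _ _ _ _ _ _ _ _ _ _ _ _ _ _ _ ((dg F c : ℝ) - 2) ((dg F d : ℝ) - 2)
          lcb.1 lcb.2 ldb.1 ldb.2 hP (fun t0 t1 t2 t3 t4 => by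
            have h := hB t0 t1 t2 t3 t4
            rw [e11, e12, hb] at h
            push_cast at h
            linarith)
        rw [hb]
        push_cast
        linarith

end H175LG
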