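import Pool.Agent.H175R.LG.Defs

/-! K5B (helper880) -/

set_option autoImplicit false
open scoped BigOperators Matrix

namespace H175LG

lemma K5B_symB {V : Type} [Fintype V] [DecidableEq V] (F : SimpleGraph V) (u v : V) :
    BQ F u v = BQ F v u := by
  by_cases h : u = v
  · rw [h]
  · by_cases h1 : F.Adj u v
    · rw [bq_adj h1, bq_adj h1.symm]
    · rw [bq_not h h1, bq_not (Ne.symm h) (fun h2 => h1 h2.symm)]

lemma K5B_nn {V : Type} [Fintype V] [DecidableEq V] (F : SimpleGraph V) {u v : V} (h : u ≠ v) :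
    0 ≤ BQ F u v := by
  by_cases h1 : F.Adj u v
  · rw [bq_adj h1]; norm_num
  · rw [bq_not h h1]

lemma K5B_P {V : Type} [Fintype V] [DecidableEq V] {F : SimpleGraph V} {P : Matrix V V ℝ}
    (h : Dom F P) (x a b c d : V) (t0 t1 t2 t3 t4 : ℝ) :
    0 ≤ t0 * t0 * P x x + t1 * t1 * P a a + t2 * t2 * P b b + t3 * t3 * P c c + t4 * t4 * P d d +
      2 * (t0 * t1 * P x a + t0 * t2 * P x b + t0 * t3 * P x c + t0 * t4 * P x d +
        t1 * t2 * P a b + t1 * t3 * P a c + t1 * t4 * P a d + t2 * t3 * P b c + t2 * t4 * P b d +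
        t3 * t4 * P c d) := by
  have h1 := quadP h ![x, a, b, c, d] ![t0, t1, t2, t3, t4]
  simp only [Fin.sum_univ_five, Matrix.cons_val_zero, Matrix.cons_val_one, Matrix.cons_val] at h1
  rw [symP h a x, symP h b x, symP h c x, symP h d x, symP h b a, symP h c a, symP h d a,
    symP h c b, symP h d b, symP h d c] at h1
  linarith

lemma K5B_B {V : Type} [Fintype V] [DecidableEq V] {F : SimpleGraph V} {P : Matrix V V ℝ}
    (h : Dom F P) (x a b c d : V) (t0 t1 t2 t3 t4 : ℝ) :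
    t0 * t0 * BQ F x x + t1 * t1 * BQ F a a + t2 * t2 * BQ F b b + t3 * t3 * BQ F c c +
      t4 * t4 * BQ F d d +
      2 * (t0 * t1 * BQ F x a + t0 * t2 * BQ F x b + t0 * t3 * BQ F x c + t0 * t4 * BQ F x d +
        t1 * t2 * BQ F a b + t1 * t3 * BQ F a c + t1 * t4 * BQ F a d + t2 * t3 * BQ F b c +
        t2 * t4 * BQ F b d + t3 * t4 * BQ F c d) ≤
    t0 * t0 * P x x + t1 * t1 * P a a + t2 * t2 * P b b + t3 * t3 * P c c + t4 * t4 * P d d +
      2 * (t0 * t1 * P x a + t0 * t2 * P x b + t0 * t3 * P x c + t0 * t4 * P x d +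
        t1 * t2 * P a b + t1 * t3 * P a c + t1 * t4 * P a d + t2 * t3 * P b c + t2 * t4 * P b d +
        t3 * t4 * P c d) := by
  have h1 := quadB h ![x, a, b, c, d] ![t0, t1, t2, t3, t4]
  simp only [Fin.sum_univ_five, Matrix.cons_val_zero, Matrix.cons_val_one, Matrix.cons_val] at h1
  rw [symP h a x, symP h b x, symP h c x, symP h d x, symP h b a, symP h c a, symP h d a,
    symP h c b, symP h d b, symP h d c, K5B_symB F a x, K5B_symB F b x, K5B_symB F c x,
    K5B_symB F d x, K5B_symB F b a, K5B_symB F c a, K5B_symB F d a,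
    K5B_symB F c b, K5B_symB F d b, K5B_symB F d c] at h1
  linarith

lemma K5B_sum {V : Type} [DecidableEq V] {x a b c d : V} (hnd : [x, a, b, c, d].Nodup)
    (f : V → ℝ) : ∑ v ∈ ({x, a, b, c, d} : Finset V), f v = f x + f a + f b + f c + f d := by
  simp only [List.nodup_cons, List.mem_cons, List.not_mem_nil, or_false, not_or,
    not_false_eq_true, List.nodup_nil, and_true] at hnd
  obtain ⟨⟨xa, xb, xc, xd⟩, ⟨ab, ac, ad⟩, ⟨bc, bd⟩, cd⟩ := hnd
  rw [Finset.sum_insert (by simp [xa, xb, xc, xd]), Finset.sum_insert (by simp [ab, ac, ad]),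
    Finset.sum_insert (by simp [bc, bd]), Finset.sum_insert (by simp [cd]),
    Finset.sum_singleton]
  ring

/-- no edge from `c` to `a`, `b` -/
lemma K5B_caseA {V : Type} [Fintype V] [DecidableEq V] {F : SimpleGraph V} {P : Matrix V V ℝ}
    (h : Dom F P) {x a b c d : V} (hnd : [x, a, b, c, d].Nodup) (hx : dg F x = 3)
    (ha : dg F a = 3) (hb : dg F b = 3) (hd : dg F d = 3) (hxa : F.Adj x a) (hxb : F.Adj x b)
    (hxc : F.Adj x c) (hab : F.Adj a b) (hcd : F.Adj c d) (h1 : ¬ F.Adj a c)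
    (h2 : ¬ F.Adj b c) : Good F P {x, a, b, c, d} := by
  unfold Good
  rw [K5B_sum hnd, K5B_sum hnd]
  simp only [List.nodup_cons, List.mem_cons, List.not_mem_nil, or_false, not_or,
    not_false_eq_true, List.nodup_nil, and_true] at hnd
  obtain ⟨⟨xa, xb, xc, xd⟩, ⟨ab, ac, ad⟩, ⟨bc, bd⟩, cd⟩ := hnd
  have hxd : ¬ F.Adj x d := by
    intro h3
    rcases nb3 hx hxa hxb hxc ab ac bc h3 with h4 | h4 | h4
    · exact ad h4.symm
    · exact bd h4.symm
    · exact cd h4.symm
  have e00 := bq_diag F x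
  have e11 := bq_diag F a
  have e22 := bq_diag F b
  have e33 := bq_diag F c
  have e44 := bq_diag F d
  rw [hx] at e00
  rw [ha] at e11
  rw [hb] at e22
  rw [hd] at e44
  push_cast at e00 e11 e22 e44
  have e01 := bq_adj hxa
  have e02 := bq_adj hxb
  have e03 := bq_adj hxc
  have e04 := bq_not xd hxd
  have e12 := bq_adj hab
  have e13 := bq_not ac h1
  have e14 := K5B_nn F ad
  have e23 := bq_not bc h2
  have e24 := K5B_nn F bd
  have e34 := bq_adj hcd
  rw [hx, ha, hb, hd]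
  push_cast
  have b1 := K5B_B h x a b c d 1 (2/11) (2/11) (6/11) (-3/11)
  have b2 := K5B_B h x a b c d 0 1 (29/117) (-34/117) (17/117)
  have b3 := K5B_B h x a b c d 0 0 1 (-17/73) (17/146)
  have b4 := K5B_B h x a b c d 0 0 0 1 (29/15)
  have b5 := K5B_B h x a b c d 0 0 0 0 1
  have p1 := K5B_P h x a b c d 1 (-2/5) (-2/5) (-6/5) (3/5)
  have p2 := K5B_P h x a b c d 0 1 (-19/21) (-2/21) (1/21)
  have p3 := K5B_P h x a b c d 0 0 1 (-1) (1/2)
  rw [e00, e11, e22, e33, e44, e01, e02, e03, e04, e12, e13, e23, e34] at b1 b2 b3 b4 b5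
  linarith

/-- `a` is adjacent to `c` -/
lemma K5B_caseB {V : Type} [Fintype V] [DecidableEq V] {F : SimpleGraph V} {P : Matrix V V ℝ}
    (h : Dom F P) {x a b c d : V} (hnd : [x, a, b, c, d].Nodup) (hx : dg F x = 3)
    (ha : dg F a = 3) (hb : dg F b = 3) (hc : dg F c = 2 ∨ dg F c = 3)
    (hd : dg F d = 3) (hxa : F.Adj x a) (hxb : F.Adj x b)
    (hxc : F.Adj x c) (hab : F.Adj a b) (hcd : F.Adj c d) (h1 : F.Adj a c) :
    Good F P {x, a, b, c, d} := by
  unfold Good
  rw [K5B_sum hnd, K5B_sum hnd]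
  simp only [List.nodup_cons, List.mem_cons, List.not_mem_nil, or_false, not_or,
    not_false_eq_true, List.nodup_nil, and_true] at hnd
  obtain ⟨⟨xa, xb, xc, xd⟩, ⟨ab, ac, ad⟩, ⟨bc, bd⟩, cd⟩ := hnd
  have hxd : ¬ F.Adj x d := by
    intro h3
    rcases nb3 hx hxa hxb hxc ab ac bc h3 with h4 | h4 | h4
    · exact ad h4.symm
    · exact bd h4.symm
    · exact cd h4.symm
  have hc3 : dg F c = 3 := by
    rcases hc with hc | hc
    · exfalso
      rcases nb2 hc hxc.symm hcd xd h1.symm with h4 | h4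
      · exact xa h4.symm
      · exact ad h4
    · exact hc
  have h2 : ¬ F.Adj b c := by
    intro h3
    rcases nb3 hc3 hxc.symm hcd h1.symm xd xa (Ne.symm ad) h3.symm with h4 | h4 | h4
    · exact xb h4.symm
    · exact bd h4
    · exact ab h4.symm
  have had : ¬ F.Adj a d := by
    intro h3
    rcases nb3 ha hxa.symm hab h1 xb xc bc h3 with h4 | h4 | h4
    · exact xd h4.symm
    · exact bd h4.symm
    · exact cd h4.symm
  have e00 := bq_diag F x
  have e11 := bq_diag F a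
  have e22 := bq_diag F b
  have e33 := bq_diag F c
  have e44 := bq_diag F d
  rw [hx] at e00
  rw [ha] at e11
  rw [hb] at e22
  rw [hc3] at e33
  rw [hd] at e44
  push_cast at e00 e11 e22 e33 e44
  have e01 := bq_adj hxa
  have e02 := bq_adj hxb
  have e03 := bq_adj hxc
  have e04 := bq_not xd hxd
  have e12 := bq_adj hab
  have e13 := bq_adj h1
  have e14 := bq_not ad had
  have e23 := bq_not bc h2
  have e24 := K5B_nn F bd
  have e34 := bq_adj hcd
  rw [hx, ha, hb, hc3, hd]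
  push_cast
  have b1 := K5B_B h x a b c d 1 (1/7) (2/7) (3/7) (-1/7)
  have b2 := K5B_B h x a b c d 0 1 (1/4) (3/8) (-1/8)
  have b3 := K5B_B h x a b c d 0 0 1 (-9/16) (5/16)
  have b4 := K5B_B h x a b c d 0 0 0 1 (133/71)
  have b5 := K5B_B h x a b c d 0 0 0 0 1
  have p1 := K5B_P h x a b c d 1 (-1/5) (-2/5) (-3/5) (1/5)
  have p2 := K5B_P h x a b c d 0 1 (-1/2) (-3/4) (1/4)
  have p3 := K5B_P h x a b c d 0 0 1 0 (-1)
  have p4 := K5B_P h x a b c d 0 0 0 1 (-1)
  rw [e00, e11, e22, e33, e44, e01, e02, e03, e04, e12, e13, e14, e23, e34] at b1 b2 b3 b4 b5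
  linarith

theorem t_K5B : S_K5B := by
  intro V _ _ F P h x a b c c' hnd hdg hx hxa hxb hxc hab hcc ha hb hc'
  have hc : dg F c = 2 ∨ dg F c = 3 := hdg c (by simp)
  by_cases h1 : F.Adj a c
  · exact K5B_caseB h hnd hx ha hb hc hc' hxa hxb hxc hab hcc h1
  · by_cases h2 : F.Adj b c
    · have hnd' : [x, b, a, c, c'].Nodup := by
        simp only [List.nodup_cons, List.mem_cons, List.not_mem_nil, or_false, not_or,
          not_false_eq_true, List.nodup_nil, and_true] at hnd ⊢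
        obtain ⟨⟨xa, xb, xc, xd⟩, ⟨ab, ac, ad⟩, ⟨bc, bd⟩, cd⟩ := hnd
        exact ⟨⟨xb, xa, xc, xd⟩, ⟨Ne.symm ab, bc, bd⟩, ⟨ac, ad⟩, cd⟩
      have h3 := K5B_caseB h hnd' hx hb ha hc hc' hxb hxa hxc hab.symm hcc h2
      rwa [show ({x, b, a, c, c'} : Finset V) = {x, a, b, c, c'} by
        rw [Finset.insert_comm b a]] at h3
    · exact K5B_caseA h hnd hx ha hb hc' hxa hxb hxc hab hcc h1 h2

end H175LG
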