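import Pool.Agent.H175R.LG.Defs

set_option autoImplicit false

namespace H175LG

lemma K5C_sym {V : Type} [Fintype V] [DecidableEq V] (F : SimpleGraph V) (u v : V) :
    BQ F u v = BQ F v u := by
  by_cases h : u = v
  · rw [h]
  · by_cases h' : F.Adj u v
    · rw [bq_adj h', bq_adj h'.symm]
    · rw [bq_not h h', bq_not (Ne.symm h) (fun h2 => h' h2.symm)]

lemma K5C_P {V : Type} [Fintype V] [DecidableEq V] {F : SimpleGraph V} {P : Matrix V V ℝ}
    (h : Dom F P) (x a b c d : V) (p q r s t : ℝ) :
    0 ≤ p * p * P x x + q * q * P a a + r * r * P b b + s * s * P c c + t * t * P d d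
      + 2 * p * q * P x a + 2 * p * r * P x b + 2 * p * s * P x c + 2 * p * t * P x d
      + 2 * q * r * P a b + 2 * q * s * P a c + 2 * q * t * P a d
      + 2 * r * s * P b c + 2 * r * t * P b d + 2 * s * t * P c d := by
  have h1 := quadP h ![x, a, b, c, d] ![p, q, r, s, t]
  simp only [Fin.sum_univ_five, Matrix.cons_val] at h1
  rw [symP h a x, symP h b x, symP h c x, symP h d x, symP h b a, symP h c a, symP h d a,
    symP h c b, symP h d b, symP h d c] at h1
  linarith

lemma K5C_B {V : Type} [Fintype V] [DecidableEq V] {F : SimpleGraph V} {P : Matrix V V ℝ}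
    (h : Dom F P) (x a b c d : V) (p q r s t : ℝ) :
    p * p * BQ F x x + q * q * BQ F a a + r * r * BQ F b b + s * s * BQ F c c
      + t * t * BQ F d d
      + 2 * p * q * BQ F x a + 2 * p * r * BQ F x b + 2 * p * s * BQ F x c + 2 * p * t * BQ F x d
      + 2 * q * r * BQ F a b + 2 * q * s * BQ F a c + 2 * q * t * BQ F a d
      + 2 * r * s * BQ F b c + 2 * r * t * BQ F b d + 2 * s * t * BQ F c d
    ≤ p * p * P x x + q * q * P a a + r * r * P b b + s * s * P c c + t * t * P d d
      + 2 * p * q * P x a + 2 * p * r * P x b + 2 * p * s * P x c + 2 * p * t * P x d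
      + 2 * q * r * P a b + 2 * q * s * P a c + 2 * q * t * P a d
      + 2 * r * s * P b c + 2 * r * t * P b d + 2 * s * t * P c d := by
  have h1 := quadB h ![x, a, b, c, d] ![p, q, r, s, t]
  simp only [Fin.sum_univ_five, Matrix.cons_val] at h1
  rw [symP h a x, symP h b x, symP h c x, symP h d x, symP h b a, symP h c a, symP h d a,
    symP h c b, symP h d b, symP h d c,
    K5C_sym F a x, K5C_sym F b x, K5C_sym F c x, K5C_sym F d x, K5C_sym F b a, K5C_sym F c a,
    K5C_sym F d a, K5C_sym F c b, K5C_sym F d b, K5C_sym F d c] at h1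
  linarith

theorem t_K5C : S_K5C := by
  intro V _ _ F P hD x a b c c' hn hd hx xa xb xc ab cc' ha hb hc' hor
  simp only [List.nodup_cons, List.mem_cons, List.not_mem_nil, or_false, not_or,
    not_false_eq_true, List.nodup_nil, and_true] at hn
  obtain ⟨⟨nxa, nxb, nxc, nxc'⟩, ⟨nab, nac, nac'⟩, ⟨nbc, nbc'⟩, ncc'⟩ := hn
  have hc := hd c (by simp)
  -- the diagonal entries
  have dx : BQ F x x = 1 := by rw [bq_diag, hx]; norm_num
  have da : BQ F a a = 1 := by rw [bq_diag, ha]; norm_num
  have db : BQ F b b = 1 := by rw [bq_diag, hb]; norm_num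
  have dc' : BQ F c' c' = 0 := by rw [bq_diag, hc']; norm_num
  have exa := bq_adj xa
  have exb := bq_adj xb
  have exc := bq_adj xc
  have eab := bq_adj ab
  have ecc' := bq_adj cc'
  have nxc'2 : ¬ F.Adj x c' := by
    intro h
    rcases nb3 hx xa xb xc nab nac nbc h with h | h | h
    · exact nac' h.symm
    · exact nbc' h.symm
    · exact ncc' h.symm
  have exc' := bq_not nxc' nxc'2
  -- the sum
  unfold Good
  have hsum : ∀ f : V → ℝ, ∑ v ∈ ({x, a, b, c, c'} : Finset V), f v =
      f x + f a + f b + f c + f c' := by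
    intro f
    rw [Finset.sum_insert, Finset.sum_insert, Finset.sum_insert, Finset.sum_insert,
      Finset.sum_singleton]
    · ring
    · simpa using ncc'
    · simp [nbc, nbc']
    · simp [nab, nac, nac']
    · simp [nxa, nxb, nxc, nxc']
  rw [hsum, hsum, hx, ha, hb, hc']
  rcases hor with ac | ac'
  · -- `a ~ c`
    have hc3 : dg F c = 3 := by
      rcases hc with h | h
      · exfalso
        rcases nb2 h xc.symm ac.symm nxa cc' with h | h
        · exact nxc' h.symm
        · exact nac' h.symm
      · exact h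
    have dc : BQ F c c = 1 := by rw [bq_diag, hc3]; norm_num
    have eac := bq_adj ac
    have nac'2 : ¬ F.Adj a c' := by
      intro h
      rcases nb3 ha xa.symm ab ac nxb nxc nbc h with h | h | h
      · exact nxc' h.symm
      · exact nbc' h.symm
      · exact ncc' h.symm
    have nbc2 : ¬ F.Adj b c := by
      intro h
      rcases nb3 hc3 xc.symm ac.symm cc' nxa nxc' nac' h.symm with h | h | h
      · exact nxb h.symm
      · exact nab h.symm
      · exact nbc' h
    have eac' := bq_not nac' nac'2
    have ebc := bq_not nbc nbc2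
    have ebc' : 0 ≤ BQ F b c' := by
      by_cases h : F.Adj b c'
      · rw [bq_adj h]; norm_num
      · rw [bq_not nbc' h]
    rw [hc3]
    have k0 := K5C_P hD x a b c c' 1 1 (-1) (-2) 2
    have k1 := K5C_B hD x a b c c' 1 (-1) 0 0 0
    have k2 := K5C_B hD x a b c c' 1 1 2 0 0
    have k3 := K5C_B hD x a b c c' 0 0 0 1 1
    have k4 := K5C_B hD x a b c c' 4 4 (-4) 3 (-3)
    rw [dx, da, db, dc, dc', exa, exb, exc, exc', eab, eac, eac', ebc, ecc'] at k1 k2 k3 k4
    norm_num at k0 k1 k2 k3 k4 ⊢
    linarith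
  · -- `a ~ c'`
    have nac2 : ¬ F.Adj a c := by
      intro h
      rcases nb3 ha xa.symm ab ac' nxb nxc' nbc' h with h | h | h
      · exact nxc h.symm
      · exact nbc h.symm
      · exact ncc' h
    have nbc'2 : ¬ F.Adj b c' := by
      intro h
      rcases nb2 hc' cc'.symm ac'.symm (Ne.symm nac) h.symm with h | h
      · exact nbc h
      · exact nab h.symm
    have eac := bq_not nac nac2
    have ebc' := bq_not nbc' nbc'2
    have eac' := bq_adj ac'
    have k0 := K5C_P hD x a b c c' 1 (-1) 0 (-2) 2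
    have k1 := K5C_B hD x a b c c' 1 1 0 0 0
    have k2 := K5C_B hD x a b c c' 0 0 1 0 0
    have k3 := K5C_B hD x a b c c' 0 0 0 1 1
    have k4 := K5C_B hD x a b c c' 2 (-2) 0 1 (-1)
    rcases hc with hc | hc
    · have dc : BQ F c c = 0 := by rw [bq_diag, hc]; norm_num
      rw [hc]
      rw [dx, da, db, dc, dc', exa, exb, exc, exc', eab, eac, eac', ebc', ecc'] at k1 k2 k3 k4
      norm_num at k0 k1 k2 k3 k4 ⊢
      linarith
    · have dc : BQ F c c = 1 := by rw [bq_diag, hc]; norm_num
      rw [hc]
      rw [dx, da, db, dc, dc', exa, exb, exc, exc', eab, eac, eac', ebc', ecc'] at k1 k2 k3 k4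
      norm_num at k0 k1 k2 k3 k4 ⊢
      linarith

end H175LG
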