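import Pool.Agent.H175R.LG.Defs

/-! Project LG (helper175), task K5P. -/

set_option autoImplicit false
set_option linter.unusedSimpArgs false

namespace H175LG

theorem t_K5P : S_K5P := by
  intro V _ _ F P h a x c p q hnd hax hxc hcp hpq hxq da dx dc dp dq
  have hax' : a ≠ x := by simp at hnd; tauto
  have hac' : a ≠ c := by simp at hnd; tauto
  have hap' : a ≠ p := by simp at hnd; tauto
  have haq' : a ≠ q := by simp at hnd; tauto
  have hxc' : x ≠ c := by simp at hnd; tauto
  have hxp' : x ≠ p := by simp at hnd; tauto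
  have hxq' : x ≠ q := by simp at hnd; tauto
  have hcp' : c ≠ p := by simp at hnd; tauto
  have hcq' : c ≠ q := by simp at hnd; tauto
  have hpq' : p ≠ q := by simp at hnd; tauto
  have nac : ¬ F.Adj a c := fun h1 => by
    rcases nb2 dc hxc.symm hcp hxp' h1.symm with h2 | h2
    · exact hax' h2
    · exact hap' h2
  have nap : ¬ F.Adj a p := fun h1 => by
    rcases nb2 dp hcp.symm hpq hcq' h1.symm with h2 | h2
    · exact hac' h2
    · exact haq' h2
  have nxp : ¬ F.Adj x p := fun h1 => by
    rcases nb2 dp hcp.symm hpq hcq' h1.symm with h2 | h2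
    · exact hxc' h2
    · exact hxq' h2
  have ncq : ¬ F.Adj c q := fun h1 => by
    rcases nb2 dc hxc.symm hcp hxp' h1 with h2 | h2
    · exact hxq' h2.symm
    · exact hpq' h2.symm

  have eax : BQ F a x = 1 := bq_adj hax
  have exa : BQ F x a = 1 := bq_adj hax.symm
  have exc : BQ F x c = 1 := bq_adj hxc
  have ecx : BQ F c x = 1 := bq_adj hxc.symm
  have ecp : BQ F c p = 1 := bq_adj hcp
  have epc : BQ F p c = 1 := bq_adj hcp.symm
  have epq : BQ F p q = 1 := bq_adj hpq
  have eqp : BQ F q p = 1 := bq_adj hpq.symm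
  have eac : BQ F a c = 0 := bq_not hac' nac
  have eca : BQ F c a = 0 := bq_not hac'.symm (fun h1 => nac h1.symm)
  have eap : BQ F a p = 0 := bq_not hap' nap
  have epa : BQ F p a = 0 := bq_not hap'.symm (fun h1 => nap h1.symm)
  have exp : BQ F x p = 0 := bq_not hxp' nxp
  have epx : BQ F p x = 0 := bq_not hxp'.symm (fun h1 => nxp h1.symm)
  have ecq : BQ F c q = 0 := bq_not hcq' ncq
  have eqc : BQ F q c = 0 := bq_not hcq'.symm (fun h1 => ncq h1.symm)
  have exq : BQ F x q = 0 := bq_not hxq' hxq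
  have eqx : BQ F q x = 0 := bq_not hxq'.symm (fun h1 => hxq h1.symm)
  have eaa : BQ F a a = 1 := by rw [bq_diag, da]; norm_num
  have exx : BQ F x x = 1 := by rw [bq_diag, dx]; norm_num
  have ecc : BQ F c c = 0 := by rw [bq_diag, dc]; norm_num
  have epp : BQ F p p = 0 := by rw [bq_diag, dp]; norm_num
  have eqa : BQ F q a = BQ F a q := by
    by_cases h1 : F.Adj a q
    · rw [bq_adj h1, bq_adj h1.symm]
    · rw [bq_not haq' h1, bq_not haq'.symm (fun h2 => h1 h2.symm)]
  have eaq0 : 0 ≤ BQ F a q := by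
    by_cases h1 : F.Adj a q
    · rw [bq_adj h1]; norm_num
    · rw [bq_not haq' h1]
  have eqq : BQ F q q = (dg F q : ℝ) - 2 := bq_diag F q
  have eqq0 : 0 ≤ BQ F q q := by
    rw [eqq]
    rcases dq with h1 | h1 <;> rw [h1] <;> norm_num
  have sax : P x a = P a x := symP h _ _
  have sac : P c a = P a c := symP h _ _
  have sap : P p a = P a p := symP h _ _
  have saq : P q a = P a q := symP h _ _
  have sxc : P c x = P x c := symP h _ _
  have sxp : P p x = P x p := symP h _ _
  have sxq : P q x = P x q := symP h _ _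
  have scp : P p c = P c p := symP h _ _
  have scq : P q c = P c q := symP h _ _
  have spq : P q p = P p q := symP h _ _
  have b0 := quadB h ![a, x, c, p, q] ![(-63), 36, 43, (-18), (-50)]
  simp only [Fin.sum_univ_five, Fin.isValue, Matrix.cons_val_zero, Matrix.cons_val_one, Matrix.cons_val, eax, exa, exc, ecx, ecp, epc, epq, eqp, eac, eca, eap, epa, exp, epx, ecq, eqc, exq, eqx, eaa, exx, ecc, epp, eqa, sax, sac, sap, saq, sxc, sxp, sxq, scp, scq, spq] at b0
  have b1 := quadB h ![a, x, c, p, q] ![42, 15, (-37), (-64), (-51)]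
  simp only [Fin.sum_univ_five, Fin.isValue, Matrix.cons_val_zero, Matrix.cons_val_one, Matrix.cons_val, eax, exa, exc, ecx, ecp, epc, epq, eqp, eac, eca, eap, epa, exp, epx, ecq, eqc, exq, eqx, eaa, exx, ecc, epp, eqa, sax, sac, sap, saq, sxc, sxp, sxq, scp, scq, spq] at b1
  have b2 := quadB h ![a, x, c, p, q] ![54, 71, 40, 21, 9]
  simp only [Fin.sum_univ_five, Fin.isValue, Matrix.cons_val_zero, Matrix.cons_val_one, Matrix.cons_val, eax, exa, exc, ecx, ecp, epc, epq, eqp, eac, eca, eap, epa, exp, epx, ecq, eqc, exq, eqx, eaa, exx, ecc, epp, eqa, sax, sac, sap, saq, sxc, sxp, sxq, scp, scq, spq] at b2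
  have w0 := quadP h ![a, x, c, p, q] ![11, (-28), 59, (-64), 39]
  simp only [Fin.sum_univ_five, Fin.isValue, Matrix.cons_val_zero, Matrix.cons_val_one, Matrix.cons_val, eax, exa, exc, ecx, ecp, epc, epq, eqp, eac, eca, eap, epa, exp, epx, ecq, eqc, exq, eqx, eaa, exx, ecc, epp, eqa, sax, sac, sap, saq, sxc, sxp, sxq, scp, scq, spq] at w0
  have w1 := quadP h ![a, x, c, p, q] ![(-35), 52, (-42), (-32), 57]
  simp only [Fin.sum_univ_five, Fin.isValue, Matrix.cons_val_zero, Matrix.cons_val_one, Matrix.cons_val, eax, exa, exc, ecx, ecp, epc, epq, eqp, eac, eca, eap, epa, exp, epx, ecq, eqc, exq, eqx, eaa, exx, ecc, epp, eqa, sax, sac, sap, saq, sxc, sxp, sxq, scp, scq, spq] at w1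
  have raxp := quadP h ![a, x] ![1, 1]
  simp only [Fin.sum_univ_two, Fin.isValue, Matrix.cons_val_zero, Matrix.cons_val_one, Matrix.cons_val, sax] at raxp
  have raxm := quadP h ![a, x] ![1, (-1)]
  simp only [Fin.sum_univ_two, Fin.isValue, Matrix.cons_val_zero, Matrix.cons_val_one, Matrix.cons_val, sax] at raxm
  have racp := quadP h ![a, c] ![1, 1]
  simp only [Fin.sum_univ_two, Fin.isValue, Matrix.cons_val_zero, Matrix.cons_val_one, Matrix.cons_val, sac] at racp
  have racm := quadP h ![a, c] ![1, (-1)]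
  simp only [Fin.sum_univ_two, Fin.isValue, Matrix.cons_val_zero, Matrix.cons_val_one, Matrix.cons_val, sac] at racm
  have rapp := quadP h ![a, p] ![1, 1]
  simp only [Fin.sum_univ_two, Fin.isValue, Matrix.cons_val_zero, Matrix.cons_val_one, Matrix.cons_val, sap] at rapp
  have rapm := quadP h ![a, p] ![1, (-1)]
  simp only [Fin.sum_univ_two, Fin.isValue, Matrix.cons_val_zero, Matrix.cons_val_one, Matrix.cons_val, sap] at rapm
  have raqp := quadP h ![a, q] ![1, 1]
  simp only [Fin.sum_univ_two, Fin.isValue, Matrix.cons_val_zero, Matrix.cons_val_one, Matrix.cons_val, saq] at raqp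
  have raqm := quadP h ![a, q] ![1, (-1)]
  simp only [Fin.sum_univ_two, Fin.isValue, Matrix.cons_val_zero, Matrix.cons_val_one, Matrix.cons_val, saq] at raqm
  have rxcp := quadP h ![x, c] ![1, 1]
  simp only [Fin.sum_univ_two, Fin.isValue, Matrix.cons_val_zero, Matrix.cons_val_one, Matrix.cons_val, sxc] at rxcp
  have rxcm := quadP h ![x, c] ![1, (-1)]
  simp only [Fin.sum_univ_two, Fin.isValue, Matrix.cons_val_zero, Matrix.cons_val_one, Matrix.cons_val, sxc] at rxcm
  have rxpp := quadP h ![x, p] ![1, 1]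
  simp only [Fin.sum_univ_two, Fin.isValue, Matrix.cons_val_zero, Matrix.cons_val_one, Matrix.cons_val, sxp] at rxpp
  have rxpm := quadP h ![x, p] ![1, (-1)]
  simp only [Fin.sum_univ_two, Fin.isValue, Matrix.cons_val_zero, Matrix.cons_val_one, Matrix.cons_val, sxp] at rxpm
  have rxqp := quadP h ![x, q] ![1, 1]
  simp only [Fin.sum_univ_two, Fin.isValue, Matrix.cons_val_zero, Matrix.cons_val_one, Matrix.cons_val, sxq] at rxqp
  have rxqm := quadP h ![x, q] ![1, (-1)]
  simp only [Fin.sum_univ_two, Fin.isValue, Matrix.cons_val_zero, Matrix.cons_val_one, Matrix.cons_val, sxq] at rxqm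
  have rcpp := quadP h ![c, p] ![1, 1]
  simp only [Fin.sum_univ_two, Fin.isValue, Matrix.cons_val_zero, Matrix.cons_val_one, Matrix.cons_val, scp] at rcpp
  have rcpm := quadP h ![c, p] ![1, (-1)]
  simp only [Fin.sum_univ_two, Fin.isValue, Matrix.cons_val_zero, Matrix.cons_val_one, Matrix.cons_val, scp] at rcpm
  have rcqp := quadP h ![c, q] ![1, 1]
  simp only [Fin.sum_univ_two, Fin.isValue, Matrix.cons_val_zero, Matrix.cons_val_one, Matrix.cons_val, scq] at rcqp
  have rcqm := quadP h ![c, q] ![1, (-1)]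
  simp only [Fin.sum_univ_two, Fin.isValue, Matrix.cons_val_zero, Matrix.cons_val_one, Matrix.cons_val, scq] at rcqm
  have rpqp := quadP h ![p, q] ![1, 1]
  simp only [Fin.sum_univ_two, Fin.isValue, Matrix.cons_val_zero, Matrix.cons_val_one, Matrix.cons_val, spq] at rpqp
  have rpqm := quadP h ![p, q] ![1, (-1)]
  simp only [Fin.sum_univ_two, Fin.isValue, Matrix.cons_val_zero, Matrix.cons_val_one, Matrix.cons_val, spq] at rpqm
  have goal1 : 4 + BQ F q q / 2 ≤ P a a + P x x + P c c + P p p + P q q := by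
    linarith
  unfold Good
  have hs : ∀ f : V → ℝ, ∑ v ∈ ({a, x, c, p, q} : Finset V), f v = f a + f x + f c + f p + f q := by
    intro f
    rw [Finset.sum_insert (by simp [hax', hac', hap', haq']),
      Finset.sum_insert (by simp [hxc', hxp', hxq']),
      Finset.sum_insert (by simp [hcp', hcq']), Finset.sum_insert (by simp [hpq']),
      Finset.sum_singleton]
    ring
  rw [hs, hs, da, dx, dc, dp]
  rw [eqq] at goal1
  push_cast
  linarith

end H175LG
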