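import Pool.Agent.H175R.LG.Defs

set_option autoImplicit false
open scoped BigOperators Matrix

namespace H175LG

/-- adjacency matrix of the 5-cycle -/
def K5R_B (i j : Fin 5) : ℝ := if i + 1 = j ∨ j + 1 = i then 1 else 0

theorem K5R_core (p : Fin 5 → Fin 5 → ℝ) (hs : ∀ i j, p i j = p j i)
    (h1 : ∀ t : Fin 5 → ℝ, 0 ≤ ∑ i, ∑ j, t i * t j * p i j)
    (h2 : ∀ t : Fin 5 → ℝ, 0 ≤ ∑ i, ∑ j, t i * t j * (p i j - K5R_B i j)) :
    3 ≤ p 0 0 + p 1 1 + p 2 2 + p 3 3 + p 4 4 := by
  have B00 : K5R_B 0 0 = 0 := if_neg (by decide)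
  have B11 : K5R_B 1 1 = 0 := if_neg (by decide)
  have B22 : K5R_B 2 2 = 0 := if_neg (by decide)
  have B33 : K5R_B 3 3 = 0 := if_neg (by decide)
  have B44 : K5R_B 4 4 = 0 := if_neg (by decide)
  have B01 : K5R_B 0 1 = 1 := if_pos (by decide)
  have B10 : K5R_B 1 0 = 1 := if_pos (by decide)
  have B12 : K5R_B 1 2 = 1 := if_pos (by decide)
  have B21 : K5R_B 2 1 = 1 := if_pos (by decide)
  have B23 : K5R_B 2 3 = 1 := if_pos (by decide)
  have B32 : K5R_B 3 2 = 1 := if_pos (by decide)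
  have B34 : K5R_B 3 4 = 1 := if_pos (by decide)
  have B43 : K5R_B 4 3 = 1 := if_pos (by decide)
  have B40 : K5R_B 4 0 = 1 := if_pos (by decide)
  have B04 : K5R_B 0 4 = 1 := if_pos (by decide)
  have B02 : K5R_B 0 2 = 0 := if_neg (by decide)
  have B20 : K5R_B 2 0 = 0 := if_neg (by decide)
  have B03 : K5R_B 0 3 = 0 := if_neg (by decide)
  have B30 : K5R_B 3 0 = 0 := if_neg (by decide)
  have B13 : K5R_B 1 3 = 0 := if_neg (by decide)
  have B31 : K5R_B 3 1 = 0 := if_neg (by decide)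
  have B14 : K5R_B 1 4 = 0 := if_neg (by decide)
  have B41 : K5R_B 4 1 = 0 := if_neg (by decide)
  have B24 : K5R_B 2 4 = 0 := if_neg (by decide)
  have B42 : K5R_B 4 2 = 0 := if_neg (by decide)
  have e10 := hs 1 0
  have e20 := hs 2 0
  have e30 := hs 3 0
  have e40 := hs 4 0
  have e21 := hs 2 1
  have e31 := hs 3 1
  have e41 := hs 4 1
  have e32 := hs 3 2
  have e42 := hs 4 2
  have e43 := hs 4 3
  have a0 := h2 ![1, 1, 1, 1, 1]
  have a1 := h2 ![4, 1, -3, -3, 1]
  have a2 := h2 ![1, 4, 1, -3, -3]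
  have a3 := h2 ![-3, 1, 4, 1, -3]
  have a4 := h2 ![-3, -3, 1, 4, 1]
  have a5 := h2 ![1, -3, -3, 1, 4]
  have b1 := h1 ![4, -3, 1, 1, -3]
  have b2 := h1 ![-3, 4, -3, 1, 1]
  have b3 := h1 ![1, -3, 4, -3, 1]
  have b4 := h1 ![1, 1, -3, 4, -3]
  have b5 := h1 ![-3, 1, 1, -3, 4]
  simp only [Fin.sum_univ_five, Matrix.cons_val, B00, B11, B22, B33, B44, B01, B10, B12, B21, B23,
    B32, B34, B43, B40, B04, B02, B20, B03, B30, B13, B31, B14, B41, B24, B42, e10, e20, e30, e40,
    e21, e31, e41, e32, e42, e43] at a0 a1 a2 a3 a4 a5 b1 b2 b3 b4 b5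
  linarith

theorem K5R_ne {V : Type} [Fintype V] [DecidableEq V] {F : SimpleGraph V} {x a b y : V}
    (h : dg F x = 2) (ha : F.Adj x a) (hb : F.Adj x b) (hab : a ≠ b) (h1 : y ≠ a) (h2 : y ≠ b) :
    ¬ F.Adj x y := fun hy => by
  rcases nb2 h ha hb hab hy with h3 | h3
  · exact h1 h3
  · exact h2 h3

theorem t_K5R : S_K5R := by
  intro V _ _ F P hD a b c d e hnd hab hbc hcd hde hea hdg
  simp only [List.nodup_cons, List.mem_cons, List.not_mem_nil, or_false, not_or,
    List.nodup_nil, and_true, not_false_eq_true] at hnd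
  obtain ⟨⟨nab, nac, nad, nae⟩, ⟨nbc, nbd, nbe⟩, ⟨ncd, nce⟩, nde⟩ := hnd
  have da : dg F a = 2 := hdg a (by simp)
  have db : dg F b = 2 := hdg b (by simp)
  have dc : dg F c = 2 := hdg c (by simp)
  have dd : dg F d = 2 := hdg d (by simp)
  have de : dg F e = 2 := hdg e (by simp)
  have xac : ¬ F.Adj a c := K5R_ne da hab hea.symm nbe (Ne.symm nbc) nce
  have xad : ¬ F.Adj a d := K5R_ne da hab hea.symm nbe (Ne.symm nbd) nde
  have xbd : ¬ F.Adj b d := K5R_ne db hab.symm hbc nac (Ne.symm nad) (Ne.symm ncd)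
  have xbe : ¬ F.Adj b e := K5R_ne db hab.symm hbc nac (Ne.symm nae) (Ne.symm nce)
  have xce : ¬ F.Adj c e := K5R_ne dc hbc.symm hcd nbd (Ne.symm nbe) (Ne.symm nde)
  have hBQ : ∀ i j : Fin 5, BQ F (![a, b, c, d, e] i) (![a, b, c, d, e] j) = K5R_B i j := by
    intro i j
    fin_cases i <;> fin_cases j
    · show BQ F a a = K5R_B 0 0
      rw [bq_diag, da]; exact (by norm_num : ((2 : ℕ) : ℝ) - 2 = 0).trans (if_neg (by decide)).symm
    · exact (bq_adj hab).trans (if_pos (by decide)).symm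
    · exact (bq_not nac xac).trans (if_neg (by decide)).symm
    · exact (bq_not nad xad).trans (if_neg (by decide)).symm
    · exact (bq_adj hea.symm).trans (if_pos (by decide)).symm
    · exact (bq_adj hab.symm).trans (if_pos (by decide)).symm
    · show BQ F b b = K5R_B 1 1
      rw [bq_diag, db]; exact (by norm_num : ((2 : ℕ) : ℝ) - 2 = 0).trans (if_neg (by decide)).symm
    · exact (bq_adj hbc).trans (if_pos (by decide)).symm
    · exact (bq_not nbd xbd).trans (if_neg (by decide)).symm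
    · exact (bq_not nbe xbe).trans (if_neg (by decide)).symm
    · exact (bq_not (Ne.symm nac) fun h => xac h.symm).trans (if_neg (by decide)).symm
    · exact (bq_adj hbc.symm).trans (if_pos (by decide)).symm
    · show BQ F c c = K5R_B 2 2
      rw [bq_diag, dc]; exact (by norm_num : ((2 : ℕ) : ℝ) - 2 = 0).trans (if_neg (by decide)).symm
    · exact (bq_adj hcd).trans (if_pos (by decide)).symm
    · exact (bq_not nce xce).trans (if_neg (by decide)).symm
    · exact (bq_not (Ne.symm nad) fun h => xad h.symm).trans (if_neg (by decide)).symm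
    · exact (bq_not (Ne.symm nbd) fun h => xbd h.symm).trans (if_neg (by decide)).symm
    · exact (bq_adj hcd.symm).trans (if_pos (by decide)).symm
    · show BQ F d d = K5R_B 3 3
      rw [bq_diag, dd]; exact (by norm_num : ((2 : ℕ) : ℝ) - 2 = 0).trans (if_neg (by decide)).symm
    · exact (bq_adj hde).trans (if_pos (by decide)).symm
    · exact (bq_adj hea).trans (if_pos (by decide)).symm
    · exact (bq_not (Ne.symm nbe) fun h => xbe h.symm).trans (if_neg (by decide)).symm
    · exact (bq_not (Ne.symm nce) fun h => xce h.symm).trans (if_neg (by decide)).symm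
    · exact (bq_adj hde.symm).trans (if_pos (by decide)).symm
    · show BQ F e e = K5R_B 4 4
      rw [bq_diag, de]; exact (by norm_num : ((2 : ℕ) : ℝ) - 2 = 0).trans (if_neg (by decide)).symm
  have hcore := K5R_core (fun i j => P (![a, b, c, d, e] i) (![a, b, c, d, e] j))
    (fun i j => symP hD _ _) (fun t => quadP hD ![a, b, c, d, e] t) (fun t => by
      have h := quadB hD ![a, b, c, d, e] t
      simp only [hBQ] at h
      exact h)
  have hcore' : 3 ≤ P a a + P b b + P c c + P d d + P e e := hcore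
  unfold Good
  have hsum : ∀ φ : V → ℝ, ∑ v ∈ ({a, b, c, d, e} : Finset V), φ v = φ a + φ b + φ c + φ d + φ e := by
    intro φ
    rw [Finset.sum_insert, Finset.sum_insert, Finset.sum_insert, Finset.sum_insert,
      Finset.sum_singleton]
    · ring
    · simpa using nde
    · simp only [Finset.mem_insert, Finset.mem_singleton, not_or]
      exact ⟨ncd, nce⟩
    · simp only [Finset.mem_insert, Finset.mem_singleton, not_or]
      exact ⟨nbc, nbd, nbe⟩
    · simp only [Finset.mem_insert, Finset.mem_singleton, not_or]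
      exact ⟨nab, nac, nad, nae⟩
  rw [hsum, hsum, da, db, dc, dd, de]
  push_cast
  linarith

end H175LG
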