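import Pool.Agent.H175R.LG.Defs

/-! Task K7 (helper70): the spider block. -/

set_option autoImplicit false
open scoped BigOperators Matrix

namespace H175LG

lemma K7_deg {V : Type} [Fintype V] [DecidableEq V] (F : SimpleGraph V) (v : V) (S : Finset V)
    (hv : v ∉ S) : ∑ w ∈ S, BQ F v w ≤ (dg F v : ℝ) := by
  classical
  have h1 : ∀ w ∈ S, BQ F v w = if F.Adj v w then (1 : ℝ) else 0 := by
    intro w hw
    have hne : v ≠ w := by rintro rfl; exact hv hw
    by_cases hadj : F.Adj v w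
    · rw [bq_adj hadj, if_pos hadj]
    · rw [bq_not hne hadj, if_neg hadj]
  rw [Finset.sum_congr rfl h1, Finset.sum_boole]
  unfold dg
  norm_cast
  refine le_trans (Finset.card_le_card (Finset.filter_subset_filter _ (Finset.subset_univ S)))
    (le_of_eq ?_)
  congr!

lemma K7_nonneg {V : Type} [Fintype V] [DecidableEq V] (F : SimpleGraph V) {u v : V}
    (h : u ≠ v) : 0 ≤ BQ F u v := by
  by_cases hadj : F.Adj u v
  · rw [bq_adj hadj]; norm_num
  · rw [bq_not h hadj]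

lemma K7_symm {V : Type} [Fintype V] [DecidableEq V] (F : SimpleGraph V) (u v : V) :
    BQ F u v = BQ F v u := by
  by_cases h : u = v
  · rw [h]
  · by_cases hadj : F.Adj u v
    · rw [bq_adj hadj, bq_adj hadj.symm]
    · rw [bq_not h hadj, bq_not (Ne.symm h) (fun h' => hadj h'.symm)]

lemma K7_sum (t0 t1 t2 t3 t4 t5 t6 : ℝ) (M : Fin 7 → Fin 7 → ℝ) (hM : ∀ i j, M i j = M j i) :
    ∑ i, ∑ j, (![t0, t1, t2, t3, t4, t5, t6] : Fin 7 → ℝ) i *
      (![t0, t1, t2, t3, t4, t5, t6] : Fin 7 → ℝ) j * M i j =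
    t0 * t0 * M 0 0 + t1 * t1 * M 1 1 + t2 * t2 * M 2 2 + t3 * t3 * M 3 3 + t4 * t4 * M 4 4 +
      t5 * t5 * M 5 5 + t6 * t6 * M 6 6 +
      2 * (t0 * t1 * M 0 1 + t0 * t2 * M 0 2 + t0 * t3 * M 0 3 + t0 * t4 * M 0 4 +
        t0 * t5 * M 0 5 + t0 * t6 * M 0 6 + t1 * t2 * M 1 2 + t1 * t3 * M 1 3 + t1 * t4 * M 1 4 +
        t1 * t5 * M 1 5 + t1 * t6 * M 1 6 + t2 * t3 * M 2 3 + t2 * t4 * M 2 4 + t2 * t5 * M 2 5 +
        t2 * t6 * M 2 6 + t3 * t4 * M 3 4 + t3 * t5 * M 3 5 + t3 * t6 * M 3 6 + t4 * t5 * M 4 5 +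
        t4 * t6 * M 4 6 + t5 * t6 * M 5 6) := by
  have e0 : (![t0, t1, t2, t3, t4, t5, t6] : Fin 7 → ℝ) 0 = t0 := rfl
  have e1 : (![t0, t1, t2, t3, t4, t5, t6] : Fin 7 → ℝ) 1 = t1 := rfl
  have e2 : (![t0, t1, t2, t3, t4, t5, t6] : Fin 7 → ℝ) 2 = t2 := rfl
  have e3 : (![t0, t1, t2, t3, t4, t5, t6] : Fin 7 → ℝ) 3 = t3 := rfl
  have e4 : (![t0, t1, t2, t3, t4, t5, t6] : Fin 7 → ℝ) 4 = t4 := rfl
  have e5 : (![t0, t1, t2, t3, t4, t5, t6] : Fin 7 → ℝ) 5 = t5 := rfl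
  have e6 : (![t0, t1, t2, t3, t4, t5, t6] : Fin 7 → ℝ) 6 = t6 := rfl
  simp only [Fin.sum_univ_seven, e0, e1, e2, e3, e4, e5, e6]
  rw [hM 1 0, hM 2 0, hM 3 0, hM 4 0, hM 5 0, hM 6 0, hM 2 1, hM 3 1, hM 4 1, hM 5 1, hM 6 1,
    hM 3 2, hM 4 2, hM 5 2, hM 6 2, hM 4 3, hM 5 3, hM 6 3, hM 5 4, hM 6 4, hM 6 5]
  ring

/-- the linear algebra of the certificate -/
lemma K7_cert (p q : Fin 7 → Fin 7 → ℝ) (hp : ∀ i j, p i j = p j i) (hq : ∀ i j, q i j = q j i)
    (HP : ∀ t : Fin 7 → ℝ, 0 ≤ ∑ i, ∑ j, t i * t j * p i j)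
    (HB : ∀ t : Fin 7 → ℝ, 0 ≤ ∑ i, ∑ j, t i * t j * (p i j - q i j)) :
    1200 * (39 / 48) * q 0 0 +
      1200 * 2 * (9 / 48) * (q 0 1 + q 0 2 + q 0 3) -
      1200 * 2 * (6 / 48) * (q 0 4 + q 0 5 + q 0 6) +
      1200 * (5725 / 10000) * (q 1 1 + q 2 2 + q 3 3) +
      1200 * (49 / 100) * (q 4 4 + q 5 5 + q 6 6) -
      1200 * 2 * (675 / 10000) * (q 1 2 + q 1 3 + q 2 3) +
      1200 * 2 * (445 / 1000) * (q 1 4 + q 2 5 + q 3 6) -
      1200 * 2 * (35 / 1000) * (q 1 5 + q 1 6 + q 2 4 + q 2 6 + q 3 4 + q 3 5) +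
      1200 * 2 * (13 / 100) * (q 4 5 + q 4 6 + q 5 6) ≤
    1200 * (p 0 0 + p 1 1 + p 2 2 + p 3 3 + p 4 4 + p 5 5 + p 6 6) := by
  have hpq : ∀ i j, (fun i j => p i j - q i j) i j = (fun i j => p i j - q i j) j i := by
    intro i j
    simp only
    rw [hp i j, hq i j]
  have w := HP ![3, -3, -3, -3, 2, 2, 2]
  have z1 := HP ![0, 3, -3, 0, -4, 4, 0]
  have z2 := HP ![0, 3, 3, -6, -4, -4, 8]
  have v1 := HB ![3, 1, 1, 1, 0, 0, 0]
  have v2 := HB ![1, -1, -1, -1, -2, -2, -2]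
  have u1 := HB ![0, 4, -4, 0, 3, -3, 0]
  have u2 := HB ![0, 4, 4, -8, 3, 3, -6]
  rw [K7_sum _ _ _ _ _ _ _ p hp] at w z1 z2
  rw [K7_sum _ _ _ _ _ _ _ (fun i j => p i j - q i j) hpq] at v1 v2 u1 u2
  linear_combination (1200 / 48) * w + (1200 / 50) * z1 + (1200 / 150) * z2 + (1200 / 12) * v1 +
    (1200 / 16) * v2 + (1200 / 50) * u1 + (1200 / 150) * u2

theorem t_K7 : S_K7 := by
  intro V _ _ F P hD x a b c a' b' c' hnd hdg hdx hxa hxb hxc haa hbb hcc
  simp only [List.nodup_cons, List.mem_cons, List.not_mem_nil, or_false, not_or,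
    not_false_eq_true, List.nodup_nil, and_true] at hnd
  obtain ⟨⟨n01, n02, n03, n04, n05, n06⟩, ⟨n12, n13, n14, n15, n16⟩, ⟨n23, n24, n25, n26⟩,
    ⟨n34, n35, n36⟩, ⟨n45, n46⟩, n56⟩ := hnd
  have da : dg F a = 2 ∨ dg F a = 3 := hdg a (by simp)
  have db : dg F b = 2 ∨ dg F b = 3 := hdg b (by simp)
  have dc : dg F c = 2 ∨ dg F c = 3 := hdg c (by simp)
  have da' : dg F a' = 2 ∨ dg F a' = 3 := hdg a' (by simp)
  have db' : dg F b' = 2 ∨ dg F b' = 3 := hdg b' (by simp)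
  have dc' : dg F c' = 2 ∨ dg F c' = 3 := hdg c' (by simp)
  have hreal : ∀ n : ℕ, n = 2 ∨ n = 3 → (2 : ℝ) ≤ n ∧ (n : ℝ) ≤ 3 := by
    intro n hn
    rcases hn with rfl | rfl <;> norm_num
  obtain ⟨ra1, ra2⟩ := hreal _ da
  obtain ⟨rb1, rb2⟩ := hreal _ db
  obtain ⟨rc1, rc2⟩ := hreal _ dc
  obtain ⟨ra1', ra2'⟩ := hreal _ da'
  obtain ⟨rb1', rb2'⟩ := hreal _ db'
  obtain ⟨rc1', rc2'⟩ := hreal _ dc'
  have cert := K7_cert (fun i j => P ((![x, a, b, c, a', b', c'] : Fin 7 → V) i)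
      ((![x, a, b, c, a', b', c'] : Fin 7 → V) j))
    (fun i j => BQ F ((![x, a, b, c, a', b', c'] : Fin 7 → V) i)
      ((![x, a, b, c, a', b', c'] : Fin 7 → V) j))
    (fun i j => symP hD _ _) (fun i j => K7_symm F _ _)
    (fun t => quadP hD _ t) (fun t => quadB hD _ t)
  have e0 : (![x, a, b, c, a', b', c'] : Fin 7 → V) 0 = x := rfl
  have e1 : (![x, a, b, c, a', b', c'] : Fin 7 → V) 1 = a := rfl
  have e2 : (![x, a, b, c, a', b', c'] : Fin 7 → V) 2 = b := rfl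
  have e3 : (![x, a, b, c, a', b', c'] : Fin 7 → V) 3 = c := rfl
  have e4 : (![x, a, b, c, a', b', c'] : Fin 7 → V) 4 = a' := rfl
  have e5 : (![x, a, b, c, a', b', c'] : Fin 7 → V) 5 = b' := rfl
  have e6 : (![x, a, b, c, a', b', c'] : Fin 7 → V) 6 = c' := rfl
  simp only [e0, e1, e2, e3, e4, e5, e6] at cert
  rw [bq_diag, bq_diag, bq_diag, bq_diag, bq_diag, bq_diag, bq_diag, bq_adj hxa, bq_adj hxb,
    bq_adj hxc, bq_adj haa, bq_adj hbb, bq_adj hcc] at cert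
  -- degrees
  have sx := K7_deg F x {a, b, c, a', b', c'} (by simp [n01, n02, n03, n04, n05, n06])
  have sa := K7_deg F a {x, a', b, c, b', c'} (by simp [Ne.symm n01, n12, n13, n14, n15, n16])
  have sb := K7_deg F b {x, b', a, c, a', c'} (by
    simp [Ne.symm n02, Ne.symm n12, n23, n24, n25, n26])
  have sc := K7_deg F c {x, c', a, b, a', b'} (by
    simp [Ne.symm n03, Ne.symm n13, Ne.symm n23, n34, n35, n36])
  rw [Finset.sum_insert (by simp [n12, n13, n14, n15, n16]),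
    Finset.sum_insert (by simp [n23, n24, n25, n26]), Finset.sum_insert (by simp [n34, n35, n36]),
    Finset.sum_insert (by simp [n45, n46]), Finset.sum_insert (by simp [n56]),
    Finset.sum_singleton, bq_adj hxa, bq_adj hxb, bq_adj hxc, hdx] at sx
  rw [Finset.sum_insert (by simp [n02, n03, n04, n05, n06]),
    Finset.sum_insert (by simp [Ne.symm n24, Ne.symm n34, n45, n46]),
    Finset.sum_insert (by simp [n23, n25, n26]), Finset.sum_insert (by simp [n35, n36]),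
    Finset.sum_insert (by simp [n56]), Finset.sum_singleton, bq_adj hxa.symm, bq_adj haa] at sa
  rw [Finset.sum_insert (by simp [n01, n03, n04, n05, n06]),
    Finset.sum_insert (by simp [Ne.symm n15, Ne.symm n35, Ne.symm n45, n56]),
    Finset.sum_insert (by simp [n13, n14, n16]), Finset.sum_insert (by simp [n34, n36]),
    Finset.sum_insert (by simp [n46]), Finset.sum_singleton, bq_adj hxb.symm, bq_adj hbb,
    K7_symm F b a] at sb
  rw [Finset.sum_insert (by simp [n01, n02, n04, n05, n06]),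
    Finset.sum_insert (by simp [Ne.symm n16, Ne.symm n26, Ne.symm n46, Ne.symm n56]),
    Finset.sum_insert (by simp [n12, n14, n15]), Finset.sum_insert (by simp [n24, n25]),
    Finset.sum_insert (by simp [n45]), Finset.sum_singleton, bq_adj hxc.symm, bq_adj hcc,
    K7_symm F c a, K7_symm F c b] at sc
  have q04 := K7_nonneg F n04
  have q05 := K7_nonneg F n05
  have q06 := K7_nonneg F n06
  have q12 := K7_nonneg F n12
  have q13 := K7_nonneg F n13
  have q23 := K7_nonneg F n23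
  have q15 := K7_nonneg F n15
  have q16 := K7_nonneg F n16
  have q24 := K7_nonneg F n24
  have q26 := K7_nonneg F n26
  have q34 := K7_nonneg F n34
  have q35 := K7_nonneg F n35
  have q45 := K7_nonneg F n45
  have q46 := K7_nonneg F n46
  have q56 := K7_nonneg F n56
  have hdx' : (dg F x : ℝ) = 3 := by exact_mod_cast hdx
  unfold Good
  rw [Finset.sum_insert (by simp [n01, n02, n03, n04, n05, n06]),
    Finset.sum_insert (by simp [n12, n13, n14, n15, n16]),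
    Finset.sum_insert (by simp [n23, n24, n25, n26]), Finset.sum_insert (by simp [n34, n35, n36]),
    Finset.sum_insert (by simp [n45, n46]), Finset.sum_insert (by simp [n56]),
    Finset.sum_singleton, Finset.sum_insert (by simp [n01, n02, n03, n04, n05, n06]),
    Finset.sum_insert (by simp [n12, n13, n14, n15, n16]),
    Finset.sum_insert (by simp [n23, n24, n25, n26]), Finset.sum_insert (by simp [n34, n35, n36]),
    Finset.sum_insert (by simp [n45, n46]), Finset.sum_insert (by simp [n56]),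
    Finset.sum_singleton]
  rw [hdx'] at cert ⊢
  push_cast at sx
  linarith

end H175LG
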