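import Pool.Agent.H175R.LG.Defs

/-!
# K7P: the path with 7 vertices of degree 2
-/

set_option autoImplicit false
open scoped BigOperators Matrix

namespace H175LG

lemma K7P_symB {V : Type} [Fintype V] [DecidableEq V] (F : SimpleGraph V) (u v : V) :
    BQ F u v = BQ F v u := by
  by_cases h : u = v
  · subst h; rfl
  · by_cases h' : F.Adj u v
    · rw [bq_adj h', bq_adj h'.symm]
    · rw [bq_not h h', bq_not (Ne.symm h) (fun h'' => h' h''.symm)]

/-- the quadratic form at four vertices -/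
def K7P_Q {V : Type} (M : V → V → ℝ) (i b d g : V) (s x y z : ℝ) : ℝ :=
  s ^ 2 * M i i + x ^ 2 * M b b + y ^ 2 * M d d + z ^ 2 * M g g + 2 * s * x * M i b
    + 2 * s * y * M i d + 2 * s * z * M i g + 2 * x * y * M b d + 2 * x * z * M b g
    + 2 * y * z * M d g

lemma K7P_exp {V : Type} (M : V → V → ℝ) (hM : ∀ u v, M u v = M v u) (i b d g : V)
    (s x y z : ℝ) :
    ∑ k, ∑ l, (![s, x, y, z] : Fin 4 → ℝ) k * (![s, x, y, z] : Fin 4 → ℝ) l *
      M ((![i, b, d, g] : Fin 4 → V) k) ((![i, b, d, g] : Fin 4 → V) l)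
      = K7P_Q M i b d g s x y z := by
  simp only [Fin.sum_univ_four, Matrix.cons_val_zero, Matrix.cons_val_one, Matrix.cons_val,
    K7P_Q]
  rw [hM b i, hM d i, hM g i, hM d b, hM g b, hM g d]
  ring

lemma K7P_q {V : Type} [Fintype V] [DecidableEq V] {F : SimpleGraph V} {P : Matrix V V ℝ}
    (h : Dom F P) (i b d g : V) (s x y z : ℝ) : 0 ≤ K7P_Q P i b d g s x y z := by
  have h1 := quadP h ![i, b, d, g] ![s, x, y, z]
  rwa [K7P_exp P (symP h)] at h1

lemma K7P_qB {V : Type} [Fintype V] [DecidableEq V] {F : SimpleGraph V} {P : Matrix V V ℝ}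
    (h : Dom F P) (i b d g : V) (s x y z : ℝ) :
    0 ≤ K7P_Q P i b d g s x y z - K7P_Q (BQ F) i b d g s x y z := by
  have h1 := quadB h ![i, b, d, g] ![s, x, y, z]
  rw [K7P_exp (fun u v => P u v - BQ F u v)
    (fun u v => by rw [symP h u v, K7P_symB F u v])] at h1
  refine h1.trans (le_of_eq ?_)
  simp only [K7P_Q]
  ring

theorem t_K7P : S_K7P := by
  intro V _ _ F P hD a b c d e g h hnd hab hbc hcd hde heg hgh hdeg
  simp only [List.nodup_cons, List.mem_cons, List.not_mem_nil, not_or, or_false, not_false_eq_true,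
    List.nodup_nil, and_true] at hnd
  obtain ⟨⟨nab, nac, nad, nae, nag, nah⟩, ⟨nbc, nbd, nbe, nbg, nbh⟩, ⟨ncd, nce, ncg, nch⟩,
    ⟨nde, ndg, ndh⟩, ⟨neg, neh⟩, ngh⟩ := hnd
  have dega : dg F a = 2 := hdeg a (by simp)
  have degb : dg F b = 2 := hdeg b (by simp)
  have degc : dg F c = 2 := hdeg c (by simp)
  have degd : dg F d = 2 := hdeg d (by simp)
  have dege : dg F e = 2 := hdeg e (by simp)
  have degg : dg F g = 2 := hdeg g (by simp)
  have degh : dg F h = 2 := hdeg h (by simp)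
  have nB : ∀ y, F.Adj b y → y = a ∨ y = c := fun y hy => nb2 degb hab.symm hbc nac hy
  have nD : ∀ y, F.Adj d y → y = c ∨ y = e := fun y hy => nb2 degd hcd.symm hde nce hy
  have nG : ∀ y, F.Adj g y → y = e ∨ y = h := fun y hy => nb2 degg heg.symm hgh neh hy
  have z1 : ∀ y, y ≠ b → y ≠ a → y ≠ c → BQ F y b = 0 := fun y h0 h1 h2 =>
    bq_not h0 (fun h3 => (nB y h3.symm).elim h1 h2)
  have z2 : ∀ y, y ≠ d → y ≠ c → y ≠ e → BQ F y d = 0 := fun y h0 h1 h2 =>
    bq_not h0 (fun h3 => (nD y h3.symm).elim h1 h2)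
  have z3 : ∀ y, y ≠ g → y ≠ e → y ≠ h → BQ F y g = 0 := fun y h0 h1 h2 =>
    bq_not h0 (fun h3 => (nG y h3.symm).elim h1 h2)
  have Ba : BQ F a a = 0 := by rw [bq_diag, dega]; norm_num
  have Bb : BQ F b b = 0 := by rw [bq_diag, degb]; norm_num
  have Bc : BQ F c c = 0 := by rw [bq_diag, degc]; norm_num
  have Bd : BQ F d d = 0 := by rw [bq_diag, degd]; norm_num
  have Be : BQ F e e = 0 := by rw [bq_diag, dege]; norm_num
  have Bg : BQ F g g = 0 := by rw [bq_diag, degg]; norm_num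
  have Bh : BQ F h h = 0 := by rw [bq_diag, degh]; norm_num
  have Bbd : BQ F b d = 0 := z2 b nbd nbc nbe
  have Bbg : BQ F b g = 0 := z3 b nbg nbe nbh
  have Bdg : BQ F d g = 0 := z3 d ndg nde ndh
  have Bab : BQ F a b = 1 := bq_adj hab
  have Bad : BQ F a d = 0 := z2 a nad nac nae
  have Bag : BQ F a g = 0 := z3 a nag nae nah
  have Bcb : BQ F c b = 1 := bq_adj hbc.symm
  have Bcd : BQ F c d = 1 := bq_adj hcd
  have Bcg : BQ F c g = 0 := z3 c ncg nce nch
  have Beb : BQ F e b = 0 := z1 e (Ne.symm nbe) (Ne.symm nae) (Ne.symm nce)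
  have Bed : BQ F e d = 1 := bq_adj hde.symm
  have Beg : BQ F e g = 1 := bq_adj heg
  have Bhb : BQ F h b = 0 := z1 h (Ne.symm nbh) (Ne.symm nah) (Ne.symm nch)
  have Bhd : BQ F h d = 0 := z2 h (Ne.symm ndh) (Ne.symm nch) (Ne.symm neh)
  have Bhg : BQ F h g = 1 := bq_adj hgh.symm
  have q1 := K7P_qB hD a b d g 29 24 (-7) 3
  have q2 := K7P_qB hD c b d g 29 15 19 (-5)
  have q3 := K7P_qB hD e b d g 29 (-5) 19 15
  have q4 := K7P_qB hD h b d g 29 3 (-7) 24
  have q5 := K7P_qB hD a b d g 0 6 (-1) 6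
  have q6 := K7P_qB hD a b d g 0 0 1 0
  have r1 := K7P_q hD a b d g 29 (-24) 7 (-3)
  have r2 := K7P_q hD c b d g 29 (-15) (-19) 5
  have r3 := K7P_q hD e b d g 29 5 (-19) (-15)
  have r4 := K7P_q hD h b d g 29 (-3) 7 (-24)
  have r5 := K7P_q hD a b d g 0 6 (-1) 6
  have r6 := K7P_q hD a b d g 0 0 1 0
  simp only [K7P_Q, Ba, Bb, Bc, Bd, Be, Bg, Bh, Bbd, Bbg, Bdg, Bab, Bad, Bag, Bcb, Bcd, Bcg, Beb,
    Bed, Beg, Bhb, Bhd, Bhg] at q1 q2 q3 q4 q5 q6 r1 r2 r3 r4 r5 r6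
  unfold Good
  rw [Finset.sum_insert (by simp [nab, nac, nad, nae, nag, nah]),
    Finset.sum_insert (by simp [nbc, nbd, nbe, nbg, nbh]),
    Finset.sum_insert (by simp [ncd, nce, ncg, nch]),
    Finset.sum_insert (by simp [nde, ndg, ndh]), Finset.sum_insert (by simp [neg, neh]),
    Finset.sum_insert (by simp [ngh]), Finset.sum_singleton,
    Finset.sum_insert (by simp [nab, nac, nad, nae, nag, nah]),
    Finset.sum_insert (by simp [nbc, nbd, nbe, nbg, nbh]),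
    Finset.sum_insert (by simp [ncd, nce, ncg, nch]),
    Finset.sum_insert (by simp [nde, ndg, ndh]), Finset.sum_insert (by simp [neg, neh]),
    Finset.sum_insert (by simp [ngh]), Finset.sum_singleton,
    dega, degb, degc, degd, dege, degg, degh]
  push_cast
  linear_combination (1 / 1682 : ℝ) * q1 + (1 / 1682 : ℝ) * q2 + (1 / 1682 : ℝ) * q3
    + (1 / 1682 : ℝ) * q4 + (1 / 10092 : ℝ) * q5 + (125 / 10092 : ℝ) * q6
    + (1 / 1682 : ℝ) * r1 + (1 / 1682 : ℝ) * r2 + (1 / 1682 : ℝ) * r3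
    + (1 / 1682 : ℝ) * r4 + (1 / 10092 : ℝ) * r5 + (125 / 10092 : ℝ) * r6

end H175LG
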