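import Pool.Agent.H175R.LG.Defs

set_option autoImplicit false
open scoped BigOperators Matrix

namespace H175LG

open scoped MatrixOrder in
lemma LIN_tr {E : Type} [Fintype E] [DecidableEq E] {W M : Matrix E E ℝ}
    (hW : W.PosSemidef) (hM : M.PosSemidef) : 0 ≤ (W * M).trace := by
  obtain ⟨B, hB⟩ := CStarAlgebra.nonneg_iff_eq_star_mul_self.mp hW.nonneg
  rw [Matrix.star_eq_conjTranspose] at hB
  have h1 : (W * M).trace = (B * M * Bᴴ).trace := by
    rw [hB, Matrix.mul_assoc, Matrix.trace_mul_comm]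
  rw [h1]
  exact (hM.mul_mul_conjTranspose_same B).trace_nonneg

theorem t_LIN : S_LIN := by
  intro V E _ _ _ _ N P hP hD
  set R : Matrix E E ℝ := P + (2 : ℝ) • (1 : Matrix E E ℝ) with hRdef
  have hR : R.PosDef := Matrix.PosDef.posSemidef_add hP (Matrix.PosDef.one.smul two_pos)
  set M : Matrix E E ℝ := R - Nᵀ * N with hMdef
  have hM : M.PosSemidef := by
    have : M = P - (Nᵀ * N - (2 : ℝ) • (1 : Matrix E E ℝ)) := by
      rw [hMdef, hRdef]; abel
    rw [this]; exact hD
  have hdet : IsUnit R.det := (Matrix.isUnit_iff_isUnit_det R).1 hR.isUnit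
  set S : Matrix E E ℝ := R⁻¹ with hSdef
  have hSR : S * R = 1 := Matrix.nonsing_inv_mul R hdet
  have hRS : R * S = 1 := Matrix.mul_nonsing_inv R hdet
  have hSh : Sᴴ = S := hR.inv.isHermitian
  have hPh : Pᴴ = P := hP.isHermitian
  have hNh : Nᴴ = Nᵀ := Matrix.conjTranspose_eq_transpose_of_trivial N
  have hNth : Nᵀᴴ = N := by
    rw [Matrix.conjTranspose_eq_transpose_of_trivial, Matrix.transpose_transpose]
  set A : Matrix V V ℝ := N * S * Nᵀ with hAdef
  have hAh : Aᴴ = A := by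
    rw [hAdef, Matrix.conjTranspose_mul, Matrix.conjTranspose_mul, hSh, hNth, hNh,
      Matrix.mul_assoc]
  set W : Matrix E E ℝ := 1 - (2 : ℝ) • S with hWdef
  have hW : W.PosSemidef := by
    have h1 : W = S * (P * Pᴴ + (2 : ℝ) • P) * Sᴴ := by
      rw [hSh, hPh]
      have h2 : P * P + (2 : ℝ) • P = P * R := by
        rw [hRdef, Matrix.mul_add, Matrix.mul_smul, Matrix.mul_one]
      have h3 : P = R - (2 : ℝ) • (1 : Matrix E E ℝ) := by rw [hRdef]; abel
      rw [h2, ← Matrix.mul_assoc S P R, Matrix.mul_assoc (S * P) R S, hRS, Matrix.mul_one]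
      have h4 : S * P = S * (R - (2 : ℝ) • (1 : Matrix E E ℝ)) := by rw [← h3]
      rw [h4, Matrix.mul_sub, hSR, Matrix.mul_smul, Matrix.mul_one]
    rw [h1]
    refine Matrix.PosSemidef.mul_mul_conjTranspose_same ?_ S
    exact (Matrix.posSemidef_self_mul_conjTranspose P).add (hP.smul zero_le_two)
  have hP' : N * Nᵀ - (2 : ℝ) • A = N * W * Nᴴ := by
    rw [hNh, hWdef, Matrix.mul_sub, Matrix.sub_mul, Matrix.mul_one, Matrix.mul_smul,
      Matrix.smul_mul]
  refine ⟨N * Nᵀ - (2 : ℝ) • A, ?_, ?_, ?_⟩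
  · rw [hP']
    exact hW.mul_mul_conjTranspose_same N
  · have h1 : N * Nᵀ - (2 : ℝ) • A - (N * Nᵀ - (2 : ℝ) • (1 : Matrix V V ℝ)) =
        (2 : ℝ) • ((1 - A) * (1 - A)ᴴ + (N * S) * M * (N * S)ᴴ) := by
      have h2 : (1 - A)ᴴ = 1 - A := by
        rw [Matrix.conjTranspose_sub, hAh, Matrix.conjTranspose_one]
      have h3 : (N * S) * M * (N * S)ᴴ = A - A * A := by
        rw [Matrix.conjTranspose_mul, hSh, hNh, hMdef, Matrix.mul_sub, Matrix.sub_mul]
        congr 1
        · rw [Matrix.mul_assoc N S R, hSR, Matrix.mul_one, hAdef, Matrix.mul_assoc]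
        · rw [hAdef]
          simp only [Matrix.mul_assoc]
      have h4 : (1 - A) * (1 - A) = 1 - A - A + A * A := by
        rw [Matrix.sub_mul, Matrix.one_mul, Matrix.mul_sub, Matrix.mul_one]
        abel
      rw [h2, h3, h4]
      have h5 : 1 - A - A + A * A + (A - A * A) = 1 - A := by abel
      rw [h5, smul_sub]
      abel
    rw [h1]
    refine Matrix.PosSemidef.smul ?_ zero_le_two
    exact (Matrix.posSemidef_self_mul_conjTranspose _).add (hM.mul_mul_conjTranspose_same _)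
  · have h1 : (N * Nᵀ - (2 : ℝ) • A).trace = (W * (Nᵀ * N)).trace := by
      rw [hP', hNh, Matrix.mul_assoc, Matrix.trace_mul_comm, Matrix.mul_assoc]
    have h2 : (W * R).trace = P.trace := by
      rw [hWdef, Matrix.sub_mul, Matrix.one_mul, Matrix.smul_mul, hSR]
      congr 1
      rw [hRdef]; abel
    have h3 := LIN_tr hW hM
    rw [hMdef, Matrix.mul_sub, Matrix.trace_sub, h2] at h3
    rw [h1]
    linarith

end H175LG
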