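import Pool.Agent.H175R.LG.Defs

/-!
# MS: matched sets
-/

set_option autoImplicit false
open scoped BigOperators Matrix

namespace H175LG

theorem MS_edge {V : Type} [Fintype V] [DecidableEq V] {F : SimpleGraph V} {P : Matrix V V ℝ}
    (h : Dom F P) {u w : V} (huw : F.Adj u w) :
    ((dg F u : ℝ) + dg F w) / 2 - 1 ≤ P u u + P w w := by
  have h1 := quadB h ![u, w] ![1, 1]
  have h2 := quadP h ![u, w] ![1, -1]
  simp only [Fin.sum_univ_two, Matrix.cons_val_zero, Matrix.cons_val_one, bq_diag,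
    bq_adj huw, bq_adj huw.symm] at h1 h2
  linarith

theorem t_MS : S_MS := by
  intro V _ _ F P h f hf T hT hfT
  have h1 : ∑ v ∈ T, (((dg F v : ℝ) + dg F (f v)) / 2 - 1) ≤ ∑ v ∈ T, (P v v + P (f v) (f v)) := by
    refine Finset.sum_le_sum fun v hv => ?_
    have h2 := hT hv
    rw [cov, Finset.mem_filter] at h2
    exact MS_edge h (hf.2 v h2.2)
  have h3 : ∀ g : V → ℝ, ∑ v ∈ T, g (f v) = ∑ v ∈ T, g v := by
    intro g
    refine Finset.sum_nbij' f f hfT hfT (fun v _ => hf.1 v) (fun v _ => hf.1 v) fun v _ => rfl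
  have h4 : ∑ v ∈ T, P (f v) (f v) = ∑ v ∈ T, P v v := h3 fun v => P v v
  have h5 : ∑ v ∈ T, (dg F (f v) : ℝ) = ∑ v ∈ T, (dg F v : ℝ) := h3 fun v => (dg F v : ℝ)
  rw [Finset.sum_sub_distrib, ← Finset.sum_div, Finset.sum_add_distrib, Finset.sum_add_distrib,
    h4, h5] at h1
  rw [← Finset.sum_div, Finset.sum_sub_distrib]
  linarith

end H175LG
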