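import Pool.Agent.H175R.LG.Defs

set_option autoImplicit false
open scoped BigOperators Matrix

namespace H175LG

theorem t_PAR : S_PAR := by
  intro V _ _ F f hf
  have h1 : ∑ v ∈ cov f, (1 : ZMod 2) = 0 := by
    refine Finset.sum_involution (fun v _ => f v) (fun v _ => ?_) (fun v hv _ => ?_)
      (fun v hv => ?_) (fun v _ => hf.1 v)
    · decide
    · exact (Finset.mem_filter.1 hv).2
    · refine Finset.mem_filter.2 ⟨Finset.mem_univ _, ?_⟩
      show f (f v) ≠ f v
      rw [hf.1 v]
      exact fun h => (Finset.mem_filter.1 hv).2 h.symm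
  rw [Finset.sum_const, nsmul_eq_mul, mul_one] at h1
  exact even_iff_two_dvd.2 ((ZMod.natCast_eq_zero_iff _ 2).1 h1)

end H175LG
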