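import Pool.Agent.H175R.LG.Defs

set_option autoImplicit false

namespace H175LG

/-- join `x` (missed by `f`) to `y` and free the old partner of `y` -/
def TR_sw {V : Type} [DecidableEq V] (f : V → V) (x y : V) : V → V := fun w =>
  if w = x then y else if w = y then x else if w = f y then w else f w

theorem TR_sw_isM {V : Type} [DecidableEq V] {F : SimpleGraph V} {f : V → V} (hf : IsM F f)
    {x y : V} (hxy : F.Adj x y) (hx : f x = x) : IsM F (TR_sw f x y) := by
  have hne : x ≠ y := hxy.ne
  obtain ⟨h1, h2⟩ := hf
  constructor
  · intro w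
    by_cases a1 : w = x
    · subst a1
      simp [TR_sw, hne.symm]
    · by_cases a2 : w = y
      · subst a2
        simp [TR_sw, hne.symm]
      · by_cases a3 : w = f y
        · have e : TR_sw f x y w = w := by
            unfold TR_sw
            rw [if_neg a1, if_neg a2, if_pos a3]
          rw [e, e]
        · have e : TR_sw f x y w = f w := by
            unfold TR_sw
            rw [if_neg a1, if_neg a2, if_neg a3]
          have b1 : f w ≠ x := by
            intro h
            apply a1
            rw [← h1 w, h, hx]
          have b2 : f w ≠ y := by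
            intro h
            apply a3
            rw [← h, h1]
          have b3 : f w ≠ f y := by
            intro h
            apply a2
            rw [← h1 w, h, h1]
          rw [e]
          unfold TR_sw
          rw [if_neg b1, if_neg b2, if_neg b3, h1]
  · intro w hw
    by_cases a1 : w = x
    · subst a1
      have e : TR_sw f w y w = y := by simp [TR_sw]
      rw [e]
      exact hxy
    · by_cases a2 : w = y
      · subst a2
        have e : TR_sw f x w w = x := by
          unfold TR_sw
          rw [if_neg a1, if_pos rfl]
        rw [e]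
        exact hxy.symm
      · by_cases a3 : w = f y
        · exfalso
          apply hw
          unfold TR_sw
          rw [if_neg a1, if_neg a2, if_pos a3]
        · have e : TR_sw f x y w = f w := by
            unfold TR_sw
            rw [if_neg a1, if_neg a2, if_neg a3]
          rw [e] at hw ⊢
          exact h2 w hw

theorem TR_mem_cov {V : Type} [Fintype V] [DecidableEq V] {f : V → V} {v : V} :
    v ∈ cov f ↔ f v ≠ v := by
  simp [cov]

/-- a maximum matching does not miss both ends of an edge -/
theorem TR_adj {V : Type} [Fintype V] [DecidableEq V] {F : SimpleGraph V} {f : V → V}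
    (hf : IsMax F f) {x y : V} (hxy : F.Adj x y) (hx : f x = x) (hy : f y = y) : False := by
  have hM := TR_sw_isM hf.1 hxy hx
  have h1 := hf.2 _ hM
  have hsub : insert x (cov f) ⊆ cov (TR_sw f x y) := by
    intro w hw
    rw [Finset.mem_insert, TR_mem_cov] at hw
    rw [TR_mem_cov]
    by_cases a1 : w = x
    · subst a1
      have e : TR_sw f w y w = y := by simp [TR_sw]
      rw [e]
      exact hxy.ne.symm
    · have hw' : f w ≠ w := hw.resolve_left a1
      by_cases a2 : w = y
      · subst a2
        exact absurd hy hw'
      · have a3 : ¬ w = f y := by rw [hy]; exact a2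
        unfold TR_sw
        rw [if_neg a1, if_neg a2, if_neg a3]
        exact hw'
  have h2 := Finset.card_le_card hsub
  rw [Finset.card_insert_of_notMem (by rw [TR_mem_cov]; simp [hx])] at h2
  omega

theorem t_TR : S_TR := by
  intro V _ _ F u t v hex h1 h2 M hM hu hv
  classical
  by_contra huv
  have hMt : M t ≠ t := by
    intro ht
    have e1 := h1 M hM hu ht
    have e2 := h2 M hM ht hv
    exact huv (e1.trans e2)
  -- the maximum matchings missing `t`
  set A : Finset (V → V) := Finset.univ.filter fun f => IsMax F f ∧ f t = t with hA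
  obtain ⟨f0, hf0⟩ := hex
  have hAne : A.Nonempty := ⟨f0, by rw [hA, Finset.mem_filter]; exact ⟨Finset.mem_univ _, hf0⟩⟩
  set ag : (V → V) → Finset V := fun f => Finset.univ.filter fun w => f w = M w ∧ f w ≠ w with hag
  obtain ⟨N, hNA, hNmax⟩ := Finset.exists_max_image A (fun f => (ag f).card) hAne
  rw [hA, Finset.mem_filter] at hNA
  obtain ⟨_, hN, hNt⟩ := hNA
  have hNu : N u ≠ u := by
    intro h
    have e1 := h1 N hN h hNt
    rw [← e1] at hMt
    exact hMt hu
  have hNv : N v ≠ v := by
    intro h
    have e1 := h2 N hN hNt h
    rw [e1] at hMt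
    exact hMt hv
  have hcard : (cov M).card = (cov N).card := le_antisymm (hN.2 M hM.1) (hM.2 N hN.1)
  have hsd : (cov M \ cov N).card = (cov N \ cov M).card := Finset.card_sdiff_comm hcard
  have h2le : 2 ≤ (cov N \ cov M).card := by
    have : ({u, v} : Finset V) ⊆ cov N \ cov M := by
      intro w hw
      rw [Finset.mem_insert, Finset.mem_singleton] at hw
      rw [Finset.mem_sdiff, TR_mem_cov, TR_mem_cov, not_not]
      rcases hw with rfl | rfl
      · exact ⟨hNu, hu⟩
      · exact ⟨hNv, hv⟩
    have h3 := Finset.card_le_card this
    rwa [Finset.card_pair huv] at h3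
  have hx : ∃ x ∈ cov M \ cov N, x ≠ t := by
    refine Finset.exists_mem_ne ?_ t
    omega
  obtain ⟨x, hxm, hxt⟩ := hx
  rw [Finset.mem_sdiff, TR_mem_cov, TR_mem_cov, not_not] at hxm
  obtain ⟨hMx, hNx⟩ := hxm
  set y : V := M x with hy
  have hadj : F.Adj x y := hM.1.2 x hMx
  have hMy : M y = x := by rw [hy, hM.1.1]
  have hNy : N y ≠ y := fun h => TR_adj hN hadj hNx h
  have hzx : N y ≠ x := by
    intro h
    have h3 : N (N y) = N x := by rw [h]
    rw [hN.1.1, hNx] at h3
    exact hMx h3
  -- the new matching
  have hN'M : IsM F (TR_sw N x y) := TR_sw_isM hN.1 hadj hNx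
  have hsub : insert x ((cov N).erase (N y)) ⊆ cov (TR_sw N x y) := by
    intro w hw
    rw [Finset.mem_insert, Finset.mem_erase, TR_mem_cov] at hw
    rw [TR_mem_cov]
    by_cases a1 : w = x
    · subst a1
      have e : TR_sw N w y w = y := by simp [TR_sw]
      rw [e]
      exact hMx
    · obtain ⟨b1, b2⟩ := hw.resolve_left a1
      by_cases a2 : w = y
      · have e : TR_sw N x y w = x := by
          unfold TR_sw
          rw [if_neg a1, if_pos a2]
        rw [e]
        exact fun h => a1 h.symm
      · unfold TR_sw
        rw [if_neg a1, if_neg a2, if_neg b1]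
        exact b2
  have hcard' : (cov N).card ≤ (cov (TR_sw N x y)).card := by
    have h3 := Finset.card_le_card hsub
    have hz : N y ∈ cov N := by
      rw [TR_mem_cov, hN.1.1]
      exact fun h => hNy h.symm
    rw [Finset.card_insert_of_notMem, Finset.card_erase_of_mem hz] at h3
    · have : 0 < (cov N).card := Finset.card_pos.2 ⟨_, hz⟩
      omega
    · rw [Finset.mem_erase, TR_mem_cov]
      exact fun h => h.2 hNx
  have hN'max : IsMax F (TR_sw N x y) := ⟨hN'M, fun g hg => (hN.2 g hg).trans hcard'⟩
  have hty : t ≠ y := by
    rintro rfl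
    exact hNy hNt
  have htz : t ≠ N y := by
    intro h
    have h3 : N t = N (N y) := by rw [← h]
    rw [hNt, hN.1.1] at h3
    exact hty h3
  have hN't : TR_sw N x y t = t := by
    unfold TR_sw
    rw [if_neg hxt.symm, if_neg hty, if_neg htz, hNt]
  have hmem : TR_sw N x y ∈ A := by
    rw [hA, Finset.mem_filter]
    exact ⟨Finset.mem_univ _, hN'max, hN't⟩
  have hle := hNmax _ hmem
  have hlt : (ag N).card < (ag (TR_sw N x y)).card := by
    apply Finset.card_lt_card
    rw [Finset.ssubset_iff_of_subset]
    · refine ⟨x, ?_, ?_⟩
      · rw [hag, Finset.mem_filter]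
        have e : TR_sw N x y x = y := by simp [TR_sw]
        exact ⟨Finset.mem_univ _, by rw [e], by rw [e]; exact hMx⟩
      · rw [hag, Finset.mem_filter]
        exact fun h => h.2.2 hNx
    · intro w hw
      rw [hag, Finset.mem_filter] at hw ⊢
      obtain ⟨_, c1, c2⟩ := hw
      have a1 : w ≠ x := by
        rintro rfl
        exact c2 hNx
      have a2 : w ≠ y := by
        intro h
        rw [h, hMy] at c1
        exact hzx c1
      have a3 : w ≠ N y := by
        intro h
        have h3 : N w = y := by rw [h, hN.1.1]
        have h4 : M w = y := by rw [← c1, h3]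
        have h5 : w = x := by rw [← hM.1.1 w, h4, hMy]
        exact a1 h5
      have e : TR_sw N x y w = N w := by
        unfold TR_sw
        rw [if_neg a1, if_neg a2, if_neg a3]
      rw [e]
      exact ⟨Finset.mem_univ _, c1, c2⟩
  omega

end H175LG
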