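import Pool.Agent.H175R.LG.Final
import Pool.Agent.H175R.LG.T_FCB
import Pool.Agent.H175R.LG.T_LIN
import Pool.Agent.H175R.LG.T_MS
import Pool.Agent.H175R.LG.T_BL
import Pool.Agent.H175R.LG.T_DEG
import Pool.Agent.H175R.LG.T_K7
import Pool.Agent.H175R.LG.T_K5A
import Pool.Agent.H175R.LG.T_K5B
import Pool.Agent.H175R.LG.T_K5C
import Pool.Agent.H175R.LG.T_K5P
import Pool.Agent.H175R.LG.T_K3
import Pool.Agent.H175R.LG.T_K5R
import Pool.Agent.H175R.LG.T_K7P
import Pool.Agent.H175R.LG.T_F2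
import Pool.Agent.H175R.LG.T_F3
import Pool.Agent.H175R.LG.T_TR
import Pool.Agent.H175R.LG.T_GAL
import Pool.Agent.H175R.LG.T_CMP
import Pool.Agent.H175R.LG.T_PAR
import Pool.Agent.H175R.LG.T_IND
import Pool.Agent.H175R.LG.T_BR
import Pool.Agent.H175R.LG.T_IDP

/-!
# Line graphs: assembly
-/

set_option autoImplicit false

namespace H175LG

theorem fcb : S_FCB :=
  t_FCB (t_BL t_MS) (t_F2 (t_BL t_MS) t_K3 t_K5R t_K7P)
    (t_F3 (t_BL t_MS) t_K7 t_K5A t_K5B t_K5C t_K5P t_DEG) t_DEG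

theorem br : S_BR := t_BR t_LIN fcb

theorem ind : S_IND := t_IND (t_CMP (t_GAL t_TR)) t_PAR

theorem line (W : Type) [Fintype W] [DecidableEq W] (G : SimpleGraph W) [DecidableRel G.Adj]
    (V : Type) [Fintype V] (H : SimpleGraph V) (φ : G ≃g H.lineGraph) :
    ∃ s : Finset W, G.IsIndepSet (s : Set W) ∧
      (Fintype.card W : ℝ) - (s.card : ℝ) ≤
        (((G.adjMatrix ℝ).charpoly.roots).filter (fun x : ℝ => 0 < x)).sum :=
  line_main br ind t_IDP W G V H φ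

end H175LG
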