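import Pool.Agent.H175R.LG.Defs

/-!
# Line graphs: the 2-regular case
-/

set_option autoImplicit false
open scoped BigOperators Matrix

namespace H175LG

lemma F2_two {V : Type} [Fintype V] [DecidableEq V] {F : SimpleGraph V} {x : V}
    (h : dg F x = 2) : ∃ a b, a ≠ b ∧ F.Adj x a ∧ F.Adj x b := by
  classical
  unfold dg at h
  obtain ⟨a, b, hab, he⟩ := Finset.card_eq_two.1 h
  refine ⟨a, b, hab, ?_, ?_⟩
  · have : a ∈ Finset.univ.filter fun w => F.Adj x w := by
      have h2 : a ∈ ({a, b} : Finset V) := by simp
      rw [← he] at h2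
      simpa using h2
    simpa using this
  · have : b ∈ Finset.univ.filter fun w => F.Adj x w := by
      have h2 : b ∈ ({a, b} : Finset V) := by simp
      rw [← he] at h2
      simpa using h2
    simpa using this

lemma F2_other {V : Type} [Fintype V] [DecidableEq V] {F : SimpleGraph V} {x a : V}
    (h : dg F x = 2) : ∃ b, b ≠ a ∧ F.Adj x b := by
  obtain ⟨c, d, hcd, hc, hd⟩ := F2_two h
  by_cases hca : c = a
  · exact ⟨d, fun h => hcd (hca.trans h.symm), hd⟩
  · exact ⟨c, hca, hc⟩

theorem t_F2 (h0 : S_BL) (h1 : S_K3) (h2 : S_K5R) (h3 : S_K7P) : S_F2 := by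
  intro V _ _ F P hD S hFC hS hdeg
  have hne : S.Nonempty := Finset.card_pos.1 (by omega)
  obtain ⟨v, hv⟩ := hne
  obtain ⟨f, hf, hcov⟩ := hFC.2 v hv
  have hcovI : ∀ w, f w ≠ w ↔ (w ≠ v ∧ w ∈ S) := by
    intro w
    have : w ∈ cov f ↔ w ∈ S.erase v := by rw [hcov]
    unfold cov at this
    rw [Finset.mem_filter, Finset.mem_erase] at this
    constructor
    · intro h; exact this.1 ⟨Finset.mem_univ _, h⟩
    · intro h; exact (this.2 h).2
  have hfv : f v = v := by
    by_contra h
    exact ((hcovI v).1 h).1 rfl
  have hff := hf.1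
  have hfi : ∀ x y, f x = y → x = f y := fun x y h => by rw [← h, hff]
  obtain ⟨a, b, hab, hva, hvb⟩ := F2_two (hdeg v hv)
  have haS : a ∈ S := hFC.1 a v hva.symm
  have hbS : b ∈ S := hFC.1 b v hvb.symm
  have hav : a ≠ v := hva.ne'
  have hbv : b ≠ v := hvb.ne'
  have hfa : f a ≠ a := (hcovI a).2 ⟨hav, haS⟩
  have hfb : f b ≠ b := (hcovI b).2 ⟨hbv, hbS⟩
  have hAa : F.Adj a (f a) := hf.2 a hfa
  have hAb : F.Adj b (f b) := hf.2 b hfb
  have hfav : f a ≠ v := fun h => hav ((hfi _ _ h).trans hfv)
  have hfbv : f b ≠ v := fun h => hbv ((hfi _ _ h).trans hfv)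
  by_cases hfab : f a = b
  · -- triangle
    have hfba : f b = a := by rw [← hfab, hff]
    have hg : Good F P {v, a, b} := by
      refine h1 V F P hD v a b ?_ hva (by rw [hfab] at hAa; exact hAa) hvb (hdeg v hv)
        (hdeg a haS) (hdeg b hbS)
      simp only [List.nodup_cons, List.mem_cons, List.not_mem_nil, or_false, not_false_eq_true,
        List.nodup_nil, and_true, not_or]
      exact ⟨⟨hav.symm, hbv.symm⟩, hab⟩
    refine h0 V F P hD S {v, a, b} v f hf (by simp) ?_ hcov ?_ hg
    · intro w hw
      simp only [Finset.mem_insert, Finset.mem_singleton] at hw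
      rcases hw with rfl | rfl | rfl
      · exact hv
      · exact haS
      · exact hbS
    · intro w hw
      simp only [Finset.mem_insert, Finset.mem_singleton] at hw ⊢
      rcases hw with rfl | rfl | rfl
      · left; exact hfv
      · right; right; exact hfab
      · right; left; exact hfba
  · have hfba : f b ≠ a := fun h => hfab (hfi _ _ h).symm
    have hfafb : f a ≠ f b := fun h => hab (by rw [← hff a, h, hff])
    obtain ⟨a2, ha2⟩ : ∃ a2, f a = a2 := ⟨_, rfl⟩
    obtain ⟨b2, hb2⟩ : ∃ b2, f b = b2 := ⟨_, rfl⟩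
    rw [ha2] at hfa hAa hfav hfab hfafb
    rw [hb2] at hfb hAb hfbv hfba hfafb
    have hfa2 : f a2 = a := (hfi _ _ ha2).symm
    have hfb2 : f b2 = b := (hfi _ _ hb2).symm
    have ha2S : a2 ∈ S := hFC.1 a2 a hAa.symm
    have hb2S : b2 ∈ S := hFC.1 b2 b hAb.symm
    by_cases h22 : F.Adj a2 b2
    · have hg : Good F P {v, a, a2, b2, b} := by
        refine h2 V F P hD v a a2 b2 b ?_ hva hAa h22 hAb.symm hvb.symm ?_
        · simp only [List.nodup_cons, List.mem_cons, List.not_mem_nil, or_false,
            not_false_eq_true, List.nodup_nil, and_true, not_or]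
          exact ⟨⟨hav.symm, hfav.symm, hfbv.symm, hbv.symm⟩, ⟨hfa.symm, hfba.symm, hab⟩,
            ⟨hfafb, hfab⟩, hfb⟩
        · intro w hw
          simp only [List.mem_cons, List.not_mem_nil, or_false] at hw
          rcases hw with rfl | rfl | rfl | rfl | rfl <;> apply hdeg <;> assumption
      refine h0 V F P hD S {v, a, a2, b2, b} v f hf (by simp) ?_ hcov ?_ hg
      · intro w hw
        simp only [Finset.mem_insert, Finset.mem_singleton] at hw
        rcases hw with rfl | rfl | rfl | rfl | rfl <;> assumption
      · intro w hw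
        simp only [Finset.mem_insert, Finset.mem_singleton] at hw ⊢
        rcases hw with rfl | rfl | rfl | rfl | rfl
        · left; exact hfv
        · right; right; left; exact ha2
        · right; left; exact hfa2
        · right; right; right; right; exact hfb2
        · right; right; right; left; exact hb2
    · obtain ⟨a3, ha3a, hA3⟩ := F2_other (a := a) (hdeg a2 ha2S)
      have ha3S : a3 ∈ S := hFC.1 a3 a2 hA3.symm
      have h3a2 : a3 ≠ a2 := hA3.ne'
      have h3v : a3 ≠ v := by
        rintro rfl
        rcases nb2 (hdeg _ hv) hva hvb hab hA3.symm with h | h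
        · exact hfa h
        · exact hfab h
      have h3b : a3 ≠ b := by
        rintro rfl
        rcases nb2 (hdeg _ hbS) hvb.symm hAb hfbv.symm hA3.symm with h | h
        · exact hfav h
        · exact hfafb h
      have h3b2 : a3 ≠ b2 := by
        rintro rfl
        exact h22 hA3
      have hf3 : f a3 ≠ a3 := (hcovI a3).2 ⟨h3v, ha3S⟩
      have hA4 : F.Adj a3 (f a3) := hf.2 a3 hf3
      obtain ⟨a4, ha4⟩ : ∃ a4, f a3 = a4 := ⟨_, rfl⟩
      rw [ha4] at hf3 hA4
      have hfa4 : f a4 = a3 := (hfi _ _ ha4).symm
      have ha4S : a4 ∈ S := hFC.1 a4 a3 hA4.symm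
      have h4v : a4 ≠ v := by
        rintro rfl
        exact h3v (hfa4.symm.trans hfv)
      have h4a : a4 ≠ a := by
        rintro rfl
        exact h3a2 (hfa4.symm.trans ha2)
      have h4a2 : a4 ≠ a2 := by
        rintro rfl
        exact ha3a (hfa4.symm.trans hfa2)
      have h4b : a4 ≠ b := by
        rintro rfl
        exact h3b2 (hfa4.symm.trans hb2)
      have h4b2 : a4 ≠ b2 := by
        rintro rfl
        exact h3b (hfa4.symm.trans hfb2)
      have hg : Good F P {a4, a3, a2, a, v, b, b2} := by
        refine h3 V F P hD a4 a3 a2 a v b b2 ?_ hA4.symm hA3.symm hAa.symm hva.symm hvb hAb ?_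
        · simp only [List.nodup_cons, List.mem_cons, List.not_mem_nil, or_false,
            not_false_eq_true, List.nodup_nil, and_true, not_or]
          exact ⟨⟨hf3, h4a2, h4a, h4v, h4b, h4b2⟩, ⟨h3a2, ha3a, h3v, h3b, h3b2⟩,
            ⟨hfa, hfav, hfab, hfafb⟩, ⟨hav, hab, hfba.symm⟩, ⟨hbv.symm, hfbv.symm⟩, hfb.symm⟩
        · intro w hw
          simp only [List.mem_cons, List.not_mem_nil, or_false] at hw
          rcases hw with rfl | rfl | rfl | rfl | rfl | rfl | rfl <;> apply hdeg <;> assumption
      refine h0 V F P hD S {a4, a3, a2, a, v, b, b2} v f hf (by simp) ?_ hcov ?_ hg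
      · intro w hw
        simp only [Finset.mem_insert, Finset.mem_singleton] at hw
        rcases hw with rfl | rfl | rfl | rfl | rfl | rfl | rfl <;> assumption
      · intro w hw
        simp only [Finset.mem_insert, Finset.mem_singleton] at hw ⊢
        rcases hw with rfl | rfl | rfl | rfl | rfl | rfl | rfl
        · right; left; exact hfa4
        · left; exact ha4
        · right; right; right; left; exact hfa2
        · right; right; left; exact ha2
        · right; right; right; right; left; exact hfv
        · right; right; right; right; right; right; exact hb2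
        · right; right; right; right; right; left; exact hfb2

end H175LG
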